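import Pool.Agent.Helper57.LT4.Fam

/-!
# ASM: the assembly
-/

set_option autoImplicit false

open scoped ContDiff Matrix ComplexConjugate
open Set Pool.Agent.W630.LT

namespace Pool.Agent.Helper57.LT4

section

variable {κ : Type} [Fintype κ] [DecidableEq κ]

/-- the subtorus `x₂ = 0`, `y_j = 0` for `j ≠ k₀, k₁` -/
def inc (k0 k1 : κ) (s : R3) : Fin 2 ⊕ κ → ℝ :=
  Sum.elim ![s 0, 0] (fun j => if j = k0 then s 1 else if j = k1 then s 2 else 0)

omit [Fintype κ] in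
theorem p3_inc {k0 k1 : κ} (h : k0 ≠ k1) (s : R3) : p3 k0 k1 (inc k0 k1 s) = s := by
  ext i
  fin_cases i
  · simp [p3, inc]
  · simp [p3, inc]
  · simp [p3, inc, h.symm]

theorem contDiff_inc (k0 k1 : κ) : ContDiff ℝ ∞ (inc k0 k1) := by
  rw [contDiff_pi]
  rintro (l | j)
  · fin_cases l
    · exact contDiff_apply ℝ ℝ (0 : Fin 3)
    · exact contDiff_const
  · unfold inc
    simp only [Sum.elim_inr]
    split_ifs
    · exact contDiff_apply ℝ ℝ (1 : Fin 3)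
    · exact contDiff_apply ℝ ℝ (2 : Fin 3)
    · exact contDiff_const

omit [Fintype κ] in
theorem inc_add (k0 k1 : κ) (k : Fin 3) (s : R3) :
    ∃ m : Fin 2 ⊕ κ → ℤ, ∀ i, inc k0 k1 (s + Pi.single k 1) i = inc k0 k1 s i + m i := by
  refine ⟨Sum.elim ![if k = 0 then 1 else 0, 0] (fun j => if j = k0 then (if k = 1 then 1 else 0)
    else if j = k1 then (if k = 2 then 1 else 0) else 0), ?_⟩
  rintro (l | j)
  · fin_cases l
    · fin_cases k <;> simp [inc]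
    · simp [inc]
  · unfold inc
    simp only [Sum.elim_inr]
    split_ifs <;> simp_all [Pi.single_apply]

end

theorem exists_torus (hE : S_EMB) (hG : S_GEN) (hN : S_WN) (hV : S_EVC) (hC : S_CV) (hD : S_DEG)
    (n : ℕ) (hn : 4 ≤ n) :
    ∃ F : (Fin n → ℝ) → (Fin n → ℂ), LagEmb F ∧
      ∀ f : ℝ → (Fin n → ℝ) → (Fin n → ℂ),
        ContDiffOn ℝ ∞ (fun p : ℝ × (Fin n → ℝ) => f p.1 p.2) (Icc 0 1 ×ˢ univ) →
        (∀ t ∈ Icc (0 : ℝ) 1, LagEmb (f t)) → range (f 1) = range F →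
        ∀ r : ℝ, 0 < r → ¬ (∀ x j, (f 0 x j).im ^ 2 + (f 0 x j).re ^ 2 = r) := by
  obtain ⟨c, hc0, hcnt, hev⟩ := hV
  let k0 : Fin (n - 2) := ⟨0, by omega⟩
  let k1 : Fin (n - 2) := ⟨1, by omega⟩
  have hk : k0 ≠ k1 := by simp [k0, k1, Fin.ext_iff]
  have h := hC (Fin (n - 2)) k0 k1 hk
  set c1 : (Fin 2 ⊕ Fin (n - 2) → ℝ) → ℂ := fun X => g1 (p3 k0 k1 X) with hc1
  set c2 : (Fin 2 ⊕ Fin (n - 2) → ℝ) → ℂ := fun X => g2 (p3 k0 k1 X) with hc2
  obtain ⟨ε₀, hε₀, hemb⟩ := hE (Fin (n - 2)) c1 c2 h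
  set ε := ε₀ / 2 with hε
  have hεp : 0 < ε := by positivity
  obtain ⟨C, hC0, hfam⟩ := t_FAM (Fin (n - 2)) c1 c2 h ε hεp
  have hL : LagEmb (FS (zc c1 c2 ε) C) := hemb ε hεp (by linarith) C (hfam C le_rfl)
  have hW := hG (Fin 2) (Fin (n - 2)) (zc c1 c2 ε) C hC0 hfam (h.perz ε) (inc k0 k1)
    (contDiff_inc k0 k1) (inc_add k0 k1)
  have hW2 := hN (Fin (n - 2)) c1 c2 h ε hεp (inc k0 k1) (contDiff_inc k0 k1) (inc_add k0 k1)
  have hW3 : (fun s => !![c1 (inc k0 k1 s), -conj (c2 (inc k0 k1 s)); c2 (inc k0 k1 s),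
      conj (c1 (inc k0 k1 s))]) = fun s => !![g1 s, -conj (g2 s); g2 s, conj (g1 s)] := by
    funext s
    simp only [hc1, hc2]
    rw [p3_inc hk]
  rw [hW3] at hW2
  have hW4 := hD c hcnt
  rw [← hW2, ← hW] at hW4
  let e : Fin 2 ⊕ Fin (n - 2) ≃ Fin n := finSumFinEquiv.trans (finCongr (by omega))
  refine ⟨tr e (FS (zc c1 c2 ε) C), hL.tr e, ?_⟩
  intro f hf hfL hrange r hr hcl
  let ρ : R3 → Fin n → ℝ := fun s i => inc k0 k1 s (e.symm i)
  have hρ : ContDiff ℝ ∞ ρ := by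
    rw [contDiff_pi]
    intro i
    exact (contDiff_pi.1 (contDiff_inc k0 k1)) (e.symm i)
  have hp : ∀ (k : Fin 3) (s : R3), ∃ m : Fin n → ℤ, ∀ i, ρ (s + Pi.single k 1) i = ρ s i + m i := by
    intro k s
    obtain ⟨m, hm⟩ := inc_add k0 k1 k s
    exact ⟨fun i => m (e.symm i), fun i => hm (e.symm i)⟩
  obtain ⟨k, hk'⟩ := even_of_isotopic (fun R hR => hev n R hR) hf hfL hr hcl (hL.tr e) hrange hρ hp
  have h1 : (fun s => mat (fderiv ℝ (tr e (FS (zc c1 c2 ε) C)) (ρ s))) =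
      fun s => (mat (fderiv ℝ (FS (zc c1 c2 ε) C) (inc k0 k1 s))).submatrix e.symm e.symm := by
    funext s
    rw [mat_tr e hL.smooth]
    have h2 : (fun j => ρ s (e j)) = inc k0 k1 s := by
      funext j
      change inc k0 k1 s (e.symm (e j)) = _
      rw [e.symm_apply_apply]
    rw [h2]
  rw [h1, idx] at hk'
  rcases hW4 with h4 | h4
  · rw [h4] at hk'
    have h2 : (1 : ℂ) = 2 * k := by
      apply mul_right_cancel₀ hc0
      rw [one_mul]
      exact hk'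
    have h3 : (1 : ℤ) = 2 * k := by exact_mod_cast h2
    omega
  · rw [h4] at hk'
    have h2 : (-1 : ℂ) = 2 * k := by
      apply mul_right_cancel₀ hc0
      rw [neg_one_mul]
      exact hk'
    have h3 : (-1 : ℤ) = 2 * k := by exact_mod_cast h2
    omega

theorem not_isotopic (hE : S_EMB) (hG : S_GEN) (hN : S_WN) (hV : S_EVC) (hC : S_CV) (hD : S_DEG)
    (n : ℕ) (hn : 4 ≤ n) :
    ∃ L : Set (Fin n → ℂ), IsLagrangianTorus L ∧ ¬ LagrangianIsotopic (cliffordTorus n) L := by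
  obtain ⟨F, hF, h⟩ := exists_torus hE hG hN hV hC hD n hn
  refine ⟨range F, ⟨F, hF, rfl⟩, ?_⟩
  rintro ⟨f, hf, hfL, h0, h1⟩
  refine h f hf hfL h1 (1 / n) (by positivity) fun x j => ?_
  have h2 : f 0 x ∈ cliffordTorus n := by
    rw [← h0]
    exact mem_range_self x
  exact h2 j

end Pool.Agent.Helper57.LT4
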