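import Pool.Agent.Helper57.LT4.Deg

/-!
# Piece CV: the explicit family satisfies the conditions
-/

set_option autoImplicit false

open scoped ContDiff Matrix ComplexConjugate
open Set Pool.Agent.W630.LT

namespace Pool.Agent.Helper57.LT4

namespace CVX

open DG

theorem contDiff_q : ContDiff ℝ ∞ (fun s : R3 => ee (s 0 + th s) / (2 * (mm s : ℂ))) := by
  have hm : ContDiff ℝ ∞ (fun s : R3 => (2 * (mm s : ℂ))) :=
    contDiff_const.mul (Complex.ofRealCLM.contDiff.comp contDiff_mm)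
  have hne : ∀ s : R3, (2 * (mm s : ℂ)) ≠ 0 := by
    intro s
    have := (mm_pos s).ne'
    simp [this]
  exact contDiff_ph.mul (hm.inv hne)

theorem contDiff_duC (i : Fin 4) : ContDiff ℝ ∞ (fun s : R3 => (du s i : ℂ)) :=
  Complex.ofRealCLM.contDiff.comp (contDiff_pi.1 contDiff_du i)

theorem contDiff_g1 : ContDiff ℝ ∞ g1 := by
  have e : g1 = fun s => -((du s 0 : ℂ) + du s 1 * Complex.I) *
      (ee (s 0 + th s) / (2 * (mm s : ℂ))) := funext g1_eq
  rw [e]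
  exact (((contDiff_duC 0).add ((contDiff_duC 1).mul contDiff_const)).neg).mul contDiff_q

theorem contDiff_g2 : ContDiff ℝ ∞ g2 := by
  have e : g2 = fun s => ((du s 2 : ℂ) - du s 3 * Complex.I) *
      (ee (s 0 + th s) / (2 * (mm s : ℂ))) := funext g2_eq
  rw [e]
  exact ((contDiff_duC 2).sub ((contDiff_duC 3).mul contDiff_const)).mul contDiff_q

theorem per_g1 : Per g1 := by
  intro k s
  have h1 := per_ph k s
  simp only at h1
  rw [g1_eq, g1_eq, Vp_du.per, h1, per_mm]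

theorem per_g2 : Per g2 := by
  intro k s
  have h1 := per_ph k s
  simp only at h1
  rw [g2_eq, g2_eq, Vp_du.per, h1, per_mm]

theorem unit_g (s : R3) : conj (g1 s) * g1 s + conj (g2 s) * g2 s = 1 := by
  have hM : (mm s : ℂ) ≠ 0 := by exact_mod_cast (mm_pos s).ne'
  have h0 : (du s 0 : ℂ) ^ 2 + (du s 1 : ℂ) ^ 2 + (du s 2 : ℂ) ^ 2 + (du s 3 : ℂ) ^ 2 =
      4 * (mm s : ℂ) ^ 2 := by
    exact_mod_cast du_sq s
  have h1 := ee_conj_mul (s 0 + th s)
  have h2 : conj (g1 s) * g1 s + conj (g2 s) * g2 s =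
      ((du s 0 : ℂ) ^ 2 + (du s 1 : ℂ) ^ 2 + (du s 2 : ℂ) ^ 2 + (du s 3 : ℂ) ^ 2) *
        ((conj (ee (s 0 + th s)) / (2 * (mm s : ℂ))) * (ee (s 0 + th s) / (2 * (mm s : ℂ)))) := by
    rw [conj_g1, conj_g2, g1_eq, g2_eq]
    linear_combination (-((du s 1 : ℂ) ^ 2) - (du s 3 : ℂ) ^ 2) *
      ((conj (ee (s 0 + th s)) / (2 * (mm s : ℂ))) * (ee (s 0 + th s) / (2 * (mm s : ℂ)))) *
        Complex.I_sq
  rw [h2, h0, div_mul_div_comm, h1]
  field_simp
  ring

theorem fline (f : R3 → ℂ) (hf : ContDiff ℝ ∞ f) (s : R3) (k : Fin 3) (d : ℂ)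
    (h : HasDerivAt (fun t : ℝ => f (s + t • (Pi.single k 1 : R3))) d 0) :
    fderiv ℝ f s (Pi.single k 1) = d := by
  have h1 : HasFDerivAt f (fderiv ℝ f s) s := (hf.differentiable (by simp) s).hasFDerivAt
  have h2 : HasDerivAt (fun t : ℝ => s + t • (Pi.single k 1 : R3)) (Pi.single k 1) 0 := by
    have := ((hasDerivAt_id (0 : ℝ)).smul_const (Pi.single k 1 : R3)).const_add s
    simpa using this
  have h3 : HasDerivAt (fun t : ℝ => f (s + t • (Pi.single k 1 : R3)))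
      (fderiv ℝ f s (Pi.single k 1)) 0 := by
    have h1' : HasFDerivAt f (fderiv ℝ f s) (s + (0 : ℝ) • (Pi.single k 1 : R3)) := by
      rw [zero_smul, add_zero]; exact h1
    exact h1'.comp_hasDerivAt (0 : ℝ) h2
  exact h3.unique h

theorem dg_cos (x : ℝ) : HasDerivAt (fun t : ℝ => Real.cos (2 * Real.pi * (x + t)))
    (-(2 * Real.pi * Real.sin (2 * Real.pi * x))) 0 := by
  have h1 : HasDerivAt (fun t : ℝ => 2 * Real.pi * (x + t)) (2 * Real.pi) 0 := by
    have := ((hasDerivAt_id (0 : ℝ)).const_add x).const_mul (2 * Real.pi)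
    simpa using this
  have h2 := h1.cos
  have h3 : -Real.sin (2 * Real.pi * (x + 0)) * (2 * Real.pi) =
      -(2 * Real.pi * Real.sin (2 * Real.pi * x)) := by rw [add_zero]; ring
  rw [h3] at h2
  exact h2

/-- derivative of `ee (f t)` at zero -/
theorem dee (f : ℝ → ℝ) (d : ℝ) (hf : HasDerivAt f d 0) :
    HasDerivAt (fun t => ee (f t)) ((d : ℂ) * (2 * Real.pi * Complex.I * ee (f 0))) 0 := by
  have h1 := (hasDerivAt_ee (f 0)).scomp (0 : ℝ) hf
  rw [Complex.real_smul] at h1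
  exact h1

theorem alg0 (P P' E E' M a b e d J : ℂ) (hP : P' * P = 1) (hE : E' * E = 1)
    (hM : M ^ 2 = a ^ 2 + b ^ 2 + e ^ 2) (hJ : J ^ 2 = -1) :
    (P' * ((M - e) + (M + e) * E')) * ((1 + d) * (P * ((M - e) + (M + e) * E)) +
      P * ((M + e) * E)) +
    (P' * ((-J) * (a - b * J) * (1 - E'))) * ((1 + d) * (P * (J * (a + b * J) * (1 - E))) -
      P * (J * (a + b * J) * E)) = 4 * M ^ 2 * (1 + d) + 2 * M * (M + e) := by
  linear_combination (((M - e) + (M + e) * E') * ((1 + d) * ((M - e) + (M + e) * E) +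
      ((M + e) * E)) + ((-J) * (a - b * J) * (1 - E')) * ((1 + d) * (J * (a + b * J) * (1 - E)) -
      (J * (a + b * J) * E))) * hP +
    ((2 + d) * ((M + e) ^ 2 + (-J) * (a - b * J) * (J * (a + b * J)))) * hE +
    ((1 + d) * (2 - E - E') - E + 1) * (-a ^ 2 + b ^ 2 * (J ^ 2 - 1)) * hJ -
    ((1 + d) * (2 - E - E') - E + 1) * hM

/-- the derivative of the phase -/
noncomputable def dth (s : R3) : ℝ := 1 / 20 * (2 * Real.pi) *
  (-(m1 s * Real.sin (2 * Real.pi * s 0)) + m2 s * Real.cos (2 * Real.pi * s 0))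

/-- `⟨g, ∂_k g⟩` -/
noncomputable def AR (k : Fin 3) (s : R3) : ℂ :=
  conj (g1 s) * fderiv ℝ g1 s (Pi.single k 1) + conj (g2 s) * fderiv ℝ g2 s (Pi.single k 1)

theorem ar0 (s : R3) : AR 0 s = ((2 * Real.pi * (1 + dth s + (mm s + m3 s) / (2 * mm s)) : ℝ) : ℂ) *
    Complex.I := by
  have hM : (mm s : ℂ) ≠ 0 := by exact_mod_cast (mm_pos s).ne'
  have a0 : ∀ t : ℝ, (s + t • (Pi.single (0 : Fin 3) (1 : ℝ) : R3)) 0 = s 0 + t := by intro t; simp
  have a1 : ∀ t : ℝ, (s + t • (Pi.single (0 : Fin 3) (1 : ℝ) : R3)) 1 = s 1 := by intro t; simp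
  have a2 : ∀ t : ℝ, (s + t • (Pi.single (0 : Fin 3) (1 : ℝ) : R3)) 2 = s 2 := by intro t; simp
  have am1 : ∀ t : ℝ, m1 (s + t • (Pi.single (0 : Fin 3) (1 : ℝ) : R3)) = m1 s := by
    intro t; unfold m1; rw [a1]
  have am2 : ∀ t : ℝ, m2 (s + t • (Pi.single (0 : Fin 3) (1 : ℝ) : R3)) = m2 s := by
    intro t; unfold m2; rw [a2]
  have am3 : ∀ t : ℝ, m3 (s + t • (Pi.single (0 : Fin 3) (1 : ℝ) : R3)) = m3 s := by
    intro t; unfold m3; rw [a1, a2]
  have amm : ∀ t : ℝ, mm (s + t • (Pi.single (0 : Fin 3) (1 : ℝ) : R3)) = mm s := by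
    intro t; unfold mm; rw [am1, am2, am3]
  have ath : ∀ t : ℝ, th (s + t • (Pi.single (0 : Fin 3) (1 : ℝ) : R3)) =
      1 / 20 * (m1 s * Real.cos (2 * Real.pi * (s 0 + t)) +
        m2 s * Real.sin (2 * Real.pi * (s 0 + t))) := by
    intro t; unfold th; rw [am1, am2, a0]
  have hth : HasDerivAt (fun t : ℝ => (s 0 + t) + 1 / 20 * (m1 s * Real.cos (2 * Real.pi * (s 0 + t)) +
        m2 s * Real.sin (2 * Real.pi * (s 0 + t)))) (1 + dth s) 0 := by
    have h1 := ((hasDerivAt_id (0 : ℝ)).const_add (s 0)).add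
      ((((dg_cos (s 0)).const_mul (m1 s)).add ((dg_sin (s 0)).const_mul (m2 s))).const_mul (1 / 20))
    have h2 : (1 : ℝ) + 1 / 20 * (m1 s * -(2 * Real.pi * Real.sin (2 * Real.pi * s 0)) +
        m2 s * (2 * Real.pi * Real.cos (2 * Real.pi * s 0))) = 1 + dth s := by
      unfold dth; ring
    rw [h2] at h1
    exact h1
  have hP := dee _ _ hth
  have hE0 : HasDerivAt (fun t : ℝ => s 0 + t) 1 0 := (hasDerivAt_id (0 : ℝ)).const_add (s 0)
  have hE := dee _ _ hE0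
  have p0 : (s 0 + 0) + 1 / 20 * (m1 s * Real.cos (2 * Real.pi * (s 0 + 0)) +
        m2 s * Real.sin (2 * Real.pi * (s 0 + 0))) = s 0 + th s := by
    rw [add_zero]; rfl
  simp only [add_zero] at hE
  rw [p0] at hP
  -- first coordinate
  have f1 : (fun t : ℝ => g1 (s + t • (Pi.single (0 : Fin 3) (1 : ℝ) : R3))) = fun t : ℝ =>
      ee ((s 0 + t) + 1 / 20 * (m1 s * Real.cos (2 * Real.pi * (s 0 + t)) +
        m2 s * Real.sin (2 * Real.pi * (s 0 + t)))) *
        (((mm s - m3 s : ℝ) : ℂ) + ((mm s + m3 s : ℝ) : ℂ) * ee (s 0 + t)) / (2 * (mm s : ℂ)) := by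
    funext t
    unfold g1
    rw [ath, amm, am3, a0]
  have f2 : (fun t : ℝ => g2 (s + t • (Pi.single (0 : Fin 3) (1 : ℝ) : R3))) = fun t : ℝ =>
      ee ((s 0 + t) + 1 / 20 * (m1 s * Real.cos (2 * Real.pi * (s 0 + t)) +
        m2 s * Real.sin (2 * Real.pi * (s 0 + t)))) *
        (Complex.I * ((m1 s : ℂ) + m2 s * Complex.I) * (1 - ee (s 0 + t))) / (2 * (mm s : ℂ)) := by
    funext t
    unfold g2
    rw [ath, amm, am1, am2, a0]
  have d1 := ((hP.mul ((hE.const_mul ((mm s + m3 s : ℝ) : ℂ)).const_add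
    ((mm s - m3 s : ℝ) : ℂ))).div_const (2 * (mm s : ℂ)))
  have d2 := ((hP.mul ((hE.const_sub 1).const_mul
    (Complex.I * ((m1 s : ℂ) + m2 s * Complex.I)))).div_const (2 * (mm s : ℂ)))
  have c1 := fline g1 contDiff_g1 s 0 _ (by rw [f1]; exact d1)
  have c2 := fline g2 contDiff_g2 s 0 _ (by rw [f2]; exact d2)
  have k1 : conj (g1 s) = conj (ee (s 0 + th s)) * (((mm s : ℂ) - m3 s) +
      ((mm s : ℂ) + m3 s) * conj (ee (s 0))) / (2 * (mm s : ℂ)) := by
    unfold g1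
    simp only [map_mul, map_add, map_div₀, Complex.conj_ofReal, map_ofNat]
    push_cast
    ring
  have k2 : conj (g2 s) = conj (ee (s 0 + th s)) * ((-Complex.I) * ((m1 s : ℂ) - m2 s * Complex.I) *
      (1 - conj (ee (s 0)))) / (2 * (mm s : ℂ)) := by
    unfold g2
    simp only [map_mul, map_add, map_sub, map_one, map_div₀, Complex.conj_ofReal, Complex.conj_I, map_ofNat]
    ring
  have hM2 : (mm s : ℂ) ^ 2 = (m1 s : ℂ) ^ 2 + (m2 s : ℂ) ^ 2 + (m3 s : ℂ) ^ 2 := by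
    exact_mod_cast mm_sq s
  have key := alg0 (ee (s 0 + th s)) (conj (ee (s 0 + th s))) (ee (s 0)) (conj (ee (s 0)))
    (mm s) (m1 s) (m2 s) (m3 s) (dth s) Complex.I (ee_conj_mul _) (ee_conj_mul _) hM2 Complex.I_sq
  unfold AR
  rw [c1, c2, k1, k2, p0]
  simp only [add_zero]
  push_cast
  have fin : ∀ (T R : ℂ), T = R → (2 * Real.pi * Complex.I / (4 * (mm s : ℂ) ^ 2)) * T =
      (2 * Real.pi * Complex.I / (4 * (mm s : ℂ) ^ 2)) * R := by
    intro T R h
    rw [h]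
  have fin2 := fin _ _ key
  have fin3 : (2 * Real.pi * Complex.I / (4 * (mm s : ℂ) ^ 2)) *
      (4 * (mm s : ℂ) ^ 2 * (1 + (dth s : ℂ)) + 2 * (mm s : ℂ) * ((mm s : ℂ) + m3 s)) =
      2 * Real.pi * (1 + dth s + (mm s + m3 s) / (2 * mm s)) * Complex.I := by
    field_simp
    ring
  rw [fin3] at fin2
  rw [← fin2]
  ring

/-- the phase along a line at a point where only the phase moves -/
theorem arAux (s : R3) (k : Fin 3) (f : ℝ → ℝ) (d : ℝ) (C : ℝ → ℝ) (dC : ℝ)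
    (hf : HasDerivAt f d 0) (hf0 : f 0 = s 0 + th s)
    (hC : HasDerivAt C dC 0) (hdC : dC = 0) (hC0 : C 0 = 1) (h2 : g2 s = 0)
    (h1 : ∀ t : ℝ, g1 (s + t • (Pi.single k (1 : ℝ) : R3)) =
      ee (f t) * (((1 - C t : ℝ) : ℂ) + ((1 + C t : ℝ) : ℂ) * ee (s 0)) / (2 * ((1 : ℝ) : ℂ))) :
    AR k s = ((2 * Real.pi * d : ℝ) : ℂ) * Complex.I := by
  have hP := dee f d hf
  have hc1 : HasDerivAt (fun t => ((1 - C t : ℝ) : ℂ)) (((-dC : ℝ)) : ℂ) 0 :=
    (hC.const_sub 1).ofReal_comp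
  have hc2 : HasDerivAt (fun t => ((1 + C t : ℝ) : ℂ)) (((dC : ℝ)) : ℂ) 0 :=
    (hC.const_add 1).ofReal_comp
  have e := fline g1 contDiff_g1 s k _ (by
    rw [show (fun t : ℝ => g1 (s + t • (Pi.single k (1 : ℝ) : R3))) = _ from funext h1]
    exact ((hP.mul (hc1.add (hc2.mul_const (ee (s 0))))).div_const (2 * ((1 : ℝ) : ℂ))))
  have h0 := h1 0
  rw [zero_smul, add_zero, hC0, hf0] at h0
  have hu := unit_g s
  rw [h2, mul_zero, add_zero] at hu
  unfold AR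
  rw [e, h2, map_zero, zero_mul, add_zero, hdC]
  simp only [hC0, hf0, Pi.add_apply]
  have h0' : g1 s = ee (s 0 + th s) * ee (s 0) := by
    rw [h0]
    push_cast
    ring
  push_cast
  have : conj (g1 s) * ((d * (2 * Real.pi * Complex.I * ee (s 0 + th s)) *
      (1 - 1 + (1 + 1) * ee (s 0)) + ee (s 0 + th s) * (-0 + 0 * ee (s 0))) / (2 * 1)) =
      2 * Real.pi * d * Complex.I * (conj (g1 s) * (ee (s 0 + th s) * ee (s 0))) := by
    ring
  rw [this, ← h0', hu]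
  ring

theorem sin_of_cos {x : ℝ} (h : Real.cos x = 1) : Real.sin x = 0 := by
  have h1 := Real.sin_sq_add_cos_sq x
  rw [h] at h1
  exact pow_eq_zero_iff two_ne_zero |>.1 (by linarith)

theorem sp_vals {s : R3} (h1 : Real.cos (2 * Real.pi * s 1) = 1)
    (h2 : Real.cos (2 * Real.pi * s 2) = 1) : m1 s = 0 ∧ m2 s = 0 ∧ m3 s = 1 ∧ mm s = 1 ∧
      g2 s = 0 ∧ dth s = 0 := by
  have a1 : m1 s = 0 := sin_of_cos h1
  have a2 : m2 s = 0 := sin_of_cos h2
  have a3 : m3 s = 1 := by unfold m3; rw [h1, h2]; norm_num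
  have a4 : mm s = 1 := by unfold mm; rw [a1, a2, a3]; simp
  refine ⟨a1, a2, a3, a4, ?_, ?_⟩
  · unfold g2
    rw [a1, a2]
    simp
  · unfold dth
    rw [a1, a2]
    simp

theorem ar1 {s : R3} (h1 : Real.cos (2 * Real.pi * s 1) = 1)
    (h2 : Real.cos (2 * Real.pi * s 2) = 1) :
    AR 1 s = ((2 * Real.pi * (1 / 20 * (2 * Real.pi) * Real.cos (2 * Real.pi * s 0)) : ℝ) : ℂ) *
      Complex.I := by
  obtain ⟨a1, a2, a3, a4, a5, _⟩ := sp_vals h1 h2
  have b0 : ∀ t : ℝ, (s + t • (Pi.single (1 : Fin 3) (1 : ℝ) : R3)) 0 = s 0 := by intro t; simp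
  have b1 : ∀ t : ℝ, (s + t • (Pi.single (1 : Fin 3) (1 : ℝ) : R3)) 1 = s 1 + t := by intro t; simp
  have b2 : ∀ t : ℝ, (s + t • (Pi.single (1 : Fin 3) (1 : ℝ) : R3)) 2 = s 2 := by intro t; simp
  have bm1 : ∀ t : ℝ, m1 (s + t • (Pi.single (1 : Fin 3) (1 : ℝ) : R3)) =
      Real.sin (2 * Real.pi * (s 1 + t)) := by
    intro t; unfold m1; rw [b1]
  have bm2 : ∀ t : ℝ, m2 (s + t • (Pi.single (1 : Fin 3) (1 : ℝ) : R3)) = 0 := by
    intro t; unfold m2; rw [b2]; exact a2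
  have bm3 : ∀ t : ℝ, m3 (s + t • (Pi.single (1 : Fin 3) (1 : ℝ) : R3)) =
      Real.cos (2 * Real.pi * (s 1 + t)) := by
    intro t; unfold m3; rw [b1, b2, h2]; ring
  have bmm : ∀ t : ℝ, mm (s + t • (Pi.single (1 : Fin 3) (1 : ℝ) : R3)) = 1 := by
    intro t
    unfold mm
    rw [bm1, bm2, bm3]
    have := Real.sin_sq_add_cos_sq (2 * Real.pi * (s 1 + t))
    rw [show Real.sin (2 * Real.pi * (s 1 + t)) ^ 2 + (0 : ℝ) ^ 2 +
      Real.cos (2 * Real.pi * (s 1 + t)) ^ 2 = 1 by linarith, Real.sqrt_one]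
  have hf : HasDerivAt (fun t : ℝ => s 0 + 1 / 20 * (Real.sin (2 * Real.pi * (s 1 + t)) *
      Real.cos (2 * Real.pi * s 0))) (1 / 20 * (2 * Real.pi) * Real.cos (2 * Real.pi * s 0)) 0 := by
    have h3 := ((((dg_sin (s 1)).mul_const (Real.cos (2 * Real.pi * s 0))).const_mul (1 / 20)).const_add
      (s 0))
    rw [h1] at h3
    have h4 : (1 : ℝ) / 20 * (2 * Real.pi * 1 * Real.cos (2 * Real.pi * s 0)) =
      1 / 20 * (2 * Real.pi) * Real.cos (2 * Real.pi * s 0) := by ring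
    rw [h4] at h3
    exact h3
  refine arAux s 1 _ _ (fun t => Real.cos (2 * Real.pi * (s 1 + t))) _ hf ?_ (dg_cos (s 1)) ?_ ?_ a5 ?_
  · simp only [add_zero]
    unfold th
    rw [a1, a2, sin_of_cos h1]
    ring
  · rw [sin_of_cos h1]; ring
  · simp only [add_zero]; exact h1
  · intro t
    unfold g1 th
    rw [b0, bm1, bm2, bm3, bmm]
    congr 3
    congr 1
    ring

theorem ar2 {s : R3} (h1 : Real.cos (2 * Real.pi * s 1) = 1)
    (h2 : Real.cos (2 * Real.pi * s 2) = 1) :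
    AR 2 s = ((2 * Real.pi * (1 / 20 * (2 * Real.pi) * Real.sin (2 * Real.pi * s 0)) : ℝ) : ℂ) *
      Complex.I := by
  obtain ⟨a1, a2, a3, a4, a5, _⟩ := sp_vals h1 h2
  have b0 : ∀ t : ℝ, (s + t • (Pi.single (2 : Fin 3) (1 : ℝ) : R3)) 0 = s 0 := by intro t; simp
  have b1 : ∀ t : ℝ, (s + t • (Pi.single (2 : Fin 3) (1 : ℝ) : R3)) 1 = s 1 := by intro t; simp
  have b2 : ∀ t : ℝ, (s + t • (Pi.single (2 : Fin 3) (1 : ℝ) : R3)) 2 = s 2 + t := by intro t; simp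
  have bm1 : ∀ t : ℝ, m1 (s + t • (Pi.single (2 : Fin 3) (1 : ℝ) : R3)) = 0 := by
    intro t; unfold m1; rw [b1]; exact a1
  have bm2 : ∀ t : ℝ, m2 (s + t • (Pi.single (2 : Fin 3) (1 : ℝ) : R3)) =
      Real.sin (2 * Real.pi * (s 2 + t)) := by
    intro t; unfold m2; rw [b2]
  have bm3 : ∀ t : ℝ, m3 (s + t • (Pi.single (2 : Fin 3) (1 : ℝ) : R3)) =
      Real.cos (2 * Real.pi * (s 2 + t)) := by
    intro t; unfold m3; rw [b1, b2, h1]; ring
  have bmm : ∀ t : ℝ, mm (s + t • (Pi.single (2 : Fin 3) (1 : ℝ) : R3)) = 1 := by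
    intro t
    unfold mm
    rw [bm1, bm2, bm3]
    have := Real.sin_sq_add_cos_sq (2 * Real.pi * (s 2 + t))
    rw [show (0 : ℝ) ^ 2 + Real.sin (2 * Real.pi * (s 2 + t)) ^ 2 +
      Real.cos (2 * Real.pi * (s 2 + t)) ^ 2 = 1 by linarith, Real.sqrt_one]
  have hf : HasDerivAt (fun t : ℝ => s 0 + 1 / 20 * (Real.sin (2 * Real.pi * (s 2 + t)) *
      Real.sin (2 * Real.pi * s 0))) (1 / 20 * (2 * Real.pi) * Real.sin (2 * Real.pi * s 0)) 0 := by
    have h3 := ((((dg_sin (s 2)).mul_const (Real.sin (2 * Real.pi * s 0))).const_mul (1 / 20)).const_add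
      (s 0))
    rw [h2] at h3
    have h4 : (1 : ℝ) / 20 * (2 * Real.pi * 1 * Real.sin (2 * Real.pi * s 0)) =
      1 / 20 * (2 * Real.pi) * Real.sin (2 * Real.pi * s 0) := by ring
    rw [h4] at h3
    exact h3
  refine arAux s 2 _ _ (fun t => Real.cos (2 * Real.pi * (s 2 + t))) _ hf ?_ (dg_cos (s 2)) ?_ ?_ a5 ?_
  · simp only [add_zero]
    unfold th
    rw [a1, a2, sin_of_cos h2]
    ring
  · rw [sin_of_cos h2]; ring
  · simp only [add_zero]; exact h2
  · intro t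
    unfold g1 th
    rw [b0, bm1, bm2, bm3, bmm]
    congr 3
    congr 1
    ring

theorem ar0_sp {s : R3} (h1 : Real.cos (2 * Real.pi * s 1) = 1)
    (h2 : Real.cos (2 * Real.pi * s 2) = 1) : (AR 0 s).im = 4 * Real.pi := by
  obtain ⟨a1, a2, a3, a4, a5, a6⟩ := sp_vals h1 h2
  rw [ar0, a3, a4, a6, Complex.mul_im, Complex.ofReal_re, Complex.ofReal_im, Complex.I_re, Complex.I_im]
  ring

theorem ar0_pos (s : R3) : 0 < (AR 0 s).im := by
  rw [ar0, Complex.mul_im, Complex.ofReal_re, Complex.ofReal_im, Complex.I_re, Complex.I_im]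
  have hpi := Real.pi_pos
  have hpi2 := Real.pi_lt_d2
  have hM := mm_pos s
  have hd : -1 < dth s := by
    have e : |dth s| ≤ 1 / 20 * (2 * Real.pi) * 2 := by
      unfold dth
      rw [abs_mul, abs_of_pos (by positivity : (0 : ℝ) < 1 / 20 * (2 * Real.pi))]
      refine mul_le_mul_of_nonneg_left ?_ (by positivity)
      refine (abs_add_le _ _).trans ?_
      rw [abs_neg, abs_mul, abs_mul]
      have b1 : |m1 s| ≤ 1 := Real.abs_sin_le_one _
      have b2 : |m2 s| ≤ 1 := Real.abs_sin_le_one _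
      have b3 := Real.abs_sin_le_one (2 * Real.pi * s 0)
      have b4 := Real.abs_cos_le_one (2 * Real.pi * s 0)
      have c1 := mul_le_mul b1 b3 (abs_nonneg _) zero_le_one
      have c2 := mul_le_mul b2 b4 (abs_nonneg _) zero_le_one
      linarith
    have := (abs_le.1 e).1
    linarith
  have hm : 0 ≤ (mm s + m3 s) / (2 * mm s) := by
    apply div_nonneg _ (by linarith)
    have h1 := mm_sq s
    have h2 : |m3 s| ≤ mm s := by
      apply abs_le_of_sq_le_sq _ hM.le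
      nlinarith [sq_nonneg (m1 s), sq_nonneg (m2 s)]
    have := (abs_le.1 h2).1
    linarith
  have : 0 < 2 * Real.pi * (1 + dth s + (mm s + m3 s) / (2 * mm s)) :=
    mul_pos (by positivity) (by linarith)
  linarith

/-- injectivity, on `ℝ³` -/
theorem inj3 (s s' : R3) (e1 : s 1 = s' 1) (e2 : s 2 = s' 2) (h1 : g1 s = g1 s') (h2 : g2 s = g2 s')
    (r1 : (AR 1 s).im / (AR 0 s).im = (AR 1 s').im / (AR 0 s').im)
    (r2 : (AR 2 s).im / (AR 0 s).im = (AR 2 s').im / (AR 0 s').im) :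
    ∃ m : ℤ, s' 0 = s 0 + m := by
  rw [← ee_eq_iff]
  have em1 : m1 s' = m1 s := by unfold m1; rw [e1]
  have em2 : m2 s' = m2 s := by unfold m2; rw [e2]
  have em3 : m3 s' = m3 s := by unfold m3; rw [e1, e2]
  have emm : mm s' = mm s := by unfold mm; rw [em1, em2, em3]
  have hM := mm_pos s
  have hMC : (mm s : ℂ) ≠ 0 := by exact_mod_cast hM.ne'
  have hMC2 : (2 * (mm s : ℂ)) ≠ 0 := mul_ne_zero two_ne_zero hMC
  have hM2 := mm_sq s
  unfold g1 at h1
  unfold g2 at h2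
  rw [em3, emm, div_left_inj' hMC2] at h1
  rw [em1, em2, emm, div_left_inj' hMC2] at h2
  by_cases hz : m1 s = 0 ∧ m2 s = 0
  · obtain ⟨a1, a2⟩ := hz
    have t1 : th s = 0 := by unfold th; rw [a1, a2]; simp
    have t2 : th s' = 0 := by unfold th; rw [em1, em2, a1, a2]; simp
    have hM3 : (mm s - m3 s) * (mm s + m3 s) = 0 := by
      rw [a1, a2] at hM2
      linear_combination hM2
    rcases mul_eq_zero.1 hM3 with h | h
    · -- m3 > 0
      have hm3 : 0 < m3 s := by linarith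
      have c1 : Real.sin (2 * Real.pi * s 1) = 0 := a1
      have c2 : Real.sin (2 * Real.pi * s 2) = 0 := a2
      have hcc : Real.cos (2 * Real.pi * s 1) = 1 ∧ Real.cos (2 * Real.pi * s 2) = 1 := by
        unfold m3 at hm3
        rcases Pool.Agent.W400.LT.cs_one c1 with c | c <;>
          rcases Pool.Agent.W400.LT.cs_one c2 with d | d
        · exact ⟨c, d⟩
        · rw [c, d] at hm3; norm_num at hm3
        · rw [c, d] at hm3; norm_num at hm3
        · rw [c, d] at hm3; norm_num at hm3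
      obtain ⟨k1, k2⟩ := hcc
      have k1' := k1
      have k2' := k2
      rw [e1] at k1'
      rw [e2] at k2'
      have hpi := Real.pi_pos
      rw [ar1 k1 k2, ar1 k1' k2', ar0_sp k1 k2, ar0_sp k1' k2', div_left_inj' (by positivity)] at r1
      rw [ar2 k1 k2, ar2 k1' k2', ar0_sp k1 k2, ar0_sp k1' k2', div_left_inj' (by positivity)] at r2
      simp only [Complex.mul_im, Complex.ofReal_re, Complex.ofReal_im, Complex.I_re, Complex.I_im,
        mul_one, zero_mul, mul_zero, add_zero] at r1 r2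
      have hc : (2 * Real.pi * (1 / 20 * (2 * Real.pi))) ≠ 0 := by positivity
      have r1' : Real.cos (2 * Real.pi * s 0) = Real.cos (2 * Real.pi * s' 0) := by
        apply mul_left_cancel₀ hc
        linarith
      have r2' : Real.sin (2 * Real.pi * s 0) = Real.sin (2 * Real.pi * s' 0) := by
        apply mul_left_cancel₀ hc
        linarith
      rw [dg_ee, dg_ee, r1', r2']
    · have hm : m3 s = -mm s := by linarith
      rw [t1, t2, hm] at h1
      simp only [add_zero, sub_neg_eq_add, add_neg_cancel, Complex.ofReal_zero, zero_mul] at h1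
      have : ((mm s + mm s : ℝ) : ℂ) ≠ 0 := by
        exact_mod_cast (by linarith : (0 : ℝ) < mm s + mm s).ne'
      exact mul_right_cancel₀ this h1
  · have hzC : ((m1 s : ℂ) + m2 s * Complex.I) ≠ 0 := by
      intro h
      apply hz
      have h3 := congrArg Complex.re h
      have h4 := congrArg Complex.im h
      simp at h3 h4
      exact ⟨h3, h4⟩
    have hIz : Complex.I * ((m1 s : ℂ) + m2 s * Complex.I) ≠ 0 := mul_ne_zero Complex.I_ne_zero hzC
    push_cast at h1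
    generalize hP : ee (s 0 + th s) = P at *
    generalize hP' : ee (s' 0 + th s') = P' at *
    have hPne : P' ≠ 0 := by rw [← hP']; exact ee_ne _
    have q1 : P * (1 - ee (s 0)) = P' * (1 - ee (s' 0)) := by
      apply mul_left_cancel₀ hIz
      linear_combination h2
    have q2 : P = P' := by
      apply mul_left_cancel₀ hMC2
      linear_combination h1 + ((mm s : ℂ) + m3 s) * q1
    rw [q2] at q1
    have q3 := mul_left_cancel₀ hPne q1
    linear_combination -q3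

variable {κ : Type} [Fintype κ] [DecidableEq κ]

/-- `p3` as a continuous linear map -/
noncomputable def p3L (k0 k1 : κ) : (Fin 2 ⊕ κ → ℝ) →L[ℝ] R3 :=
  ContinuousLinearMap.pi ![ContinuousLinearMap.proj (R := ℝ) (φ := fun _ : Fin 2 ⊕ κ => ℝ) (Sum.inl 0),
    ContinuousLinearMap.proj (R := ℝ) (φ := fun _ : Fin 2 ⊕ κ => ℝ) (Sum.inr k0),
    ContinuousLinearMap.proj (R := ℝ) (φ := fun _ : Fin 2 ⊕ κ => ℝ) (Sum.inr k1)]

theorem p3_eq (k0 k1 : κ) (X : Fin 2 ⊕ κ → ℝ) : p3 k0 k1 X = p3L k0 k1 X := by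
  funext i
  fin_cases i <;> rfl

theorem fd_comp (f : R3 → ℂ) (hf : ContDiff ℝ ∞ f) (k0 k1 : κ) (X v : Fin 2 ⊕ κ → ℝ) :
    fderiv ℝ (fun X => f (p3 k0 k1 X)) X v = fderiv ℝ f (p3 k0 k1 X) (p3 k0 k1 v) := by
  have e : (fun X => f (p3 k0 k1 X)) = fun X => f (p3L k0 k1 X) := by
    funext X; rw [p3_eq]
  have h1 : HasFDerivAt f (fderiv ℝ f (p3L k0 k1 X)) (p3L k0 k1 X) :=
    (hf.differentiable (by simp) _).hasFDerivAt
  have h2 : HasFDerivAt (fun X => f (p3L k0 k1 X))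
      ((fderiv ℝ f (p3L k0 k1 X)).comp (p3L k0 k1)) X := h1.comp X (p3L k0 k1).hasFDerivAt
  rw [e, h2.fderiv, p3_eq, p3_eq]
  rfl

theorem aq_eq (k0 k1 : κ) (X v : Fin 2 ⊕ κ → ℝ) (k : Fin 3) (hv : p3 k0 k1 v = Pi.single k 1) :
    Aq (fun X => g1 (p3 k0 k1 X)) (fun X => g2 (p3 k0 k1 X)) v X = (AR k (p3 k0 k1 X)).im := by
  unfold Aq AR
  rw [fd_comp g1 contDiff_g1, fd_comp g2 contDiff_g2, hv]

theorem p3_dx (k0 k1 : κ) : p3 k0 k1 dx = Pi.single 0 1 := by
  funext i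
  fin_cases i <;> simp [p3, dx]

theorem p3_dy0 {k0 k1 : κ} (h : k0 ≠ k1) : p3 k0 k1 (dy k0) = Pi.single 1 1 := by
  funext i
  fin_cases i
  · simp [p3, dy]
  · simp [p3, dy]
  · simp [p3, dy, h.symm]

theorem p3_dy1 {k0 k1 : κ} (h : k0 ≠ k1) : p3 k0 k1 (dy k1) = Pi.single 2 1 := by
  funext i
  fin_cases i
  · simp [p3, dy]
  · simp [p3, dy, h]
  · simp [p3, dy]

end CVX

open DG CVX in
theorem t_CV : S_CV := by
  intro κ _ _ k0 k1 hk
  have hp3 : ContDiff ℝ ∞ (fun X : Fin 2 ⊕ κ → ℝ => p3 k0 k1 X) := by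
    have : (fun X : Fin 2 ⊕ κ → ℝ => p3 k0 k1 X) = p3L k0 k1 := by
      funext X; exact p3_eq k0 k1 X
    rw [this]
    exact (p3L k0 k1).contDiff
  refine ⟨contDiff_g1.comp hp3, contDiff_g2.comp hp3, fun X => unit_g _, ?_, ?_, ?_, ?_⟩
  · intro X X' h
    have : p3 k0 k1 X = p3 k0 k1 X' := by
      unfold p3
      rw [h (Sum.inl 0) (by simp), h (Sum.inr k0) (by simp), h (Sum.inr k1) (by simp)]
    simp only [this, and_self]
  · intro X m
    have : p3 k0 k1 (fun i => X i + m i) = fun k => p3 k0 k1 X k +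
        (![m (Sum.inl 0), m (Sum.inr k0), m (Sum.inr k1)] : Fin 3 → ℤ) k := by
      funext i
      fin_cases i <;> rfl
    simp only [this]
    exact ⟨Pool.Agent.W400.LT.per_vec per_g1 _ _, Pool.Agent.W400.LT.per_vec per_g2 _ _⟩
  · intro X
    rw [aq_eq k0 k1 X dx 0 (p3_dx k0 k1)]
    exact ar0_pos _
  · intro X X' hy h1 h2 hr
    have r1 := hr k0
    have r2 := hr k1
    rw [aq_eq k0 k1 X dx 0 (p3_dx k0 k1), aq_eq k0 k1 X' dx 0 (p3_dx k0 k1),
      aq_eq k0 k1 X (dy k0) 1 (p3_dy0 hk), aq_eq k0 k1 X' (dy k0) 1 (p3_dy0 hk)] at r1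
    rw [aq_eq k0 k1 X dx 0 (p3_dx k0 k1), aq_eq k0 k1 X' dx 0 (p3_dx k0 k1),
      aq_eq k0 k1 X (dy k1) 2 (p3_dy1 hk), aq_eq k0 k1 X' (dy k1) 2 (p3_dy1 hk)] at r2
    exact inj3 (p3 k0 k1 X) (p3 k0 k1 X') (hy k0) (hy k1) h1 h2 r1 r2

end Pool.Agent.Helper57.LT4
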