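import Pool.Agent.Helper57.LT4.Stm

/-!
# Piece DEG: the degree of the explicit family of curves
-/

set_option autoImplicit false

open scoped ContDiff Matrix ComplexConjugate
open Set Pool.Agent.W630.LT

namespace Pool.Agent.Helper57.LT4

namespace DG

theorem dg_ee (t : ℝ) : ee t = (Real.cos (2 * Real.pi * t) : ℂ) +
    (Real.sin (2 * Real.pi * t) : ℂ) * Complex.I := by
  unfold ee
  rw [show (2 * Real.pi * Complex.I * t : ℂ) = ((2 * Real.pi * t : ℝ) : ℂ) * Complex.I by
    push_cast; ring, Complex.exp_mul_I, Complex.ofReal_cos, Complex.ofReal_sin]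

theorem dg_pos (s : R3) : 0 < m1 s ^ 2 + m2 s ^ 2 + m3 s ^ 2 := by
  rcases (by positivity : 0 ≤ m1 s ^ 2 + m2 s ^ 2 + m3 s ^ 2).lt_or_eq with h | h
  · exact h
  · exfalso
    have a1 := sq_nonneg (m1 s)
    have a2 := sq_nonneg (m2 s)
    have a3 := sq_nonneg (m3 s)
    have h1 : m1 s = 0 := pow_eq_zero_iff two_ne_zero |>.1 (by linarith)
    have h2 : m2 s = 0 := pow_eq_zero_iff two_ne_zero |>.1 (by linarith)
    have h3 : m3 s = 0 := pow_eq_zero_iff two_ne_zero |>.1 (by linarith)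
    unfold m1 at h1
    unfold m2 at h2
    unfold m3 at h3
    rcases Pool.Agent.W400.LT.cs_one h1 with c | c <;>
      rcases Pool.Agent.W400.LT.cs_one h2 with d | d <;> (rw [c, d] at h3; norm_num at h3)

theorem mm_pos (s : R3) : 0 < mm s := Real.sqrt_pos.2 (dg_pos s)

theorem mm_sq (s : R3) : mm s ^ 2 = m1 s ^ 2 + m2 s ^ 2 + m3 s ^ 2 :=
  Real.sq_sqrt (dg_pos s).le

theorem contDiff_co (k : Fin 3) : ContDiff ℝ ∞ (fun s : R3 => 2 * Real.pi * s k) :=
  contDiff_const.mul (contDiff_apply ℝ ℝ k)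

theorem contDiff_m1 : ContDiff ℝ ∞ m1 := Real.contDiff_sin.comp (contDiff_co 1)

theorem contDiff_m2 : ContDiff ℝ ∞ m2 := Real.contDiff_sin.comp (contDiff_co 2)

theorem contDiff_m3 : ContDiff ℝ ∞ m3 :=
  ((Real.contDiff_cos.comp (contDiff_co 1)).add (Real.contDiff_cos.comp (contDiff_co 2))).sub
    contDiff_const

theorem contDiff_mm : ContDiff ℝ ∞ mm :=
  (((contDiff_m1.pow 2).add (contDiff_m2.pow 2)).add (contDiff_m3.pow 2)).sqrt
    fun s => (dg_pos s).ne'

theorem contDiff_th : ContDiff ℝ ∞ th :=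
  contDiff_const.mul ((contDiff_m1.mul (Real.contDiff_cos.comp (contDiff_co 0))).add
    (contDiff_m2.mul (Real.contDiff_sin.comp (contDiff_co 0))))

theorem per_cos (x : ℝ) : Real.cos (2 * Real.pi * (x + 1)) = Real.cos (2 * Real.pi * x) := by
  rw [mul_add, mul_one, Real.cos_add_two_pi]

theorem per_sin (x : ℝ) : Real.sin (2 * Real.pi * (x + 1)) = Real.sin (2 * Real.pi * x) := by
  rw [mul_add, mul_one, Real.sin_add_two_pi]

theorem per_m1 : Per m1 := by
  intro k s
  unfold m1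
  fin_cases k <;> simp [per_sin]

theorem per_m2 : Per m2 := by
  intro k s
  unfold m2
  fin_cases k <;> simp [per_sin]

theorem per_m3 : Per m3 := by
  intro k s
  unfold m3
  fin_cases k <;> simp [per_cos]

theorem per_mm : Per mm := by
  intro k s
  unfold mm
  rw [per_m1, per_m2, per_m3]

theorem per_c0 : Per (fun s : R3 => Real.cos (2 * Real.pi * s 0)) := by
  intro k s
  fin_cases k <;> simp [per_cos]

theorem per_s0 : Per (fun s : R3 => Real.sin (2 * Real.pi * s 0)) := by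
  intro k s
  fin_cases k <;> simp [per_sin]

theorem per_th : Per th := by
  intro k s
  unfold th
  have h1 := per_c0 k s
  have h2 := per_s0 k s
  simp only at h1 h2
  rw [per_m1, per_m2, h1, h2]

theorem per_ph : Per (fun s : R3 => ee (s 0 + th s)) := by
  intro k s
  simp only
  rw [per_th]
  have key : ∀ x : ℝ, ee (x + 1 + th s) = ee (x + th s) := by
    intro x
    have h2 := ee_add_int (x + th s) 1
    rw [← h2]
    congr 1
    push_cast
    ring
  fin_cases k
  · simp [key]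
  · simp
  · simp

theorem contDiff_ph : ContDiff ℝ ∞ (fun s : R3 => ee (s 0 + th s)) :=
  contDiff_ee.comp ((contDiff_apply ℝ ℝ (0 : Fin 3)).add contDiff_th)

/-- the map to `ℝ⁴` -/
noncomputable def du (s : R3) : Fin 4 → ℝ :=
  ![-(mm s - m3 s) - (mm s + m3 s) * Real.cos (2 * Real.pi * s 0),
    -((mm s + m3 s) * Real.sin (2 * Real.pi * s 0)),
    m1 s * Real.sin (2 * Real.pi * s 0) - m2 s * (1 - Real.cos (2 * Real.pi * s 0)),
    -(m1 s * (1 - Real.cos (2 * Real.pi * s 0))) - m2 s * Real.sin (2 * Real.pi * s 0)]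

theorem du0 (s : R3) : du s 0 = -(mm s - m3 s) - (mm s + m3 s) * Real.cos (2 * Real.pi * s 0) := rfl
theorem du1 (s : R3) : du s 1 = -((mm s + m3 s) * Real.sin (2 * Real.pi * s 0)) := rfl
theorem du2 (s : R3) : du s 2 = m1 s * Real.sin (2 * Real.pi * s 0) -
    m2 s * (1 - Real.cos (2 * Real.pi * s 0)) := rfl
theorem du3 (s : R3) : du s 3 = -(m1 s * (1 - Real.cos (2 * Real.pi * s 0))) -
    m2 s * Real.sin (2 * Real.pi * s 0) := rfl

theorem du_sq (s : R3) : du s 0 ^ 2 + du s 1 ^ 2 + du s 2 ^ 2 + du s 3 ^ 2 = 4 * mm s ^ 2 := by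
  have h1 := Real.sin_sq_add_cos_sq (2 * Real.pi * s 0)
  have h2 := mm_sq s
  rw [du0, du1, du2, du3]
  generalize Real.cos (2 * Real.pi * s 0) = c at *
  generalize Real.sin (2 * Real.pi * s 0) = d at *
  generalize mm s = M at *
  generalize m1 s = a at *
  generalize m2 s = b at *
  generalize m3 s = e at *
  linear_combination ((M + e) ^ 2 + a ^ 2 + b ^ 2) * h1 - 2 * (1 - c) * h2

theorem contDiff_du : ContDiff ℝ ∞ du := by
  rw [contDiff_pi]
  intro i
  have hc : ContDiff ℝ ∞ (fun s : R3 => Real.cos (2 * Real.pi * s 0)) :=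
    Real.contDiff_cos.comp (contDiff_co 0)
  have hs : ContDiff ℝ ∞ (fun s : R3 => Real.sin (2 * Real.pi * s 0)) :=
    Real.contDiff_sin.comp (contDiff_co 0)
  fin_cases i
  · exact (contDiff_mm.sub contDiff_m3).neg.sub ((contDiff_mm.add contDiff_m3).mul hc)
  · exact ((contDiff_mm.add contDiff_m3).mul hs).neg
  · exact (contDiff_m1.mul hs).sub (contDiff_m2.mul (contDiff_const.sub hc))
  · exact (contDiff_m1.mul (contDiff_const.sub hc)).neg.sub (contDiff_m2.mul hs)

theorem Vp_du : Vp du where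
  smooth := contDiff_du
  per := by
    intro k s
    have h1 := per_c0 k s
    have h2 := per_s0 k s
    simp only at h1 h2
    unfold du
    rw [per_m1, per_m2, per_m3, per_mm, h1, h2]
  ne := by
    intro s h0
    have h1 := du_sq s
    have h2 := mm_pos s
    rw [h0] at h1
    simp at h1
    exact h2.ne' h1

/-- the zeros -/
theorem du_zero {s : R3} (h0 : 0 < du s 0) (h1 : ∀ j : Fin 3, du s j.succ = 0) :
    Real.cos (2 * Real.pi * s 0) = -1 ∧ Real.sin (2 * Real.pi * s 0) = 0 ∧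
      m1 s = 0 ∧ m2 s = 0 ∧ m3 s = 1 ∧ mm s = 1 ∧ Real.cos (2 * Real.pi * s 1) = 1 ∧
      Real.cos (2 * Real.pi * s 2) = 1 := by
  have e1 : du s 1 = 0 := h1 0
  have e2 : du s 2 = 0 := h1 1
  have e3 : du s 3 = 0 := h1 2
  have hcs := Real.sin_sq_add_cos_sq (2 * Real.pi * s 0)
  have hM := mm_pos s
  have hM2 := mm_sq s
  have key : (m1 s ^ 2 + m2 s ^ 2) * (1 - Real.cos (2 * Real.pi * s 0)) = 0 := by
    have : du s 2 ^ 2 + du s 3 ^ 2 = 0 := by rw [e2, e3]; ring
    rw [du2, du3] at this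
    linear_combination (1 / 2) * this - (1 / 2) * (m1 s ^ 2 + m2 s ^ 2) * hcs
  rw [du0] at h0
  rw [du1] at e1
  have hm : m1 s ^ 2 + m2 s ^ 2 = 0 := by
    rcases mul_eq_zero.1 key with h | h
    · exact h
    · exfalso
      have : Real.cos (2 * Real.pi * s 0) = 1 := by linarith
      rw [this] at h0
      linarith
  have a1 := sq_nonneg (m1 s)
  have a2 := sq_nonneg (m2 s)
  have b1 : m1 s = 0 := pow_eq_zero_iff two_ne_zero |>.1 (by linarith)
  have b2 : m2 s = 0 := pow_eq_zero_iff two_ne_zero |>.1 (by linarith)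
  have c1 : Real.sin (2 * Real.pi * s 1) = 0 := b1
  have c2 : Real.sin (2 * Real.pi * s 2) = 0 := b2
  have hM3 : (mm s - m3 s) * (mm s + m3 s) = 0 := by
    rw [b1, b2] at hM2
    linear_combination hM2
  have hM3' : mm s = m3 s := by
    rcases mul_eq_zero.1 hM3 with h | h
    · linarith
    · exfalso
      rw [h] at h0
      linarith
  have b3 : m3 s = 1 ∧ Real.cos (2 * Real.pi * s 1) = 1 ∧ Real.cos (2 * Real.pi * s 2) = 1 := by
    have hp : 0 < m3 s := by rw [← hM3']; exact hM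
    unfold m3 at hp ⊢
    rcases Pool.Agent.W400.LT.cs_one c1 with c | c <;>
      rcases Pool.Agent.W400.LT.cs_one c2 with d | d
    · rw [c, d]; norm_num
    · rw [c, d] at hp; norm_num at hp
    · rw [c, d] at hp; norm_num at hp
    · rw [c, d] at hp; norm_num at hp
  have hM1 : mm s = 1 := hM3'.trans b3.1
  rw [hM1, b3.1] at h0 e1
  have hs : Real.sin (2 * Real.pi * s 0) = 0 := by linarith
  refine ⟨?_, hs, b1, b2, b3.1, hM1, b3.2.1, b3.2.2⟩
  rcases Pool.Agent.W400.LT.cs_one hs with c | c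
  · rw [c] at h0; norm_num at h0
  · exact c

/-- partial derivatives along lines -/
theorem du_line (s : R3) (k : Fin 3) (j : Fin 4) (d : ℝ)
    (h : HasDerivAt (fun t : ℝ => du (s + t • Pi.single k 1) j) d 0) :
    fderiv ℝ du s (Pi.single k 1) j = d := by
  have h1 : HasFDerivAt du (fderiv ℝ du s) s := (contDiff_du.differentiable (by simp) s).hasFDerivAt
  have h2 : HasDerivAt (fun t : ℝ => s + t • (Pi.single k 1 : R3)) (Pi.single k 1) 0 := by
    have := ((hasDerivAt_id (0 : ℝ)).smul_const (Pi.single k 1 : R3)).const_add s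
    simpa using this
  have h3 : HasDerivAt (fun t : ℝ => du (s + t • (Pi.single k 1 : R3)))
      (fderiv ℝ du s (Pi.single k 1)) 0 := by
    have h1' : HasFDerivAt du (fderiv ℝ du s) (s + (0 : ℝ) • (Pi.single k 1 : R3)) := by
      rw [zero_smul, add_zero]; exact h1
    exact h1'.comp_hasDerivAt (0 : ℝ) h2
  have h4 := (hasDerivAt_pi.1 h3) j
  exact h4.unique h

theorem dg_sin (x : ℝ) : HasDerivAt (fun t : ℝ => Real.sin (2 * Real.pi * (x + t)))
    (2 * Real.pi * Real.cos (2 * Real.pi * x)) 0 := by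
  have h1 : HasDerivAt (fun t : ℝ => 2 * Real.pi * (x + t)) (2 * Real.pi) 0 := by
    have := ((hasDerivAt_id (0 : ℝ)).const_add x).const_mul (2 * Real.pi)
    simpa using this
  have h2 := h1.sin
  convert h2 using 1
  rw [add_zero]
  ring

theorem jac_du {s : R3} (h0 : 0 < du s 0) (h1 : ∀ j : Fin 3, du s j.succ = 0) :
    Jac du s = !![4 * Real.pi, 0, 0; 0, 0, -(4 * Real.pi); 0, -(4 * Real.pi), 0] := by
  obtain ⟨z1, z2, z3, z4, z5, z6, z7, z8⟩ := du_zero h0 h1
  have hzero : HasDerivAt (fun _ : ℝ => (0 : ℝ)) 0 0 := hasDerivAt_const _ _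
  -- k = 0
  have a0 : ∀ t : ℝ, (s + t • (Pi.single (0 : Fin 3) (1 : ℝ) : R3)) 0 = s 0 + t := by intro t; simp
  have a1 : ∀ t : ℝ, (s + t • (Pi.single (0 : Fin 3) (1 : ℝ) : R3)) 1 = s 1 := by intro t; simp
  have a2 : ∀ t : ℝ, (s + t • (Pi.single (0 : Fin 3) (1 : ℝ) : R3)) 2 = s 2 := by intro t; simp
  have am1 : ∀ t : ℝ, m1 (s + t • (Pi.single (0 : Fin 3) (1 : ℝ) : R3)) = m1 s := by
    intro t; unfold m1; rw [a1]
  have am2 : ∀ t : ℝ, m2 (s + t • (Pi.single (0 : Fin 3) (1 : ℝ) : R3)) = m2 s := by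
    intro t; unfold m2; rw [a2]
  have am3 : ∀ t : ℝ, m3 (s + t • (Pi.single (0 : Fin 3) (1 : ℝ) : R3)) = m3 s := by
    intro t; unfold m3; rw [a1, a2]
  have amm : ∀ t : ℝ, mm (s + t • (Pi.single (0 : Fin 3) (1 : ℝ) : R3)) = mm s := by
    intro t; unfold mm; rw [am1, am2, am3]
  -- k = 1
  have b0 : ∀ t : ℝ, (s + t • (Pi.single (1 : Fin 3) (1 : ℝ) : R3)) 0 = s 0 := by intro t; simp
  have b1 : ∀ t : ℝ, (s + t • (Pi.single (1 : Fin 3) (1 : ℝ) : R3)) 1 = s 1 + t := by intro t; simp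
  have b2 : ∀ t : ℝ, (s + t • (Pi.single (1 : Fin 3) (1 : ℝ) : R3)) 2 = s 2 := by intro t; simp
  have bm2 : ∀ t : ℝ, m2 (s + t • (Pi.single (1 : Fin 3) (1 : ℝ) : R3)) = m2 s := by
    intro t; unfold m2; rw [b2]
  have bm1 : ∀ t : ℝ, m1 (s + t • (Pi.single (1 : Fin 3) (1 : ℝ) : R3)) =
      Real.sin (2 * Real.pi * (s 1 + t)) := by
    intro t; unfold m1; rw [b1]
  -- k = 2
  have c0 : ∀ t : ℝ, (s + t • (Pi.single (2 : Fin 3) (1 : ℝ) : R3)) 0 = s 0 := by intro t; simp
  have c1 : ∀ t : ℝ, (s + t • (Pi.single (2 : Fin 3) (1 : ℝ) : R3)) 1 = s 1 := by intro t; simp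
  have c2 : ∀ t : ℝ, (s + t • (Pi.single (2 : Fin 3) (1 : ℝ) : R3)) 2 = s 2 + t := by intro t; simp
  have cm1 : ∀ t : ℝ, m1 (s + t • (Pi.single (2 : Fin 3) (1 : ℝ) : R3)) = m1 s := by
    intro t; unfold m1; rw [c1]
  have cm2 : ∀ t : ℝ, m2 (s + t • (Pi.single (2 : Fin 3) (1 : ℝ) : R3)) =
      Real.sin (2 * Real.pi * (s 2 + t)) := by
    intro t; unfold m2; rw [c2]
  have e00 : fderiv ℝ du s (Pi.single 0 1) 1 = 4 * Real.pi := by
    apply du_line
    have : (fun t : ℝ => du (s + t • (Pi.single (0 : Fin 3) (1 : ℝ) : R3)) 1) =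
        fun t : ℝ => (-2) * Real.sin (2 * Real.pi * (s 0 + t)) := by
      funext t
      rw [du1, amm, am3, a0, z5, z6]
      ring
    rw [this]
    have h2 := (dg_sin (s 0)).const_mul (-2)
    rw [z1] at h2
    have h3 : (-2 : ℝ) * (2 * Real.pi * (-1)) = 4 * Real.pi := by ring
    rw [h3] at h2
    exact h2
  have e10 : fderiv ℝ du s (Pi.single 0 1) 2 = 0 := by
    apply du_line
    have : (fun t : ℝ => du (s + t • (Pi.single (0 : Fin 3) (1 : ℝ) : R3)) 2) = fun _ : ℝ => (0 : ℝ) := by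
      funext t
      rw [du2, am1, am2, z3, z4]
      ring
    rw [this]
    exact hzero
  have e20 : fderiv ℝ du s (Pi.single 0 1) 3 = 0 := by
    apply du_line
    have : (fun t : ℝ => du (s + t • (Pi.single (0 : Fin 3) (1 : ℝ) : R3)) 3) = fun _ : ℝ => (0 : ℝ) := by
      funext t
      rw [du3, am1, am2, z3, z4]
      ring
    rw [this]
    exact hzero
  have e01 : fderiv ℝ du s (Pi.single 1 1) 1 = 0 := by
    apply du_line
    have : (fun t : ℝ => du (s + t • (Pi.single (1 : Fin 3) (1 : ℝ) : R3)) 1) = fun _ : ℝ => (0 : ℝ) := by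
      funext t
      rw [du1, b0, z2]
      ring
    rw [this]
    exact hzero
  have e11 : fderiv ℝ du s (Pi.single 1 1) 2 = 0 := by
    apply du_line
    have : (fun t : ℝ => du (s + t • (Pi.single (1 : Fin 3) (1 : ℝ) : R3)) 2) = fun _ : ℝ => (0 : ℝ) := by
      funext t
      rw [du2, b0, bm2, z2, z4]
      ring
    rw [this]
    exact hzero
  have e21 : fderiv ℝ du s (Pi.single 1 1) 3 = -(4 * Real.pi) := by
    apply du_line
    have : (fun t : ℝ => du (s + t • (Pi.single (1 : Fin 3) (1 : ℝ) : R3)) 3) =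
        fun t : ℝ => (-2) * Real.sin (2 * Real.pi * (s 1 + t)) := by
      funext t
      rw [du3, b0, bm2, bm1, z2, z1, z4]
      ring
    rw [this]
    have h2 := (dg_sin (s 1)).const_mul (-2)
    rw [z7] at h2
    have h3 : (-2 : ℝ) * (2 * Real.pi * 1) = -(4 * Real.pi) := by ring
    rw [h3] at h2
    exact h2
  have e02 : fderiv ℝ du s (Pi.single 2 1) 1 = 0 := by
    apply du_line
    have : (fun t : ℝ => du (s + t • (Pi.single (2 : Fin 3) (1 : ℝ) : R3)) 1) = fun _ : ℝ => (0 : ℝ) := by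
      funext t
      rw [du1, c0, z2]
      ring
    rw [this]
    exact hzero
  have e12 : fderiv ℝ du s (Pi.single 2 1) 2 = -(4 * Real.pi) := by
    apply du_line
    have : (fun t : ℝ => du (s + t • (Pi.single (2 : Fin 3) (1 : ℝ) : R3)) 2) =
        fun t : ℝ => (-2) * Real.sin (2 * Real.pi * (s 2 + t)) := by
      funext t
      rw [du2, c0, cm1, cm2, z1, z3]
      ring
    rw [this]
    have h2 := (dg_sin (s 2)).const_mul (-2)
    rw [z8] at h2
    have h3 : (-2 : ℝ) * (2 * Real.pi * 1) = -(4 * Real.pi) := by ring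
    rw [h3] at h2
    exact h2
  have e22 : fderiv ℝ du s (Pi.single 2 1) 3 = 0 := by
    apply du_line
    have : (fun t : ℝ => du (s + t • (Pi.single (2 : Fin 3) (1 : ℝ) : R3)) 3) = fun _ : ℝ => (0 : ℝ) := by
      funext t
      rw [du3, c0, cm1, z2, z3]
      ring
    rw [this]
    exact hzero
  ext j k
  unfold Jac
  rw [Matrix.of_apply]
  fin_cases j <;> fin_cases k
  · exact e00
  · exact e01
  · exact e02
  · exact e10
  · exact e11
  · exact e12
  · exact e20
  · exact e21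
  · exact e22

theorem det_jac_du {s : R3} (h0 : 0 < du s 0) (h1 : ∀ j : Fin 3, du s j.succ = 0) :
    (Jac du s).det = -(64 * Real.pi ^ 3) := by
  rw [jac_du h0 h1, Matrix.det_fin_three]
  simp
  ring

/-- the zeros in the box -/
theorem du_box (s : R3) : ((∀ k, 0 ≤ s k ∧ s k < 1) ∧ 0 < du s 0 ∧ ∀ j : Fin 3, du s j.succ = 0) ↔
    s = ![1 / 2, 0, 0] := by
  have hpi := Real.pi_pos
  constructor
  · rintro ⟨hb, h0, h1⟩
    obtain ⟨z1, z2, z3, z4, z5, z6, z7, z8⟩ := du_zero h0 h1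
    have hz : ∀ k : Fin 3, Real.cos (2 * Real.pi * s k) = 1 → s k = 0 := by
      intro k hk
      rw [Real.cos_eq_one_iff] at hk
      obtain ⟨n, hn⟩ := hk
      have h5 : (n : ℝ) = s k := by
        have hpi : (2 * Real.pi) ≠ 0 := by positivity
        have : (2 * Real.pi) * (n : ℝ) = (2 * Real.pi) * s k := by linarith
        exact mul_left_cancel₀ hpi this
      obtain ⟨h6, h7⟩ := hb k
      rw [← h5] at h6 h7
      have h8 : (0 : ℤ) ≤ n := by exact_mod_cast h6
      have h9 : n < 1 := by exact_mod_cast h7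
      have : n = 0 := by omega
      rw [← h5, this]
      simp
    have h2 : s 0 = 1 / 2 := by
      have h3 : Real.cos (2 * Real.pi * s 0 - Real.pi) = 1 := by
        rw [Real.cos_sub_pi, z1]; norm_num
      rw [Real.cos_eq_one_iff] at h3
      obtain ⟨n, hn⟩ := h3
      have h5 : (n : ℝ) + 1 / 2 = s 0 := by
        have hpi : (2 * Real.pi) ≠ 0 := by positivity
        have : (2 * Real.pi) * ((n : ℝ) + 1 / 2) = (2 * Real.pi) * s 0 := by linarith
        exact mul_left_cancel₀ hpi this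
      obtain ⟨h6, h7⟩ := hb 0
      rw [← h5] at h6 h7
      have h8 : (-1 : ℤ) < n := by
        have : (-1 : ℝ) < (n : ℝ) := by linarith
        exact_mod_cast this
      have h9 : n < 1 := by
        have : (n : ℝ) < 1 := by linarith
        exact_mod_cast this
      have : n = 0 := by omega
      rw [← h5, this]
      simp
    funext k
    fin_cases k
    · exact h2
    · exact hz 1 z7
    · exact hz 2 z8
  · rintro rfl
    have y1 : m1 (![1 / 2, 0, 0] : R3) = 0 := by simp [m1]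
    have y2 : m2 (![1 / 2, 0, 0] : R3) = 0 := by simp [m2]
    have y3 : m3 (![1 / 2, 0, 0] : R3) = 1 := by simp [m3]
    have y4 : mm (![1 / 2, 0, 0] : R3) = 1 := by unfold mm; rw [y1, y2, y3]; simp
    have y5 : Real.cos (2 * Real.pi * (![1 / 2, 0, 0] : R3) 0) = -1 := by
      have : 2 * Real.pi * (![1 / 2, 0, 0] : R3) 0 = Real.pi := by simp; ring
      rw [this, Real.cos_pi]
    have y6 : Real.sin (2 * Real.pi * (![1 / 2, 0, 0] : R3) 0) = 0 := by
      have : 2 * Real.pi * (![1 / 2, 0, 0] : R3) 0 = Real.pi := by simp; ring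
      rw [this, Real.sin_pi]
    refine ⟨?_, ?_, ?_⟩
    · intro k
      fin_cases k <;> norm_num
    · rw [du0, y3, y4, y5]; norm_num
    · intro j
      fin_cases j
      · show du _ 1 = 0
        rw [du1, y6]; ring
      · show du _ 2 = 0
        rw [du2, y6, y1, y2]; ring
      · show du _ 3 = 0
        rw [du3, y6, y1, y2]; ring

/-- the diagonal factor -/
noncomputable def dD (s : R3) : Fin 2 → ℂ :=
  ![ee (s 0 + th s) / (2 * (mm s : ℂ)), conj (ee (s 0 + th s)) / (2 * (mm s : ℂ))]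

theorem g1_eq (s : R3) : g1 s = -((du s 0 : ℂ) + du s 1 * Complex.I) *
    (ee (s 0 + th s) / (2 * (mm s : ℂ))) := by
  unfold g1
  rw [dg_ee (s 0), du0, du1]
  push_cast
  ring

theorem g2_eq (s : R3) : g2 s = ((du s 2 : ℂ) - du s 3 * Complex.I) *
    (ee (s 0 + th s) / (2 * (mm s : ℂ))) := by
  unfold g2
  rw [dg_ee (s 0), du2, du3]
  push_cast
  linear_combination (ee (s 0 + th s) / (2 * (mm s : ℂ))) * (-((m1 s : ℂ) * Complex.sin (2 * Real.pi * s 0)) +
    (m2 s : ℂ) * (1 - Complex.cos (2 * Real.pi * s 0)) -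
    Complex.I * ((m2 s : ℂ) * Complex.sin (2 * Real.pi * s 0))) * Complex.I_sq

theorem conj_g1 (s : R3) : conj (g1 s) = -((du s 0 : ℂ) - du s 1 * Complex.I) *
    (conj (ee (s 0 + th s)) / (2 * (mm s : ℂ))) := by
  rw [g1_eq]
  simp only [map_mul, map_neg, map_add, map_div₀, Complex.conj_ofReal, Complex.conj_I, map_ofNat]
  ring

theorem conj_g2 (s : R3) : conj (g2 s) = ((du s 2 : ℂ) + du s 3 * Complex.I) *
    (conj (ee (s 0 + th s)) / (2 * (mm s : ℂ))) := by
  rw [g2_eq]
  simp only [map_mul, map_sub, map_div₀, Complex.conj_ofReal, Complex.conj_I, map_ofNat]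
  ring

theorem dg_mat (s : R3) : !![g1 s, -conj (g2 s); g2 s, conj (g1 s)] =
    ((-1 : Matrix (Fin 2) (Fin 2) ℂ) * QQ du s) * Matrix.diagonal (dD s) := by
  rw [conj_g1, conj_g2, g1_eq, g2_eq, neg_one_mul]
  ext i j
  rw [Matrix.mul_diagonal]
  fin_cases i <;> fin_cases j
  · simp [QQ, Q, dD]
  · simp [QQ, Q, dD]
    ring
  · simp [QQ, Q, dD]
    left
    ring
  · simp [QQ, Q, dD]

theorem Lp_dD : Lp (fun s => Matrix.diagonal (dD s)) where
  smooth := by
    have hm : ContDiff ℝ ∞ (fun s : R3 => (2 * (mm s : ℂ))) :=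
      contDiff_const.mul (Complex.ofRealCLM.contDiff.comp contDiff_mm)
    have hne : ∀ s : R3, (2 * (mm s : ℂ)) ≠ 0 := by
      intro s
      have := (mm_pos s).ne'
      simp [this]
    have h0 : ContDiff ℝ ∞ (fun s => dD s 0) := contDiff_ph.mul (hm.inv hne)
    have h1 : ContDiff ℝ ∞ (fun s => dD s 1) :=
      (Complex.conjCLE.contDiff.comp contDiff_ph).mul (hm.inv hne)
    intro i j
    fin_cases i <;> fin_cases j
    · simpa using h0
    · simpa using contDiff_const
    · simpa using contDiff_const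
    · simpa using h1
  per := by
    intro k s
    have h1 := per_ph k s
    simp only at h1
    have : dD (s + Pi.single k 1) = dD s := by
      unfold dD
      rw [h1, per_mm]
    simp only [this]
  inv := by
    intro s
    rw [Matrix.det_diagonal, Fin.prod_univ_two]
    have hm : (mm s : ℂ) ≠ 0 := by exact_mod_cast (mm_pos s).ne'
    have h1 := ee_ne (s 0 + th s)
    have h2 : conj (ee (s 0 + th s)) ≠ 0 := by
      rw [Ne, map_eq_zero]; exact h1
    exact mul_ne_zero (div_ne_zero h1 (mul_ne_zero two_ne_zero hm))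
      (div_ne_zero h2 (mul_ne_zero two_ne_zero hm))

end DG

open DG in
theorem t_DEG : S_DEG := by
  intro c hc
  have hC : (-1 : Matrix (Fin 2) (Fin 2) ℂ).det ≠ 0 := by
    rw [Matrix.det_neg, Matrix.det_one]; norm_num
  have hQ : Lp (QQ du) := Pool.Agent.W400.LT.Lp_QQ Vp_du
  have e : (fun s => !![g1 s, -conj (g2 s); g2 s, conj (g1 s)]) =
      fun s => ((-1 : Matrix (Fin 2) (Fin 2) ℂ) * QQ du s) * Matrix.diagonal (dD s) := by
    funext s; exact dg_mat s
  have h1 : W (fun s => !![g1 s, -conj (g2 s); g2 s, conj (g1 s)]) = W (QQ du) := by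
    rw [e, mul (Fin 2) (fun s => (-1 : Matrix (Fin 2) (Fin 2) ℂ) * QQ du s)
      (fun s => Matrix.diagonal (dD s)) ((Lp.const hC).mul hQ) Lp_dD, diag, add_zero]
    exact W_const_mul hQ.smooth hC
  rw [h1]
  right
  obtain ⟨Z, hZ, hW⟩ := hc du Vp_du (by
    intro s h0 h1
    rw [det_jac_du h0 h1]
    have := Real.pi_pos
    exact (neg_neg_of_pos (by positivity)).ne)
  have hZ1 : Z = {![1 / 2, 0, 0]} := by
    ext s
    rw [hZ, Finset.mem_singleton]
    exact du_box s
  obtain ⟨_, h0, h1⟩ := (du_box ![1 / 2, 0, 0]).2 rfl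
  rw [hW, hZ1, Finset.sum_singleton, det_jac_du h0 h1, sign_neg]
  · simp
  · have := Real.pi_pos
    exact neg_neg_of_pos (by positivity)

end Pool.Agent.Helper57.LT4
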