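import Pool.Agent.Helper57.LT4.Stm

/-!
# Piece EMB: for small `ε` the suspension of `zc` is an embedding
-/

set_option autoImplicit false

open scoped ContDiff Matrix ComplexConjugate Topology
open Set Filter Pool.Agent.W630.LT

namespace Pool.Agent.Helper57.LT4

section emb

variable {κ : Type} [Fintype κ] {c1 c2 : (Fin 2 ⊕ κ → ℝ) → ℂ}

theorem emb_fd_cont {f : (Fin 2 ⊕ κ → ℝ) → ℂ} (hf : ContDiff ℝ ∞ f) (v : Fin 2 ⊕ κ → ℝ) :
    Continuous (fun X => fderiv ℝ f X v) :=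
  (hf.continuous_fderiv (by simp)).clm_apply continuous_const

theorem emb_fd_per {E : Type*} [NormedAddCommGroup E] [NormedSpace ℝ E]
    {ι : Type} [Fintype ι] {f : (ι → ℝ) → E}
    (hf : ∀ (X : ι → ℝ) (m : ι → ℤ), f (fun i => X i + m i) = f X)
    (X : ι → ℝ) (m : ι → ℤ) : fderiv ℝ f (fun i => X i + m i) = fderiv ℝ f X := by
  have h1 : (fun y => f (y + fun i => (m i : ℝ))) = f := by
    funext y
    exact hf y m
  have h2 := fderiv_comp_add_right (𝕜 := ℝ) (f := f) (x := X) (fun i => (m i : ℝ))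
  rw [h1] at h2
  exact h2.symm

variable [DecidableEq κ]

theorem emb_Aq_cont (h : Cv c1 c2) (v : Fin 2 ⊕ κ → ℝ) : Continuous (Aq c1 c2 v) := by
  unfold Aq
  have e1 := emb_fd_cont h.s1 v
  have e2 := emb_fd_cont h.s2 v
  have e3 := h.s1.continuous
  have e4 := h.s2.continuous
  fun_prop

theorem emb_ee_cont : Continuous ee := contDiff_ee.continuous

theorem emb_bq_cont (h : Cv c1 c2) (v : Fin 2 ⊕ κ → ℝ) : Continuous (bq c1 c2 v) := by
  unfold bq Bq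
  have e1 := emb_fd_cont h.s1 v
  have e2 := emb_fd_cont h.s2 v
  have e3 := h.s1.continuous
  have e4 := h.s2.continuous
  have e5 := emb_ee_cont
  fun_prop

theorem emb_ro_cont (h : Cv c1 c2) :
    Continuous (fun p : ℝ × (Fin 2 ⊕ κ → ℝ) => ro c1 c2 p.1 p.2) := by
  unfold ro
  have e1 := emb_Aq_cont h dx
  have e2 := emb_bq_cont h dx
  have e3 : ∀ p : ℝ × (Fin 2 ⊕ κ → ℝ), Aq c1 c2 dx p.2 ≠ 0 := fun p => (h.pos p.2).ne'
  refine Continuous.div ?_ (e1.comp continuous_snd) e3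
  fun_prop

theorem emb_zc_cont (h : Cv c1 c2) :
    Continuous (fun p : ℝ × (Fin 2 ⊕ κ → ℝ) => zc c1 c2 p.1 p.2) := by
  have e1 := emb_ro_cont h
  have e3 := h.s1.continuous
  have e4 := h.s2.continuous
  have e5 := emb_ee_cont
  rw [continuous_pi_iff]
  intro i
  fin_cases i
  · simp only [zc, Fin.zero_eta, Fin.isValue, Matrix.cons_val_zero]
    fun_prop
  · simp only [zc, Fin.mk_one, Fin.isValue, Matrix.cons_val_one, Matrix.cons_val_zero]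
    fun_prop

/-- the moment in the direction `v` -/
noncomputable def Qm (c1 c2 : (Fin 2 ⊕ κ → ℝ) → ℂ) (v : Fin 2 ⊕ κ → ℝ) (ε : ℝ)
    (X : Fin 2 ⊕ κ → ℝ) : ℝ :=
  1 / 2 * ((ro c1 c2 ε X ^ 2 - ε ^ 2) * Aq c1 c2 v X + 2 * ro c1 c2 ε X * ε * bq c1 c2 v X)

theorem emb_Qm_cont (h : Cv c1 c2) (v : Fin 2 ⊕ κ → ℝ) :
    Continuous (fun p : ℝ × (Fin 2 ⊕ κ → ℝ) => Qm c1 c2 v p.1 p.2) := by
  unfold Qm
  have e1 := emb_Aq_cont h v
  have e2 := emb_bq_cont h v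
  have e3 := emb_ro_cont h
  fun_prop

theorem emb_Aq_per (h : Cv c1 c2) (v X : Fin 2 ⊕ κ → ℝ) (m : Fin 2 ⊕ κ → ℤ) :
    Aq c1 c2 v (fun i => X i + m i) = Aq c1 c2 v X := by
  unfold Aq
  rw [(h.per X m).1, (h.per X m).2, emb_fd_per (fun Y k => (h.per Y k).1) X m,
    emb_fd_per (fun Y k => (h.per Y k).2) X m]

theorem emb_bq_per (h : Cv c1 c2) (v X : Fin 2 ⊕ κ → ℝ) (m : Fin 2 ⊕ κ → ℤ) :
    bq c1 c2 v (fun i => X i + m i) = bq c1 c2 v X := by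
  unfold bq Bq
  rw [(h.per X m).1, (h.per X m).2, emb_fd_per (fun Y k => (h.per Y k).1) X m,
    emb_fd_per (fun Y k => (h.per Y k).2) X m, ee_add_int]

theorem emb_ro_per (h : Cv c1 c2) (ε : ℝ) (X : Fin 2 ⊕ κ → ℝ) (m : Fin 2 ⊕ κ → ℤ) :
    ro c1 c2 ε (fun i => X i + m i) = ro c1 c2 ε X := by
  unfold ro
  rw [emb_Aq_per h, emb_bq_per h]

theorem emb_zc_per (h : Cv c1 c2) (ε : ℝ) (X : Fin 2 ⊕ κ → ℝ) (m : Fin 2 ⊕ κ → ℤ) :
    zc c1 c2 ε (fun i => X i + m i) = zc c1 c2 ε X := by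
  unfold zc
  rw [emb_ro_per h, (h.per X m).1, (h.per X m).2, ee_add_int]

theorem emb_Qm_per (h : Cv c1 c2) (v : Fin 2 ⊕ κ → ℝ) (ε : ℝ) (X : Fin 2 ⊕ κ → ℝ)
    (m : Fin 2 ⊕ κ → ℤ) : Qm c1 c2 v ε (fun i => X i + m i) = Qm c1 c2 v ε X := by
  unfold Qm
  rw [emb_ro_per h, emb_Aq_per h, emb_bq_per h]

omit [DecidableEq κ] in
/-- a difference quotient along sequences -/
theorem emb_quot {f : (Fin 2 ⊕ κ → ℝ) → ℂ} (hf : ContDiff ℝ ∞ f) {X v : Fin 2 ⊕ κ → ℝ}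
    {x : ℕ → Fin 2 ⊕ κ → ℝ} {δ : ℕ → ℝ} (hx : Tendsto x atTop (𝓝 X))
    (hδ : Tendsto δ atTop (𝓝 0)) (hne : ∀ n, δ n ≠ 0) :
    Tendsto (fun n => (((δ n)⁻¹ : ℝ) : ℂ) * (f (x n + δ n • v) - f (x n))) atTop
      (𝓝 (fderiv ℝ f X v)) := by
  have h1 : HasStrictFDerivAt f (fderiv ℝ f X) X :=
    hf.contDiffAt.hasStrictFDerivAt (by simp)
  have h2 : Tendsto (fun n => (x n + δ n • v, x n)) atTop (𝓝 (X, X)) := by
    refine Tendsto.prodMk_nhds ?_ hx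
    have h3 : Tendsto (fun n => x n + δ n • v) atTop (𝓝 (X + (0 : ℝ) • v)) :=
      hx.add (hδ.smul tendsto_const_nhds)
    simpa using h3
  have h3 := h1.isLittleO.comp_tendsto h2
  have h4 : (fun n => f (x n + δ n • v) - f (x n) - fderiv ℝ f X (δ n • v)) =o[atTop] δ := by
    have h5 : ((fun p : (Fin 2 ⊕ κ → ℝ) × (Fin 2 ⊕ κ → ℝ) => p.1 - p.2) ∘
        fun n => (x n + δ n • v, x n)) =O[atTop] δ := by
      refine Asymptotics.IsBigO.of_bound ‖v‖ (Eventually.of_forall fun n => ?_)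
      simp only [Function.comp, add_sub_cancel_left, norm_smul]
      rw [mul_comm]
    have h6 := h3.trans_isBigO h5
    refine h6.congr_left fun n => ?_
    simp only [Function.comp, add_sub_cancel_left]
  have h5 := h4.tendsto_inv_smul_nhds_zero
  have h6 := h5.add_const (fderiv ℝ f X v)
  rw [zero_add] at h6
  refine h6.congr fun n => ?_
  rw [map_smul, smul_sub, smul_smul, inv_mul_cancel₀ (hne n), one_smul, Complex.real_smul]
  ring

omit [DecidableEq κ] in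
/-- the algebra of the product with `c` -/
theorem emb_alg (a1 a2 b1 b2 e e' : ℂ) (ρ ρ' ε d : ℝ)
    (hu : conj a1 * a1 + conj a2 * a2 = 1)
    (hz1 : (ρ : ℂ) * a1 - ε * e * conj a2 = ρ' * b1 - ε * e' * conj b2)
    (hz2 : (ρ : ℂ) * a2 + ε * e * conj a1 = ρ' * b2 + ε * e' * conj b1) :
    ρ' * (conj a1 * ((d : ℂ) * (b1 - a1)) + conj a2 * ((d : ℂ) * (b2 - a2))).im +
      ε * (e' * conj (a2 * ((d : ℂ) * (b1 - a1)) - a1 * ((d : ℂ) * (b2 - a2)))).im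
      = 0 := by
  have h1 : (ρ' : ℂ) * (conj a1 * ((d : ℂ) * (b1 - a1)) +
      conj a2 * ((d : ℂ) * (b2 - a2))) +
      ε * (e' * conj (a2 * ((d : ℂ) * (b1 - a1)) - a1 * ((d : ℂ) * (b2 - a2)))) =
      ((d * (ρ - ρ') : ℝ) : ℂ) := by
    simp only [map_sub, map_mul, Complex.conj_ofReal]
    push_cast
    linear_combination (-(d : ℂ) * conj a1) * hz1 + (-(d : ℂ) * conj a2) * hz2 +
      (d : ℂ) * (ρ - ρ') * hu
  have h2 := congrArg Complex.im h1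
  rw [Complex.add_im, Complex.im_ofReal_mul, Complex.im_ofReal_mul, Complex.ofReal_im] at h2
  exact h2

omit [DecidableEq κ] in
/-- the algebra of the case `ε = 0` -/
theorem emb_alg0 (a1 a2 b1 b2 : ℂ) (ρ ρ' : ℝ) (hρ : 0 < ρ) (hρ' : 0 < ρ')
    (ha : conj a1 * a1 + conj a2 * a2 = 1) (hb : conj b1 * b1 + conj b2 * b2 = 1)
    (hz1 : (ρ : ℂ) * a1 = ρ' * b1) (hz2 : (ρ : ℂ) * a2 = ρ' * b2) :
    ρ = ρ' ∧ a1 = b1 ∧ a2 = b2 := by
  have h1 : (ρ : ℂ) ^ 2 = (ρ' : ℂ) ^ 2 := by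
    have e1 := congrArg conj hz1
    have e2 := congrArg conj hz2
    simp only [map_mul, Complex.conj_ofReal] at e1 e2
    linear_combination -(ρ : ℂ) ^ 2 * ha + (ρ' : ℂ) ^ 2 * hb + ρ * a1 * e1 + ρ' * conj b1 * hz1 +
      ρ * a2 * e2 + ρ' * conj b2 * hz2
  have h2 : ρ ^ 2 = ρ' ^ 2 := by exact_mod_cast h1
  have h3 : ρ = ρ' := by
    rw [sq_eq_sq₀ hρ.le hρ'.le] at h2
    exact h2
  subst h3
  have h4 : (ρ : ℂ) ≠ 0 := by exact_mod_cast hρ.ne'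
  exact ⟨rfl, mul_left_cancel₀ h4 hz1, mul_left_cancel₀ h4 hz2⟩

/-- the case `ε = 0` -/
theorem emb_zero (h : Cv c1 c2) (hL : S_LAM) {X X' : Fin 2 ⊕ κ → ℝ}
    (hy : ∀ j, X (Sum.inr j) = X' (Sum.inr j)) (hz : zc c1 c2 0 X = zc c1 c2 0 X')
    (hq : ∀ j, Qm c1 c2 (dy j) 0 X = Qm c1 c2 (dy j) 0 X') :
    ∃ m : ℤ, X' (Sum.inl 0) = X (Sum.inl 0) + m := by
  obtain ⟨-, -, p1, q1, -, -⟩ := hL κ c1 c2 h 0 X 0
  obtain ⟨-, -, p2, q2, -, -⟩ := hL κ c1 c2 h 0 X' 0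
  have z1 := congrFun hz 0
  have z2 := congrFun hz 1
  simp only [zc, Fin.isValue, Matrix.cons_val_zero, Matrix.cons_val_one, Complex.ofReal_zero,
    zero_mul, sub_zero, add_zero] at z1 z2
  obtain ⟨e1, e2, e3⟩ := emb_alg0 _ _ _ _ _ _ p1 p2 (h.unit X) (h.unit X') z1 z2
  refine h.inj X X' hy e2 e3 fun j => ?_
  have h1 := hq j
  unfold Qm at h1
  rw [← e1] at h1 q2
  simp only [mul_zero, zero_mul, add_zero] at h1 q1 q2
  have a1 := h.pos X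
  have a2 := h.pos X'
  have hsq : 0 < ro c1 c2 0 X ^ 2 := by positivity
  have h2 : Aq c1 c2 dx X = Aq c1 c2 dx X' := by
    have : (ro c1 c2 0 X ^ 2 - 0 ^ 2) * (Aq c1 c2 dx X - Aq c1 c2 dx X') = 0 := by
      rw [mul_sub, q1, q2, sub_self]
    have h3 : ro c1 c2 0 X ^ 2 - 0 ^ 2 ≠ 0 := by
      rw [zero_pow two_ne_zero, sub_zero]
      exact hsq.ne'
    exact sub_eq_zero.1 ((mul_eq_zero.1 this).resolve_left h3)
  have h3 : Aq c1 c2 (dy j) X = Aq c1 c2 (dy j) X' := by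
    have : ro c1 c2 0 X ^ 2 * (Aq c1 c2 (dy j) X - Aq c1 c2 (dy j) X') = 0 := by
      linear_combination 2 * h1
    exact sub_eq_zero.1 ((mul_eq_zero.1 this).resolve_left hsq.ne')
  rw [h2, h3]

omit [Fintype κ] [DecidableEq κ] in
/-- a shift by integers into a compact set -/
theorem emb_norm (X X' : Fin 2 ⊕ κ → ℝ) (hy : ∀ j, X (Sum.inr j) = X' (Sum.inr j)) :
    ∃ m m' : Fin 2 ⊕ κ → ℤ,
      (fun i => X i + m i) ∈ Icc (-1 : Fin 2 ⊕ κ → ℝ) 2 ∧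
      (fun i => X' i + m' i) ∈ Icc (-1 : Fin 2 ⊕ κ → ℝ) 2 ∧
      (∀ j, X (Sum.inr j) + m (Sum.inr j) = X' (Sum.inr j) + m' (Sum.inr j)) ∧
      |(X' (Sum.inl 0) + m' (Sum.inl 0)) - (X (Sum.inl 0) + m (Sum.inl 0))| ≤ 1 / 2 := by
  have hb : ∀ i, |(X' i - X i) - round (X' i - X i)| ≤ 1 / 2 := fun i => abs_sub_round _
  have hf : ∀ i, 0 ≤ X i - ⌊X i⌋ ∧ X i - ⌊X i⌋ ≤ 1 := fun i =>
    ⟨by linarith [Int.floor_le (X i)], by linarith [Int.lt_floor_add_one (X i)]⟩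
  refine ⟨fun i => -⌊X i⌋, fun i => -⌊X i⌋ - round (X' i - X i), ?_, ?_, ?_, ?_⟩
  · constructor
    · intro i
      have := hf i
      simp only [Pi.neg_apply, Pi.one_apply, Int.cast_neg]
      linarith
    · intro i
      have := hf i
      simp only [Pi.ofNat_apply, Int.cast_neg]
      linarith
  · constructor
    · intro i
      have := hf i
      have h2 := abs_le.1 (hb i)
      simp only [Pi.neg_apply, Pi.one_apply, Int.cast_neg, Int.cast_sub]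
      linarith [h2.1, h2.2]
    · intro i
      have := hf i
      have h2 := abs_le.1 (hb i)
      simp only [Pi.ofNat_apply, Int.cast_neg, Int.cast_sub]
      linarith [h2.1, h2.2]
  · intro j
    have h5 : X' (Sum.inr j) - X (Sum.inr j) = 0 := by rw [hy j, sub_self]
    beta_reduce
    rw [h5, round_zero, sub_zero, hy j]
  · have h2 := hb (Sum.inl 0)
    have h3 : (X' (Sum.inl 0) + ((-⌊X (Sum.inl 0)⌋ - round (X' (Sum.inl 0) - X (Sum.inl 0)) : ℤ) : ℝ)) -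
        (X (Sum.inl 0) + ((-⌊X (Sum.inl 0)⌋ : ℤ) : ℝ)) =
        (X' (Sum.inl 0) - X (Sum.inl 0)) - round (X' (Sum.inl 0) - X (Sum.inl 0)) := by
      push_cast
      ring
    rw [h3]
    exact h2

/-- the main lemma -/
theorem emb_key (h : Cv c1 c2) (hL : S_LAM) : ∃ ε₀ : ℝ, 0 < ε₀ ∧ ∀ ε : ℝ, 0 < ε → ε < ε₀ →
    ∀ X X' : Fin 2 ⊕ κ → ℝ, (∀ j, X (Sum.inr j) = X' (Sum.inr j)) →
      zc c1 c2 ε X = zc c1 c2 ε X' → (∀ j, Qm c1 c2 (dy j) ε X = Qm c1 c2 (dy j) ε X') →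
      ∃ m : ℤ, X' (Sum.inl 0) = X (Sum.inl 0) + m := by
  by_contra hcon
  push Not at hcon
  have h1 : ∀ n : ℕ, ∃ ε : ℝ, 0 < ε ∧ ε < 1 / ((n : ℝ) + 1) ∧ ∃ x x' : Fin 2 ⊕ κ → ℝ,
      x ∈ Icc (-1 : Fin 2 ⊕ κ → ℝ) 2 ∧ x' ∈ Icc (-1 : Fin 2 ⊕ κ → ℝ) 2 ∧
      (∀ j, x (Sum.inr j) = x' (Sum.inr j)) ∧ |x' (Sum.inl 0) - x (Sum.inl 0)| ≤ 1 / 2 ∧
      zc c1 c2 ε x = zc c1 c2 ε x' ∧ (∀ j, Qm c1 c2 (dy j) ε x = Qm c1 c2 (dy j) ε x') ∧
      x' (Sum.inl 0) - x (Sum.inl 0) ≠ 0 := by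
    intro n
    obtain ⟨ε, h0, h1, X, X', hy, hz, hq, hm⟩ := hcon (1 / ((n : ℝ) + 1)) (by positivity)
    obtain ⟨m, m', b1, b2, b3, b4⟩ := emb_norm X X' hy
    refine ⟨ε, h0, h1, fun i => X i + m i, fun i => X' i + m' i, b1, b2, b3, b4, ?_, ?_, ?_⟩
    · rw [emb_zc_per h, emb_zc_per h, hz]
    · intro j
      rw [emb_Qm_per h, emb_Qm_per h, hq]
    · intro h4
      apply hm (m (Sum.inl 0) - m' (Sum.inl 0))
      push_cast
      simp only at h4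
      linarith
  choose ε hε0 hε1 x x' hx hx' hy hd hz hq hne using h1
  have hεt : Tendsto ε atTop (𝓝 0) := by
    refine squeeze_zero (fun n => (hε0 n).le) (fun n => (hε1 n).le) ?_
    exact tendsto_one_div_add_atTop_nhds_zero_nat
  have hK : IsCompact ((Icc (-1 : Fin 2 ⊕ κ → ℝ) 2) ×ˢ (Icc (-1 : Fin 2 ⊕ κ → ℝ) 2)) :=
    isCompact_Icc.prod isCompact_Icc
  obtain ⟨⟨X, X'⟩, -, φ, hφ, hlim⟩ := hK.tendsto_subseq (x := fun n => (x n, x' n))
    (fun n => ⟨hx n, hx' n⟩)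
  have hφt := hφ.tendsto_atTop
  have l0 : Tendsto (fun n => ε (φ n)) atTop (𝓝 0) := hεt.comp hφt
  have l1 : Tendsto (fun n => x (φ n)) atTop (𝓝 X) := (continuous_fst.tendsto _).comp hlim
  have l2 : Tendsto (fun n => x' (φ n)) atTop (𝓝 X') := (continuous_snd.tendsto _).comp hlim
  have c1' : ∀ i, Tendsto (fun n => x (φ n) i) atTop (𝓝 (X i)) := fun i =>
    ((continuous_apply i).tendsto _).comp l1
  have c2' : ∀ i, Tendsto (fun n => x' (φ n) i) atTop (𝓝 (X' i)) := fun i =>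
    ((continuous_apply i).tendsto _).comp l2
  have ly : ∀ j, X (Sum.inr j) = X' (Sum.inr j) := fun j =>
    tendsto_nhds_unique ((c1' (Sum.inr j)).congr fun n => hy (φ n) j) (c2' (Sum.inr j))
  have p1 : Tendsto (fun n => (ε (φ n), x (φ n))) atTop (𝓝 (0, X)) := l0.prodMk_nhds l1
  have p2 : Tendsto (fun n => (ε (φ n), x' (φ n))) atTop (𝓝 (0, X')) := l0.prodMk_nhds l2
  have lz : zc c1 c2 0 X = zc c1 c2 0 X' := by
    have e1 := ((emb_zc_cont h).tendsto (0, X)).comp p1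
    have e2 := ((emb_zc_cont h).tendsto (0, X')).comp p2
    exact tendsto_nhds_unique (e1.congr fun n => hz (φ n)) e2
  have lq : ∀ j, Qm c1 c2 (dy j) 0 X = Qm c1 c2 (dy j) 0 X' := by
    intro j
    have e1 := ((emb_Qm_cont h (dy j)).tendsto (0, X)).comp p1
    have e2 := ((emb_Qm_cont h (dy j)).tendsto (0, X')).comp p2
    exact tendsto_nhds_unique (e1.congr fun n => hq (φ n) j) e2
  obtain ⟨m, hm⟩ := emb_zero h hL ly lz lq
  set δ : ℕ → ℝ := fun n => x' (φ n) (Sum.inl 0) - x (φ n) (Sum.inl 0) with hδdef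
  have lδ : Tendsto δ atTop (𝓝 (X' (Sum.inl 0) - X (Sum.inl 0))) :=
    (c2' (Sum.inl 0)).sub (c1' (Sum.inl 0))
  have hm0 : (m : ℝ) = 0 := by
    have h2 : |X' (Sum.inl 0) - X (Sum.inl 0)| ≤ 1 / 2 :=
      le_of_tendsto lδ.abs (Eventually.of_forall fun n => hd (φ n))
    rw [hm, add_sub_cancel_left] at h2
    have h3 : |m| < 1 := by
      have : (|m| : ℝ) < 1 := by linarith
      exact_mod_cast this
    have h4 : m = 0 := Int.abs_lt_one_iff.1 h3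
    rw [h4, Int.cast_zero]
  rw [hm, hm0, add_zero, sub_self] at lδ
  have hδne : ∀ n, δ n ≠ 0 := fun n => hne (φ n)
  have q1 := emb_quot h.s1 (v := dx) l1 lδ hδne
  have q2 := emb_quot h.s2 (v := dx) l1 lδ hδne
  have hshift : ∀ n, c1 (x (φ n) + δ n • dx) = c1 (x' (φ n)) ∧
      c2 (x (φ n) + δ n • dx) = c2 (x' (φ n)) := by
    intro n
    apply h.indep
    intro i hi
    rcases i with l | j
    · fin_cases l
      · simp [dx, hδdef]
      · exact absurd rfl hi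
    · simp [dx, hy (φ n) j]
  have s1 : Tendsto (fun n => c1 (x (φ n))) atTop (𝓝 (c1 X)) :=
    (h.s1.continuous.tendsto X).comp l1
  have s2 : Tendsto (fun n => c2 (x (φ n))) atTop (𝓝 (c2 X)) :=
    (h.s2.continuous.tendsto X).comp l1
  have s3 : Tendsto (fun n => ee (x' (φ n) (Sum.inl 1))) atTop (𝓝 (ee (X' (Sum.inl 1)))) :=
    (emb_ee_cont.tendsto _).comp (c2' (Sum.inl 1))
  have s4 : Tendsto (fun n => ro c1 c2 (ε (φ n)) (x' (φ n))) atTop (𝓝 (ro c1 c2 0 X')) :=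
    ((emb_ro_cont h).tendsto (0, X')).comp p2
  have cc : ∀ {u : ℕ → ℂ} {a : ℂ}, Tendsto u atTop (𝓝 a) →
      Tendsto (fun n => conj (u n)) atTop (𝓝 (conj a)) := fun hu =>
    (Complex.continuous_conj.tendsto _).comp hu
  have ci : ∀ {u : ℕ → ℂ} {a : ℂ}, Tendsto u atTop (𝓝 a) →
      Tendsto (fun n => (u n).im) atTop (𝓝 a.im) := fun hu =>
    (Complex.continuous_im.tendsto _).comp hu
  have t1 := ci (((cc s1).mul q1).add ((cc s2).mul q2))
  have t2 := ci (s3.mul (cc ((s2.mul q1).sub (s1.mul q2))))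
  have t3 := (s4.mul t1).add (l0.mul t2)
  have t4 : ∀ n, ro c1 c2 (ε (φ n)) (x' (φ n)) *
      (conj (c1 (x (φ n))) * (((δ n)⁻¹ : ℝ) * (c1 (x (φ n) + δ n • dx) - c1 (x (φ n)))) +
        conj (c2 (x (φ n))) * (((δ n)⁻¹ : ℝ) * (c2 (x (φ n) + δ n • dx) - c2 (x (φ n))))).im +
      ε (φ n) * (ee (x' (φ n) (Sum.inl 1)) *
        conj (c2 (x (φ n)) * (((δ n)⁻¹ : ℝ) * (c1 (x (φ n) + δ n • dx) - c1 (x (φ n)))) -
          c1 (x (φ n)) * (((δ n)⁻¹ : ℝ) * (c2 (x (φ n) + δ n • dx) - c2 (x (φ n)))))).im = 0 := by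
    intro n
    rw [(hshift n).1, (hshift n).2]
    have z1 := congrFun (hz (φ n)) 0
    have z2 := congrFun (hz (φ n)) 1
    simp only [zc, Fin.isValue, Matrix.cons_val_zero, Matrix.cons_val_one] at z1 z2
    exact emb_alg _ _ _ _ _ _ _ _ _ _ (h.unit _) z1 z2
  have t5 := tendsto_nhds_unique (t3.congr t4) tendsto_const_nhds
  rw [zero_mul, add_zero] at t5
  obtain ⟨-, -, r1, -, -, -⟩ := hL κ c1 c2 h 0 X' 0
  have r2 := h.pos X
  unfold Aq at r2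
  exact absurd t5 (mul_pos r1 r2).ne'

/-- periodicity of the suspension -/
theorem emb_FS_per {z : (Fin 2 ⊕ κ → ℝ) → (Fin 2 → ℂ)}
    (hz : ∀ (X : Fin 2 ⊕ κ → ℝ) (m : Fin 2 ⊕ κ → ℤ), z (fun i => X i + m i) = z X) (C : ℝ)
    (X : Fin 2 ⊕ κ → ℝ) (m : Fin 2 ⊕ κ → ℤ) : FS z C (fun i => X i + m i) = FS z C X := by
  have hq : ∀ j, qq z j (fun i => X i + m i) = qq z j X := by
    intro j
    unfold qq
    rw [hz, emb_fd_per hz]
  ext i
  rcases i with l | j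
  · exact congrFun (hz X m) l
  · change (rr z C j (fun i => X i + m i) : ℂ) * ee (X (Sum.inr j) + m (Sum.inr j)) =
      (rr z C j X : ℂ) * ee (X (Sum.inr j))
    rw [ee_add_int]
    unfold rr
    rw [hq]

/-- the last angle -/
theorem emb_last (h : Cv c1 c2) {ε : ℝ} (hε : 0 < ε) {X X' : Fin 2 ⊕ κ → ℝ}
    (hz : zc c1 c2 ε X = zc c1 c2 ε X') (e1 : c1 X = c1 X') (e2 : c2 X = c2 X') :
    ∃ m : ℤ, X' (Sum.inl 1) = X (Sum.inl 1) + m := by
  apply (ee_eq_iff _ _).1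
  have z1 := congrFun hz 0
  have z2 := congrFun hz 1
  simp only [zc, Fin.isValue, Matrix.cons_val_zero, Matrix.cons_val_one] at z1 z2
  rw [← e1, ← e2] at z1 z2
  have hε' : (ε : ℂ) ≠ 0 := by exact_mod_cast hε.ne'
  apply mul_left_cancel₀ hε'
  have hu := h.unit X
  linear_combination (-(c2 X)) * z1 + c1 X * z2 - (ε : ℂ) * ee (X (Sum.inl 1)) * hu +
    (ε : ℂ) * ee (X' (Sum.inl 1)) * hu

/-- EMB -/
theorem emb' (hL : S_LAM) (h : Cv c1 c2) : ∃ ε₀ : ℝ, 0 < ε₀ ∧ ∀ ε : ℝ, 0 < ε → ε < ε₀ →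
    ∀ C : ℝ, Fam (zc c1 c2 ε) C → LagEmb (FS (zc c1 c2 ε) C) := by
  obtain ⟨ε₀, h0, hkey⟩ := emb_key h hL
  refine ⟨ε₀, h0, fun ε h1 h2 C hF => ?_⟩
  have hper := emb_FS_per (emb_zc_per h ε) C
  have hqq : ∀ j X, qq (zc c1 c2 ε) j X = Qm c1 c2 (dy j) ε X := by
    intro j X
    obtain ⟨-, -, -, -, -, h6⟩ := hL κ c1 c2 h ε X (dy j)
    unfold qq
    have h7 : dy j (Sum.inl 1) = 0 := by simp [dy]
    change lam (zc c1 c2 ε X) (fderiv ℝ (zc c1 c2 ε) X (dy j)) = _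
    rw [h6, h7, mul_zero, add_zero]
    rfl
  refine ⟨contDiff_FS hF, fun X X' => ⟨fun hXX => ?_, ?_⟩, immersion_FS hF, omega_FS hF⟩
  · have g0 : ∀ j, rr (zc c1 c2 ε) C j X = rr (zc c1 c2 ε) C j X' ∧
        ee (X (Sum.inr j)) = ee (X' (Sum.inr j)) := by
      intro j
      have h2 : (rr (zc c1 c2 ε) C j X : ℂ) * ee (X (Sum.inr j)) =
        (rr (zc c1 c2 ε) C j X' : ℂ) * ee (X' (Sum.inr j)) := congrFun hXX (Sum.inr j)
      have h3 : rr (zc c1 c2 ε) C j X = rr (zc c1 c2 ε) C j X' := by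
        have h4 := congrArg norm h2
        rw [norm_mul, norm_mul, norm_ee, norm_ee, mul_one, mul_one, Complex.norm_real,
          Complex.norm_real, Real.norm_of_nonneg (rr_pos hF j X).le,
          Real.norm_of_nonneg (rr_pos hF j X').le] at h4
        exact h4
      refine ⟨h3, ?_⟩
      rw [h3] at h2
      apply mul_left_cancel₀ _ h2
      exact_mod_cast (rr_pos hF j X').ne'
    have g1 : ∀ j, ∃ m : ℤ, X' (Sum.inr j) = X (Sum.inr j) + m := fun j =>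
      (ee_eq_iff _ _).1 (g0 j).2
    choose m hm using g1
    -- shift `X`
    set Y : Fin 2 ⊕ κ → ℝ := fun i => X i + (Sum.elim (fun _ => 0) m : Fin 2 ⊕ κ → ℤ) i with hY
    have gY : zc c1 c2 ε Y = zc c1 c2 ε X := emb_zc_per h ε X _
    have gQ : ∀ j, Qm c1 c2 (dy j) ε Y = Qm c1 c2 (dy j) ε X := fun j =>
      emb_Qm_per h (dy j) ε X _
    have hyy : ∀ j, Y (Sum.inr j) = X' (Sum.inr j) := fun j => (hm j).symm
    have hz : zc c1 c2 ε Y = zc c1 c2 ε X' := by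
      rw [gY]
      ext l
      exact congrFun hXX (Sum.inl l)
    have hq : ∀ j, Qm c1 c2 (dy j) ε Y = Qm c1 c2 (dy j) ε X' := by
      intro j
      rw [gQ, ← hqq, ← hqq]
      have h3 := congrArg (fun t => t ^ 2) (g0 j).1
      simp only [rr_sq hF] at h3
      have h4 : qq (zc c1 c2 ε) j X / Real.pi = qq (zc c1 c2 ε) j X' / Real.pi := by linarith
      have h5 := Real.pi_ne_zero
      field_simp at h4
      exact h4
    obtain ⟨k0, hk0⟩ := hkey ε h1 h2 Y X' hyy hz hq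
    have hc : c1 Y = c1 X' ∧ c2 Y = c2 X' := by
      have h3 := h.per Y (Pi.single (Sum.inl 0) k0)
      have h4 := h.indep (fun i => Y i + (Pi.single (Sum.inl 0) k0 : Fin 2 ⊕ κ → ℤ) i) X' (by
        intro i hi
        rcases i with l | j
        · fin_cases l
          · simp [hk0]
          · exact absurd rfl hi
        · simp [hyy j])
      exact ⟨h3.1.symm.trans h4.1, h3.2.symm.trans h4.2⟩
    obtain ⟨k1, hk1⟩ := emb_last h h1 hz hc.1 hc.2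
    refine ⟨Sum.elim ![k0, k1] m, ?_⟩
    rintro (l | j)
    · fin_cases l
      · simp only [hY] at hk0
        simpa using hk0
      · simp only [hY] at hk1
        simpa using hk1
    · exact hm j
  · rintro ⟨m, hm⟩
    have : X' = fun i => X i + m i := funext hm
    rw [this]
    exact (hper X m).symm

end emb

/-- piece EMB -/
theorem t_EMB (h : S_LAM) : S_EMB := fun _ _ _ _ _ hc => emb' h hc

end Pool.Agent.Helper57.LT4
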