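import Pool.Agent.Helper57.LT4.Stm
import Pool.Agent.W366.LT.Col
import Pool.Agent.W366.LT.Quat
import Pool.Agent.W366.LT.Ad
import Pool.Agent.W308.LTGS
import Pool.Agent.W400.LT.Int
import Pool.Agent.W400.LT.CntE

/-!
# Piece EVC: the constant of the counting formula is the constant of the evenness theorem

The two halves are those of `Pool.Agent.W400.LT.int` and `Pool.Agent.W630.LT.even`, with a fixed
constant `c` for which the counting formula holds.
-/

set_option autoImplicit false

open scoped ContDiff Matrix Topology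
open Set Filter MeasureTheory
open Pool.Agent.W630.LT Pool.Agent.W400.LT

namespace Pool.Agent.Helper57.LT4

/-- integrality with a given constant of the counting formula -/
theorem int_of_cntFor {c : ℂ} (hc : CntFor c) (u : R3 → Fin 4 → ℝ) (hu : Vp u) :
    ∃ k : ℤ, W (QQ u) = k * c := by
  classical
  obtain ⟨v, hv, hreg⟩ := exists_reg hu
  have hcv : cj v ≠ 0 := by
    intro h0
    apply hv
    funext i
    have := congrFun h0
    fin_cases i
    · exact this 0
    · have := this 1; simpa [cj] using this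
    · have := this 2; simpa [cj] using this
    · have := this 3; simpa [cj] using this
  have hV := Vp_pm hu hcv
  obtain ⟨Z, hZ, hW⟩ := hc (fun s => pm (cj v) (u s)) hV (by
    intro s h0 h1
    have hz : Zr (fun s => pm (cj v) (u s)) s := ⟨h0, h1⟩
    have h2 := De_Zr hz
    rw [De_pm hu] at h2
    have h3 : u s = (pm (cj v) (u s) 0 / sqn v) • v := by
      have h4 := pm_cj' v (u s)
      have h5 : pm (cj v) (u s) = (pm (cj v) (u s) 0) • (![1, 0, 0, 0] : Fin 4 → ℝ) := by
        funext i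
        refine Fin.cases ?_ (fun j => ?_) i
        · simp
        · rw [h1 j]; fin_cases j <;> simp
      have h6 : pm v (![1, 0, 0, 0] : Fin 4 → ℝ) = v := by
        funext i
        fin_cases i <;> simp [pm]
      rw [h5, pm_smul, h6] at h4
      have hq := sqn_pos hv
      rw [div_eq_inv_mul, mul_smul]
      have h7 : (pm (cj v) (u s) 0) • v = sqn v • u s := by
        rw [← h4]
      rw [h7, smul_smul, inv_mul_cancel₀ hq.ne', one_smul]
    have h4 := hreg s _ (div_pos h0 (sqn_pos hv)) h3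
    intro h5
    rw [h5, mul_zero] at h2
    have hq := sqn_pos hcv
    have : sqn (cj v) ^ 2 * De u s ≠ 0 := mul_ne_zero (by positivity) h4
    exact this h2)
  refine ⟨∑ s ∈ Z, (SignType.sign (Jac (fun s => pm (cj v) (u s)) s).det : ℤ), ?_⟩
  rw [← W_pm hu hcv, hW, mul_comm]
  congr 1
  rw [Int.cast_sum]

/-- evenness with a given constant -/
theorem even_of_int {c : ℂ} (hk : ∀ u : R3 → Fin 4 → ℝ, Vp u → ∃ k : ℤ, W (QQ u) = k * c)
    (n : ℕ) (R : R3 → Matrix (Fin n) (Fin n) ℝ) (hR : LpR R) :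
    ∃ k : ℤ, W (toC R) = 2 * k * c := by
  have h4 : ∀ R : R3 → Matrix (Fin 4) (Fin 4) ℝ, LpR R → ∃ k : ℤ, W (toC R) = 2 * k * c := by
    intro R hR
    obtain ⟨u, R', hu', hR', hW⟩ := Pool.Agent.W366.LT.quat R hR
    obtain ⟨O, hO, hO1, hO2, hW2⟩ := Pool.Agent.W308.LTGS.gs R' hR'
    obtain ⟨p, hp, hW3⟩ := Pool.Agent.W366.LT.ad O hO hO1 hO2
    obtain ⟨k1, hk1⟩ := hk u hu'
    obtain ⟨k2, hk2⟩ := hk p hp
    refine ⟨k1 + 2 * k2, ?_⟩
    rw [hW, hW2, hW3, hk1, hk2]
    push_cast
    ring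
  have h5 : ∀ m : ℕ, ∀ R : R3 → Matrix (Fin (4 + m)) (Fin (4 + m)) ℝ, LpR R →
      ∃ k : ℤ, W (toC R) = 2 * k * c := by
    intro m
    induction m with
    | zero => exact h4
    | succ m ih =>
      intro R hR
      obtain ⟨R', hR', hW⟩ := Pool.Agent.W366.LT.col (4 + m) R (by omega) hR
      obtain ⟨k, hk⟩ := ih R' hR'
      exact ⟨k, by rw [hW, hk]⟩
  obtain ⟨R', hR', hW⟩ := pad (m := 4) R hR
  have h6 : n + 4 = 4 + n := add_comm _ _
  rw [← hW]
  clear hW hR
  revert R'
  rw [h6]
  intro R' hR'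
  exact h5 n R' hR'

/-- EVC -/
theorem t_EVC : S_EVC := by
  obtain ⟨c, hc0, hc⟩ := Pool.Agent.W400.LT.cnt hom
  have hc' : CntFor c := hc
  exact ⟨c, hc0, hc', fun n R hR => even_of_int (int_of_cntFor hc') n R hR⟩

end Pool.Agent.Helper57.LT4
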