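import Pool.Agent.Helper57.LT4.Lam

/-!
# FAM
-/

set_option autoImplicit false

open scoped ContDiff Matrix ComplexConjugate
open Set Pool.Agent.W630.LT

namespace Pool.Agent.Helper57.LT4

variable {κ : Type} [Fintype κ] [DecidableEq κ] {c1 c2 : (Fin 2 ⊕ κ → ℝ) → ℂ}

theorem Cv.per1 (h : Cv c1 c2) (X : Fin 2 ⊕ κ → ℝ) (m : Fin 2 ⊕ κ → ℤ) :
    fderiv ℝ c1 (fun i => X i + m i) = fderiv ℝ c1 X := by
  have h1 : (fun y => c1 (y + fun i => (m i : ℝ))) = c1 := by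
    funext y
    exact (h.per y m).1
  have h2 := fderiv_comp_add_right (𝕜 := ℝ) (f := c1) (x := X) (fun i => (m i : ℝ))
  rw [h1] at h2
  exact h2.symm

theorem Cv.per2 (h : Cv c1 c2) (X : Fin 2 ⊕ κ → ℝ) (m : Fin 2 ⊕ κ → ℤ) :
    fderiv ℝ c2 (fun i => X i + m i) = fderiv ℝ c2 X := by
  have h1 : (fun y => c2 (y + fun i => (m i : ℝ))) = c2 := by
    funext y
    exact (h.per y m).2
  have h2 := fderiv_comp_add_right (𝕜 := ℝ) (f := c2) (x := X) (fun i => (m i : ℝ))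
  rw [h1] at h2
  exact h2.symm

theorem Cv.perA (h : Cv c1 c2) (v X : Fin 2 ⊕ κ → ℝ) (m : Fin 2 ⊕ κ → ℤ) :
    Aq c1 c2 v (fun i => X i + m i) = Aq c1 c2 v X := by
  unfold Aq
  rw [h.per1, h.per2, (h.per X m).1, (h.per X m).2]

theorem Cv.perb (h : Cv c1 c2) (v X : Fin 2 ⊕ κ → ℝ) (m : Fin 2 ⊕ κ → ℤ) :
    bq c1 c2 v (fun i => X i + m i) = bq c1 c2 v X := by
  unfold bq Bq
  rw [h.per1, h.per2, (h.per X m).1, (h.per X m).2, ee_add_int]

theorem Cv.perro (h : Cv c1 c2) (ε : ℝ) (X : Fin 2 ⊕ κ → ℝ) (m : Fin 2 ⊕ κ → ℤ) :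
    ro c1 c2 ε (fun i => X i + m i) = ro c1 c2 ε X := by
  unfold ro
  rw [h.perA, h.perb]

theorem Cv.perz (h : Cv c1 c2) (ε : ℝ) (X : Fin 2 ⊕ κ → ℝ) (m : Fin 2 ⊕ κ → ℤ) :
    zc c1 c2 ε (fun i => X i + m i) = zc c1 c2 ε X := by
  unfold zc
  rw [h.perro, (h.per X m).1, (h.per X m).2, ee_add_int]

/-- the moments of `zc` -/
theorem Cv.qq_zc (h : Cv c1 c2) (ε : ℝ) (j : κ) (X : Fin 2 ⊕ κ → ℝ) :
    qq (zc c1 c2 ε) j X = 1 / 2 * ((ro c1 c2 ε X ^ 2 - ε ^ 2) * Aq c1 c2 (dy j) X +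
      2 * ro c1 c2 ε X * ε * bq c1 c2 (dy j) X) := by
  have h1 := h.lam_zc ε X (dy j)
  have h2 : (dy j : Fin 2 ⊕ κ → ℝ) (Sum.inl 1) = 0 := by
    unfold dy
    rw [Pi.single_apply, if_neg (by simp)]
  rw [h2, mul_zero, add_zero] at h1
  exact h1

theorem Cv.perqq (h : Cv c1 c2) (ε : ℝ) (j : κ) (X : Fin 2 ⊕ κ → ℝ) (m : Fin 2 ⊕ κ → ℤ) :
    qq (zc c1 c2 ε) j (fun i => X i + m i) = qq (zc c1 c2 ε) j X := by
  rw [h.qq_zc, h.qq_zc, h.perro, h.perA, h.perb]

/-- `c` does not depend on `x₂` -/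
theorem Cv.d2 (h : Cv c1 c2) (X : Fin 2 ⊕ κ → ℝ) :
    fderiv ℝ c1 X (Pi.single (Sum.inl 1) 1) = 0 ∧ fderiv ℝ c2 X (Pi.single (Sum.inl 1) 1) = 0 := by
  have h0 : ∀ t : ℝ, c1 (X + t • Pi.single (Sum.inl 1) (1 : ℝ)) = c1 X ∧
      c2 (X + t • Pi.single (Sum.inl 1) (1 : ℝ)) = c2 X := by
    intro t
    apply h.indep
    intro i hi
    simp [Pi.single_apply, hi]
  have e1 : HasFDerivAt c1 (fderiv ℝ c1 X) X :=
    (h.s1.differentiable (by simp)).differentiableAt.hasFDerivAt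
  have e2 : HasFDerivAt c2 (fderiv ℝ c2 X) X :=
    (h.s2.differentiable (by simp)).differentiableAt.hasFDerivAt
  constructor
  · have h1 := (e1.hasLineDerivAt (Pi.single (Sum.inl 1) 1)).lineDeriv
    rw [← h1]
    unfold lineDeriv
    have : (fun t : ℝ => c1 (X + t • Pi.single (Sum.inl 1) (1 : ℝ))) = fun _ => c1 X :=
      funext fun t => (h0 t).1
    rw [this]
    exact deriv_const _ _
  · have h1 := (e2.hasLineDerivAt (Pi.single (Sum.inl 1) 1)).lineDeriv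
    rw [← h1]
    unfold lineDeriv
    have : (fun t : ℝ => c2 (X + t • Pi.single (Sum.inl 1) (1 : ℝ))) = fun _ => c2 X :=
      funext fun t => (h0 t).2
    rw [this]
    exact deriv_const _ _

theorem Cv.exists_C (h : Cv c1 c2) (ε : ℝ) :
    ∃ C : ℝ, 0 < C ∧ ∀ j X, qq (zc c1 c2 ε) j X / Real.pi < C := by
  have h1 : Continuous (fun X => ∑ j, |qq (zc c1 c2 ε) j X / Real.pi|) :=
    continuous_finsetSum _ fun j _ =>
      (((contDiff_qq (h.smoothz ε) j).continuous).div_const _).abs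
  obtain ⟨C, hC⟩ := bounded_of_periodic h1 (fun X m => by
    refine Finset.sum_congr rfl fun j _ => ?_
    rw [h.perqq])
  refine ⟨C, ?_, fun j X => ?_⟩
  · exact lt_of_le_of_lt (Finset.sum_nonneg fun j _ => abs_nonneg _) (hC 0)
  · have h2 : |qq (zc c1 c2 ε) j X / Real.pi| ≤ ∑ j, |qq (zc c1 c2 ε) j X / Real.pi| :=
      Finset.single_le_sum (f := fun j => |qq (zc c1 c2 ε) j X / Real.pi|)
        (fun j _ => abs_nonneg _) (Finset.mem_univ j)
    have h3 := hC X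
    have h4 := le_abs_self (qq (zc c1 c2 ε) j X / Real.pi)
    linarith

theorem key_im (r r' ε a : ℝ) (p q p' q' e : ℂ) :
    (conj p * (r' * p + r * p' - ε * (2 * Real.pi * Complex.I * a * e * conj q + e * conj q')) +
      conj q * (r' * q + r * q' + ε * (2 * Real.pi * Complex.I * a * e * conj p + e * conj p'))).im =
      r * (conj p * p' + conj q * q').im + ε * (conj e * (p * q' - q * p')).im := by
  simp
  ring

theorem Cv.fam (h : Cv c1 c2) {ε : ℝ} (hε : 0 < ε) {C : ℝ}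
    (hC : ∀ j X, qq (zc c1 c2 ε) j X / Real.pi < C) : Fam (zc c1 c2 ε) C := by
  refine ⟨h.smoothz ε, fun l => ?_, fun j X => by have := hC j X; linarith, fun X a ha => ?_⟩
  · fin_cases l
    · refine ⟨1 / 2, fun X => ?_⟩
      have h1 := h.lam_zc ε X dx
      have h2 : (dx : Fin 2 ⊕ κ → ℝ) (Sum.inl 1) = 0 := by
        unfold dx
        rw [Pi.single_apply, if_neg (by simp)]
      rw [h2, mul_zero, add_zero, h.quad] at h1
      rw [mul_one] at h1
      exact h1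
    · refine ⟨Real.pi * ε ^ 2, fun X => ?_⟩
      have h1 := h.lam_zc ε X (Pi.single (Sum.inl 1) 1)
      have hA : Aq c1 c2 (Pi.single (Sum.inl 1) 1) X = 0 := by
        unfold Aq
        rw [(h.d2 X).1, (h.d2 X).2]
        simp
      have hb : bq c1 c2 (Pi.single (Sum.inl 1) 1) X = 0 := by
        unfold bq Bq
        rw [(h.d2 X).1, (h.d2 X).2]
        simp
      rw [hA, hb, Pi.single_eq_same] at h1
      simp only [mul_zero, add_zero, mul_one, zero_add] at h1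
      exact h1
  · set v : Fin 2 ⊕ κ → ℝ := Sum.elim a 0 with hv
    obtain ⟨d0, d1⟩ := h.fderiv_zc ε X v
    rw [ha] at d0 d1
    have hvv : v = a 0 • dx + a 1 • (Pi.single (Sum.inl 1) 1 : Fin 2 ⊕ κ → ℝ) := by
      ext i
      rcases i with l | j
      · fin_cases l <;> simp [hv, dx, Pi.single_apply]
      · simp [hv, dx, Pi.single_apply]
    have D1 : fderiv ℝ c1 X v = a 0 * fderiv ℝ c1 X dx := by
      rw [hvv, map_add, map_smul, map_smul, (h.d2 X).1, smul_zero, add_zero, Complex.real_smul]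
    have D2 : fderiv ℝ c2 X v = a 0 * fderiv ℝ c2 X dx := by
      rw [hvv, map_add, map_smul, map_smul, (h.d2 X).2, smul_zero, add_zero, Complex.real_smul]
    have hv1 : v (Sum.inl 1) = a 1 := rfl
    have k1 := key_im (ro c1 c2 ε X) (fderiv ℝ (ro c1 c2 ε) X v) ε (v (Sum.inl 1)) (c1 X) (c2 X)
      (fderiv ℝ c1 X v) (fderiv ℝ c2 X v) (ee (X (Sum.inl 1)))
    rw [← d0, ← d1] at k1
    have k2 : (conj (c1 X) * fderiv ℝ c1 X v + conj (c2 X) * fderiv ℝ c2 X v).im =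
        a 0 * Aq c1 c2 dx X := by
      rw [D1, D2]
      unfold Aq
      have : conj (c1 X) * (a 0 * fderiv ℝ c1 X dx) + conj (c2 X) * (a 0 * fderiv ℝ c2 X dx) =
        (a 0 : ℂ) * (conj (c1 X) * fderiv ℝ c1 X dx + conj (c2 X) * fderiv ℝ c2 X dx) := by ring
      rw [this, Complex.im_ofReal_mul]
    have k3 : (conj (ee (X (Sum.inl 1))) * (c1 X * fderiv ℝ c2 X v - c2 X * fderiv ℝ c1 X v)).im =
        a 0 * bq c1 c2 dx X := by
      rw [D1, D2]
      unfold bq Bq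
      have : conj (ee (X (Sum.inl 1))) * (c1 X * (a 0 * fderiv ℝ c2 X dx) -
          c2 X * (a 0 * fderiv ℝ c1 X dx)) =
        (a 0 : ℂ) * (conj (ee (X (Sum.inl 1))) * (c1 X * fderiv ℝ c2 X dx -
          c2 X * fderiv ℝ c1 X dx)) := by ring
      rw [this, Complex.im_ofReal_mul]
    rw [k2, k3] at k1
    have k4 : a 0 * (ro c1 c2 ε X * Aq c1 c2 dx X + ε * bq c1 c2 dx X) = 0 := by
      simp at k1
      linarith
    have a0 : a 0 = 0 := (mul_eq_zero.1 k4).resolve_right (h.roA_pos ε X).ne'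
    have D1' : fderiv ℝ c1 X v = 0 := by rw [D1, a0]; simp
    have D2' : fderiv ℝ c2 X v = 0 := by rw [D2, a0]; simp
    rw [D1', D2', hv1] at d0 d1
    have hn := h.unit X
    have he := ee_conj_mul (X (Sum.inl 1))
    have k5 : (0 : ℂ) = ε * (2 * Real.pi * Complex.I * a 1 * ee (X (Sum.inl 1))) := by
      have e0 : (0 : Fin 2 → ℂ) 0 = 0 := rfl
      have e1 : (0 : Fin 2 → ℂ) 1 = 0 := rfl
      rw [e0] at d0
      rw [e1] at d1
      rw [map_zero] at d0 d1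
      linear_combination (-c2 X) * d0 + c1 X * d1 + (ε * (2 * Real.pi * Complex.I * a 1 * ee (X (Sum.inl 1)))) * hn
    have a1 : a 1 = 0 := by
      have k6 := k5.symm
      rw [mul_eq_zero, mul_eq_zero] at k6
      rcases k6 with k6 | k6 | k6
      · exact absurd (by exact_mod_cast k6) hε.ne'
      · rw [mul_eq_zero] at k6
        rcases k6 with k6 | k6
        · simp [Real.pi_ne_zero] at k6
        · exact_mod_cast k6
      · exact absurd k6 (ee_ne _)
    ext i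
    fin_cases i
    · exact a0
    · exact a1

theorem t_FAM : S_FAM := fun κ _ _ c1 c2 h ε hε => by
  obtain ⟨C, hC0, hC⟩ := h.exists_C ε
  exact ⟨C, hC0, fun C' hC' => h.fam hε fun j X => lt_of_lt_of_le (hC j X) hC'⟩

end Pool.Agent.Helper57.LT4
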