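import Pool.Agent.Helper57.LT4.Stm

set_option autoImplicit false
set_option linter.unusedSectionVars false
set_option linter.unusedTactic false
set_option linter.unusedSimpArgs false

open scoped ContDiff Matrix ComplexConjugate
open Set Pool.Agent.W630.LT

namespace Pool.Agent.Helper57.LT4

namespace Gen

variable {α κ : Type} [Fintype α] [DecidableEq α] [Fintype κ] [DecidableEq κ]

theorem fderiv_rr {z : (α ⊕ κ → ℝ) → (α → ℂ)} {C : ℝ} (hF : Fam z C) (j : κ) (x v : α ⊕ κ → ℝ) :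
    2 * rr z C j x * fderiv ℝ (rr z C j) x v = -(fderiv ℝ (qq z j) x v / Real.pi) := by
  have h1 : HasFDerivAt (rr z C j) (fderiv ℝ (rr z C j) x) x :=
    ((contDiff_rr hF j).differentiable (by simp)).differentiableAt.hasFDerivAt
  have h2 : HasFDerivAt (qq z j) (fderiv ℝ (qq z j) x) x :=
    ((contDiff_qq hF.smooth j).differentiable (by simp)).differentiableAt.hasFDerivAt
  have h3 := h1.mul h1
  have h4 : HasFDerivAt (fun y => C - qq z j y * Real.pi⁻¹) _ x :=
    (h2.mul_const Real.pi⁻¹).const_sub C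
  have h5 : (fun y => rr z C j y * rr z C j y) = fun y => C - qq z j y * Real.pi⁻¹ := by
    funext y
    rw [← sq, rr_sq hF, div_eq_mul_inv]
  have h6 : HasFDerivAt (fun y => rr z C j y * rr z C j y) _ x := h3
  rw [h5] at h6
  have h7 := congrArg (fun T : (α ⊕ κ → ℝ) →L[ℝ] ℝ => T v) (h6.unique h4)
  simp at h7
  rw [div_eq_mul_inv]
  linarith

/-- the interpolating matrices -/
noncomputable def Mx (z : (α ⊕ κ → ℝ) → (α → ℂ)) (C u : ℝ) (x : α ⊕ κ → ℝ) :
    Matrix (α ⊕ κ) (α ⊕ κ) ℂ := Matrix.of fun a b =>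
  Sum.elim (fun l => fderiv ℝ z x (Pi.single b 1) l)
    (fun j => ((-(u * fderiv ℝ (qq z j) x (Pi.single b 1) / Real.pi) : ℝ) : ℂ) +
      (if b = Sum.inr j then
        4 * Real.pi * Complex.I * ((C - u * qq z j x / Real.pi : ℝ) : ℂ)
       else 0)) a

theorem Mx_eq {z : (α ⊕ κ → ℝ) → (α → ℂ)} {C u : ℝ} (hu : 0 < u) (hF : Fam z (C / u))
    (x : α ⊕ κ → ℝ) : mat (fderiv ℝ (FS z (C / u)) x) =
      Matrix.diagonal (Sum.elim (fun _ => (1 : ℂ))
        (fun j => ee (x (Sum.inr j)) * (2 * (rr z (C / u) j x : ℂ) * (u : ℂ))⁻¹)) * Mx z C u x := by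
  ext a b
  rw [Matrix.diagonal_mul]
  unfold mat
  rw [Matrix.of_apply]
  rcases a with l | j
  · rw [fderiv_FS_inl hF]
    simp [Mx]
  · rw [fderiv_FS_inr hF]
    have h1 := fderiv_rr hF j x (Pi.single b 1)
    have h2 := rr_sq hF j x
    have h3 := rr_pos hF j x
    set r := rr z (C / u) j x with hr
    set r' := fderiv ℝ (rr z (C / u) j) x (Pi.single b 1) with hr'
    have hr0 : (r : ℂ) ≠ 0 := by exact_mod_cast h3.ne'
    have hu0 : (u : ℂ) ≠ 0 := by exact_mod_cast hu.ne'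
    have h1c : 2 * (r : ℂ) * r' * u = ((-(u * fderiv ℝ (qq z j) x
        (Pi.single b 1) / Real.pi) : ℝ) : ℂ) := by
      have : 2 * r * r' * u = -(u * fderiv ℝ (qq z j) x (Pi.single b 1) / Real.pi) := by
        rw [h1]; ring
      exact_mod_cast this
    have h2c : (r : ℂ) ^ 2 * u = ((C - u * qq z j x / Real.pi : ℝ) : ℂ) := by
      have : r ^ 2 * u = C - u * qq z j x / Real.pi := by
        rw [h2]; field_simp
      exact_mod_cast this
    simp only [Mx, Matrix.of_apply, Sum.elim_inr]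
    rw [← h1c, ← hr]
    by_cases hb : b = Sum.inr j
    · subst hb
      simp only [Pi.single_eq_same, if_true]
      rw [← h2c]
      field_simp
      push_cast
      ring
    · have h4 : (Pi.single b (1 : ℝ) : α ⊕ κ → ℝ) (Sum.inr j) = 0 := by
        rw [Pi.single_apply, if_neg (fun h => hb h.symm)]
      rw [h4, if_neg hb]
      field_simp
      push_cast
      ring

/-- the block -/
noncomputable def Nx (z : (α ⊕ κ → ℝ) → (α → ℂ)) (x : α ⊕ κ → ℝ) : Matrix α α ℂ :=
  Matrix.of fun i l : α => fderiv ℝ z x (Pi.single (Sum.inl l) 1) i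

theorem Mx_zero (z : (α ⊕ κ → ℝ) → (α → ℂ)) (C : ℝ) (x : α ⊕ κ → ℝ) :
    Mx z C 0 x = Matrix.fromBlocks (Nx z x)
      (Matrix.of fun l j => fderiv ℝ z x (Pi.single (Sum.inr j) 1) l) 0
      (Matrix.diagonal fun _ => (4 * Real.pi * Complex.I * C : ℂ)) := by
  ext a b
  rcases a with l | j
  · rcases b with m | j
    · simp [Mx, Nx]
    · simp [Mx]
  · rcases b with m | i
    · simp [Mx]
    · simp only [Mx, Matrix.of_apply, Sum.elim_inr, Matrix.fromBlocks_apply₂₂, zero_mul, zero_div,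
        neg_zero, Complex.ofReal_zero, sub_zero, zero_add]
      by_cases h : i = j
      · subst h
        simp
      · rw [if_neg (by simpa using h), Matrix.diagonal_apply_ne _ (fun e => h e.symm)]

/-- the inclusion -/
noncomputable def inc : (α → ℝ) →L[ℝ] (α ⊕ κ → ℝ) :=
  ContinuousLinearMap.pi (Sum.rec (fun i => ContinuousLinearMap.proj i) fun _ => 0)

theorem inc_apply (a : α → ℝ) : (inc a : α ⊕ κ → ℝ) = Sum.elim a 0 := by
  ext i
  rcases i with l | j
  · rfl
  · rfl

theorem Nx_det {z : (α ⊕ κ → ℝ) → (α → ℂ)} {C : ℝ} (hF : Fam z C) (x : α ⊕ κ → ℝ) :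
    (Nx z x).det ≠ 0 := by
  have h1 : Nx z x = mat ((fderiv ℝ z x).comp (inc : (α → ℝ) →L[ℝ] (α ⊕ κ → ℝ))) := by
    ext i l
    unfold Nx mat
    rw [Matrix.of_apply, Matrix.of_apply, ContinuousLinearMap.comp_apply, inc_apply]
    have h2 : (Sum.elim (Pi.single l (1 : ℝ)) 0 : α ⊕ κ → ℝ) = Pi.single (Sum.inl l) 1 := by
      ext b
      rcases b with m | j
      · simp [Pi.single_apply]
      · simp [Pi.single_apply]
    rw [h2]
  rw [h1]
  refine mat_det_ne_zero _ ?_ ?_
  · rw [injective_iff_map_eq_zero]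
    intro a ha
    rw [ContinuousLinearMap.comp_apply, inc_apply] at ha
    exact hF.inj x a ha
  · intro u v
    rw [ContinuousLinearMap.comp_apply, ContinuousLinearMap.comp_apply, inc_apply, inc_apply]
    have h2 := omega_FS hF x (Sum.elim u 0) (Sum.elim v 0)
    unfold omega at h2 ⊢
    rw [Fintype.sum_sum_type] at h2
    have h3 : ∀ j : κ, ((fderiv ℝ (FS z C) x (Sum.elim u 0) (Sum.inr j)).im *
        (fderiv ℝ (FS z C) x (Sum.elim v 0) (Sum.inr j)).re -
        (fderiv ℝ (FS z C) x (Sum.elim u 0) (Sum.inr j)).re *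
        (fderiv ℝ (FS z C) x (Sum.elim v 0) (Sum.inr j)).im) = 0 := by
      intro j
      rw [fderiv_FS_inr hF, fderiv_FS_inr hF]
      simp
      ring
    rw [Finset.sum_congr rfl fun j _ => h3 j, Finset.sum_const_zero, add_zero] at h2
    rw [← h2]
    refine Finset.sum_congr rfl fun l _ => ?_
    rw [fderiv_FS_inl hF, fderiv_FS_inl hF]

end Gen

open Gen

theorem t_GEN : S_GEN := by
  intro α κ _ _ _ _ z C₀ hC₀ hFam hper ρ hρ hρp
  have hF := hFam C₀ le_rfl
  have hz := hF.smooth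
  -- periodicity
  have hfd : ∀ (x : α ⊕ κ → ℝ) (m : α ⊕ κ → ℤ),
      fderiv ℝ z (fun i => x i + m i) = fderiv ℝ z x := by
    intro x m
    have h1 : (fun y => z (y + fun i => (m i : ℝ))) = z := by
      funext y
      exact hper y m
    have h2 := fderiv_comp_add_right (𝕜 := ℝ) (f := z) (x := x) (fun i => (m i : ℝ))
    rw [h1] at h2
    exact h2.symm
  have hqp : ∀ (j : κ) (x : α ⊕ κ → ℝ) (m : α ⊕ κ → ℤ),
      qq z j (fun i => x i + m i) = qq z j x := by
    intro j x m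
    unfold qq
    rw [hper, hfd]
  have hqfd : ∀ (j : κ) (x : α ⊕ κ → ℝ) (m : α ⊕ κ → ℤ),
      fderiv ℝ (qq z j) (fun i => x i + m i) = fderiv ℝ (qq z j) x := by
    intro j x m
    have h1 : (fun y => qq z j (y + fun i => (m i : ℝ))) = qq z j := by
      funext y
      exact hqp j y m
    have h2 := fderiv_comp_add_right (𝕜 := ℝ) (f := qq z j) (x := x) (fun i => (m i : ℝ))
    rw [h1] at h2
    exact h2.symm
  have hρm : ∀ (k : Fin 3) (s : R3), ∃ m : α ⊕ κ → ℤ,
      ρ (s + Pi.single k 1) = fun i => ρ s i + m i := fun k s => by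
    obtain ⟨m, hm⟩ := hρp k s
    exact ⟨m, funext hm⟩
  have hMper : ∀ u : ℝ, Per (fun s => Mx z C₀ u (ρ s)) := by
    intro u k s
    obtain ⟨m, hm⟩ := hρm k s
    beta_reduce
    rw [hm]
    unfold Mx
    rw [hfd]
    ext a b
    simp only [Matrix.of_apply]
    rcases a with l | j
    · rfl
    · simp only [Sum.elim_inr]
      rw [hqfd, hqp]
  -- smoothness
  have hent : ∀ a b : α ⊕ κ, ContDiff ℝ ∞ (fun p : ℝ × R3 => Mx z C₀ p.1 (ρ p.2) a b) := by
    intro a b
    have hi : ContDiff ℝ ∞ (fun p : ℝ × R3 => ρ p.2) := hρ.comp contDiff_snd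
    rcases a with l | j
    · have h1 : ContDiff ℝ ∞ (fun x => fderiv ℝ z x (Pi.single b 1)) :=
        (hz.fderiv_right (m := ∞) (by simp)).clm_apply contDiff_const
      exact ((contDiff_pi.1 h1) l).comp hi
    · have hq := contDiff_qq hz j
      have h1 : ContDiff ℝ ∞ (fun x => fderiv ℝ (qq z j) x (Pi.single b 1)) :=
        (hq.fderiv_right (m := ∞) (by simp)).clm_apply contDiff_const
      have h2 : ContDiff ℝ ∞ (fun p : ℝ × R3 =>
          (-(p.1 * fderiv ℝ (qq z j) (ρ p.2) (Pi.single b 1) / Real.pi) : ℝ)) :=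
        ((contDiff_fst.mul (h1.comp hi)).div_const _).neg
      have h3 : ContDiff ℝ ∞ (fun p : ℝ × R3 =>
          (C₀ - p.1 * qq z j (ρ p.2) / Real.pi : ℝ)) :=
        contDiff_const.sub ((contDiff_fst.mul (hq.comp hi)).div_const _)
      have h4 : ContDiff ℝ ∞ (fun p : ℝ × R3 => (if b = Sum.inr j then
          4 * Real.pi * Complex.I * ((C₀ - p.1 * qq z j (ρ p.2) / Real.pi : ℝ) : ℂ)
         else 0)) := by
        by_cases hb : b = Sum.inr j
        · simp only [hb, if_true]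
          exact contDiff_const.mul (Complex.ofRealCLM.contDiff.comp h3)
        · simp only [hb, if_false]
          exact contDiff_const
      exact (Complex.ofRealCLM.contDiff.comp h2).add h4
  have hdiag0 : (Matrix.diagonal fun _ : κ => (4 * Real.pi * Complex.I * C₀ : ℂ)).det ≠ 0 := by
    rw [Matrix.det_diagonal]
    refine Finset.prod_ne_zero_iff.2 fun i _ => ?_
    simp [Real.pi_ne_zero, hC₀.ne']
  have hlp : ∀ u ∈ Icc (0 : ℝ) 1, Lp (fun s => Mx z C₀ u (ρ s)) := by
    intro u hu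
    refine ⟨fun a b => (hent a b).comp (contDiff_const.prodMk contDiff_id), hMper u, fun s => ?_⟩
    rcases eq_or_lt_of_le hu.1 with h0 | h0
    · rw [← h0, Mx_zero, Matrix.det_fromBlocks_zero₂₁]
      exact mul_ne_zero (Nx_det hF _) hdiag0
    · have hFu : Fam z (C₀ / u) := hFam _ (by rw [le_div_iff₀ h0]; nlinarith [hu.2])
      have h1 := mat_FS_det hFu (ρ s)
      rw [Mx_eq h0 hFu, Matrix.det_mul] at h1
      exact right_ne_zero_of_mul h1
  have hhom : W (fun s => Mx z C₀ 0 (ρ s)) = W (fun s => Mx z C₀ 1 (ρ s)) :=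
    hom (α ⊕ κ) (fun u s => Mx z C₀ u (ρ s)) hlp fun a b =>
      (hent a b).continuous.continuousOn
  -- the diagonal factor
  have hrp : ∀ (j : κ) (x : α ⊕ κ → ℝ) (m : α ⊕ κ → ℤ),
      rr z C₀ j (fun i => x i + m i) = rr z C₀ j x := by
    intro j x m
    unfold rr
    rw [hqp]
  let dg : R3 → α ⊕ κ → ℂ := fun s => Sum.elim (fun _ => (1 : ℂ))
    (fun j => ee (ρ s (Sum.inr j)) * (2 * (rr z C₀ j (ρ s) : ℂ) * ((1 : ℝ) : ℂ))⁻¹)
  have hdgs : ∀ a, ContDiff ℝ ∞ (fun s => dg s a) := by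
    rintro (l | j)
    · exact contDiff_const
    · have h3 : ContDiff ℝ ∞ (fun s => ee (ρ s (Sum.inr j))) :=
        contDiff_ee.comp ((contDiff_pi.1 hρ) (Sum.inr j))
      have h4 : ContDiff ℝ ∞ (fun s => (2 * (rr z C₀ j (ρ s) : ℂ) * ((1 : ℝ) : ℂ))) :=
        (contDiff_const.mul (Complex.ofRealCLM.contDiff.comp
          ((contDiff_rr hF j).comp hρ))).mul contDiff_const
      have h5 : ContDiff ℝ ∞ (fun s => (2 * (rr z C₀ j (ρ s) : ℂ) * ((1 : ℝ) : ℂ))⁻¹) := by
        refine h4.inv fun s => ?_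
        have := rr_pos hF j (ρ s)
        exact mul_ne_zero (mul_ne_zero two_ne_zero (by exact_mod_cast this.ne')) (by simp)
      exact h3.mul h5
  have hdgn : ∀ s a, dg s a ≠ 0 := by
    rintro s (l | j)
    · exact one_ne_zero
    · have := rr_pos hF j (ρ s)
      exact mul_ne_zero (ee_ne _)
        (inv_ne_zero (mul_ne_zero (mul_ne_zero two_ne_zero (by exact_mod_cast this.ne')) (by simp)))
  have hdgp : Per dg := by
    intro k s
    obtain ⟨m, hm⟩ := hρm k s
    show (Sum.elim (fun _ => (1 : ℂ)) (fun j => ee (ρ (s + Pi.single k 1) (Sum.inr j)) *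
      (2 * (rr z C₀ j (ρ (s + Pi.single k 1)) : ℂ) * ((1 : ℝ) : ℂ))⁻¹) : α ⊕ κ → ℂ) = dg s
    rw [hm]
    simp only [hrp, ee_add_int]
    rfl
  have hdglp : Lp (fun s => Matrix.diagonal (dg s)) := by
    refine ⟨fun a b => ?_, fun k s => ?_, fun s => ?_⟩
    · by_cases hab : a = b
      · subst hab
        simp only [Matrix.diagonal_apply_eq]
        exact hdgs a
      · simp only [Matrix.diagonal_apply_ne _ hab]
        exact contDiff_const
    · rw [hdgp k s]
    · rw [Matrix.det_diagonal]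
      exact Finset.prod_ne_zero_iff.2 fun a _ => hdgn s a
  have hone : ∀ s, mat (fderiv ℝ (FS z C₀) (ρ s)) =
      Matrix.diagonal (dg s) * Mx z C₀ 1 (ρ s) := by
    intro s
    have h1 := Mx_eq (z := z) (C := C₀) one_pos (by rw [div_one]; exact hF) (ρ s)
    rw [div_one] at h1
    exact h1
  have e1 : W (fun s => mat (fderiv ℝ (FS z C₀) (ρ s))) = W (fun s => Mx z C₀ 1 (ρ s)) := by
    have h0 : (fun s => mat (fderiv ℝ (FS z C₀) (ρ s))) =
        fun s => Matrix.diagonal (dg s) * Mx z C₀ 1 (ρ s) := funext hone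
    rw [h0]
    have h1 := mul (α ⊕ κ) (fun s => Matrix.diagonal (dg s)) (fun s => Mx z C₀ 1 (ρ s)) hdglp
      (hlp 1 (right_mem_Icc.2 zero_le_one))
    have h2 := diag (α ⊕ κ) dg
    rw [h1, h2, zero_add]
  -- the other end
  have e2 : W (fun s => Mx z C₀ 0 (ρ s)) = W (fun s => Nx z (ρ s)) := by
    have h0 : (fun s => Mx z C₀ 0 (ρ s)) = fun s => Matrix.fromBlocks (Nx z (ρ s))
      (Matrix.of fun l j => fderiv ℝ z (ρ s) (Pi.single (Sum.inr j) 1) l) 0
      (Matrix.diagonal fun _ => (4 * Real.pi * Complex.I * C₀ : ℂ)) :=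
      funext fun s => Mx_zero z C₀ (ρ s)
    have h1 : Lp (fun s => Nx z (ρ s)) := by
      refine ⟨fun i l => ?_, fun k s => ?_, fun s => Nx_det hF _⟩
      · have h1 : ContDiff ℝ ∞ (fun x => fderiv ℝ z x (Pi.single (Sum.inl l) 1)) :=
          (hz.fderiv_right (m := ∞) (by simp)).clm_apply contDiff_const
        exact ((contDiff_pi.1 h1) i).comp hρ
      · obtain ⟨m, hm⟩ := hρm k s
        beta_reduce
        unfold Nx
        rw [hm, hfd]
    have h3 : Lp (fun _ : R3 => (Matrix.diagonal fun _ => (4 * Real.pi * Complex.I * C₀ : ℂ) :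
        Matrix κ κ ℂ)) := Lp.const hdiag0
    have h4 : Sm (fun s => (Matrix.of fun l j => fderiv ℝ z (ρ s)
        (Pi.single (Sum.inr j) 1) l : Matrix α κ ℂ)) := by
      intro l j
      have h1 : ContDiff ℝ ∞ (fun x => fderiv ℝ z x (Pi.single (Sum.inr j) 1)) :=
        (hz.fderiv_right (m := ∞) (by simp)).clm_apply contDiff_const
      exact ((contDiff_pi.1 h1) l).comp hρ
    have h5 : Per (fun s => (Matrix.of fun l j => fderiv ℝ z (ρ s)
        (Pi.single (Sum.inr j) 1) l : Matrix α κ ℂ)) := by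
      intro k s
      obtain ⟨m, hm⟩ := hρm k s
      beta_reduce
      rw [hm, hfd]
    rw [h0, blk α κ _ _ _ h1 h3 h4 h5, W_const, add_zero]
  rw [e1, ← hhom, e2]
  rfl

end Pool.Agent.Helper57.LT4
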