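import Pool.Agent.Helper57.LT4.Stm

/-!
# LAM and FAM
-/

set_option autoImplicit false

open scoped ContDiff Matrix ComplexConjugate
open Set Pool.Agent.W630.LT

namespace Pool.Agent.Helper57.LT4

theorem key_lam (r r' ε v : ℝ) (p q p' q' e : ℂ) (he : conj e * e = 1)
    (hn : conj p * p + conj q * q = 1) :
    (conj (r * p - ε * e * conj q) *
        (r' * p + r * p' - ε * (2 * Real.pi * Complex.I * v * e * conj q + e * conj q')) +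
      conj (r * q + ε * e * conj p) *
        (r' * q + r * q' + ε * (2 * Real.pi * Complex.I * v * e * conj p + e * conj p'))).im =
      (r ^ 2 - ε ^ 2) * (conj p * p' + conj q * q').im +
        2 * r * ε * (conj e * (p * q' - q * p')).im + 2 * Real.pi * ε ^ 2 * v := by
  have he' := congrArg Complex.re he
  have hn' := congrArg Complex.re hn
  simp at he' hn'
  simp
  linear_combination (ε ^ 2 * (2 * Real.pi * v * (p.re * p.re + p.im * p.im + (q.re * q.re + q.im * q.im)) -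
    (p.re * p'.im - p.im * p'.re + (q.re * q'.im - q.im * q'.re)))) * he' + ε ^ 2 * 2 * Real.pi * v * hn'

variable {κ : Type} [Fintype κ] [DecidableEq κ] {c1 c2 : (Fin 2 ⊕ κ → ℝ) → ℂ}

theorem Cv.smoothD1 (h : Cv c1 c2) (v : Fin 2 ⊕ κ → ℝ) :
    ContDiff ℝ ∞ (fun X => fderiv ℝ c1 X v) :=
  (h.s1.fderiv_right (m := ∞) (by simp)).clm_apply contDiff_const

theorem Cv.smoothD2 (h : Cv c1 c2) (v : Fin 2 ⊕ κ → ℝ) :
    ContDiff ℝ ∞ (fun X => fderiv ℝ c2 X v) :=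
  (h.s2.fderiv_right (m := ∞) (by simp)).clm_apply contDiff_const

theorem Cv.smoothA (h : Cv c1 c2) (v : Fin 2 ⊕ κ → ℝ) : ContDiff ℝ ∞ (Aq c1 c2 v) := by
  have e1 : ContDiff ℝ ∞ (fun X => conj (c1 X)) := (Complex.conjCLE : ℂ →L[ℝ] ℂ).contDiff.comp h.s1
  have e2 : ContDiff ℝ ∞ (fun X => conj (c2 X)) := (Complex.conjCLE : ℂ →L[ℝ] ℂ).contDiff.comp h.s2
  exact Complex.imCLM.contDiff.comp ((e1.mul (h.smoothD1 v)).add (e2.mul (h.smoothD2 v)))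

theorem smooth_ee1 : ContDiff ℝ ∞ (fun X : Fin 2 ⊕ κ → ℝ => ee (X (Sum.inl 1))) :=
  contDiff_ee.comp (contDiff_apply ℝ ℝ (Sum.inl 1))

theorem Cv.smoothb (h : Cv c1 c2) (v : Fin 2 ⊕ κ → ℝ) : ContDiff ℝ ∞ (bq c1 c2 v) := by
  have e1 : ContDiff ℝ ∞ (fun X : Fin 2 ⊕ κ → ℝ => conj (ee (X (Sum.inl 1)))) :=
    (Complex.conjCLE : ℂ →L[ℝ] ℂ).contDiff.comp smooth_ee1
  exact Complex.imCLM.contDiff.comp (e1.mul ((h.s1.mul (h.smoothD2 v)).sub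
    (h.s2.mul (h.smoothD1 v))))

theorem Cv.rad_pos (h : Cv c1 c2) (ε : ℝ) (X : Fin 2 ⊕ κ → ℝ) :
    (ε * bq c1 c2 dx X) ^ 2 < (ε * bq c1 c2 dx X) ^ 2 + Aq c1 c2 dx X +
      (ε * Aq c1 c2 dx X) ^ 2 := by
  have := h.pos X
  nlinarith [sq_nonneg (ε * Aq c1 c2 dx X)]

theorem Cv.smoothro (h : Cv c1 c2) (ε : ℝ) : ContDiff ℝ ∞ (ro c1 c2 ε) := by
  unfold ro
  have hA := h.smoothA dx
  have hb := h.smoothb dx
  refine ContDiff.div ?_ hA (fun X => (h.pos X).ne')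
  refine ((contDiff_const.mul hb).neg).add (ContDiff.sqrt ?_ fun X => ?_)
  · exact (((contDiff_const.mul hb).pow 2).add hA).add ((contDiff_const.mul hA).pow 2)
  · have := h.rad_pos ε X
    have h2 := sq_nonneg (ε * bq c1 c2 dx X)
    exact (lt_of_le_of_lt h2 this).ne'

theorem Cv.smoothz (h : Cv c1 c2) (ε : ℝ) : ContDiff ℝ ∞ (zc c1 c2 ε) := by
  have e1 : ContDiff ℝ ∞ (fun X => conj (c1 X)) := (Complex.conjCLE : ℂ →L[ℝ] ℂ).contDiff.comp h.s1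
  have e2 : ContDiff ℝ ∞ (fun X => conj (c2 X)) := (Complex.conjCLE : ℂ →L[ℝ] ℂ).contDiff.comp h.s2
  have hr : ContDiff ℝ ∞ (fun X => (ro c1 c2 ε X : ℂ)) :=
    Complex.ofRealCLM.contDiff.comp (h.smoothro ε)
  rw [contDiff_pi]
  intro i
  fin_cases i
  · exact (hr.mul h.s1).sub ((contDiff_const.mul smooth_ee1).mul e2)
  · exact (hr.mul h.s2).add ((contDiff_const.mul smooth_ee1).mul e1)

theorem Cv.roA (h : Cv c1 c2) (ε : ℝ) (X : Fin 2 ⊕ κ → ℝ) :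
    ro c1 c2 ε X * Aq c1 c2 dx X + ε * bq c1 c2 dx X =
      Real.sqrt ((ε * bq c1 c2 dx X) ^ 2 + Aq c1 c2 dx X + (ε * Aq c1 c2 dx X) ^ 2) := by
  unfold ro
  rw [div_mul_cancel₀ _ (h.pos X).ne']
  ring

theorem Cv.roA_pos (h : Cv c1 c2) (ε : ℝ) (X : Fin 2 ⊕ κ → ℝ) :
    0 < ro c1 c2 ε X * Aq c1 c2 dx X + ε * bq c1 c2 dx X := by
  rw [h.roA]
  exact Real.sqrt_pos.2 (lt_of_le_of_lt (sq_nonneg _) (h.rad_pos ε X))

theorem Cv.ro_pos (h : Cv c1 c2) (ε : ℝ) (X : Fin 2 ⊕ κ → ℝ) : 0 < ro c1 c2 ε X := by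
  have h1 : |ε * bq c1 c2 dx X| < Real.sqrt ((ε * bq c1 c2 dx X) ^ 2 + Aq c1 c2 dx X +
      (ε * Aq c1 c2 dx X) ^ 2) := by
    apply Real.lt_sqrt_of_sq_lt
    rw [sq_abs]
    exact h.rad_pos ε X
  have h2 := le_abs_self (ε * bq c1 c2 dx X)
  exact div_pos (by linarith) (h.pos X)

theorem Cv.quad (h : Cv c1 c2) (ε : ℝ) (X : Fin 2 ⊕ κ → ℝ) :
    (ro c1 c2 ε X ^ 2 - ε ^ 2) * Aq c1 c2 dx X + 2 * ro c1 c2 ε X * ε * bq c1 c2 dx X = 1 := by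
  have h1 := h.roA ε X
  have h2 : (ro c1 c2 ε X * Aq c1 c2 dx X + ε * bq c1 c2 dx X) ^ 2 =
      (ε * bq c1 c2 dx X) ^ 2 + Aq c1 c2 dx X + (ε * Aq c1 c2 dx X) ^ 2 := by
    rw [h1, Real.sq_sqrt (le_of_lt (lt_of_le_of_lt (sq_nonneg _) (h.rad_pos ε X)))]
  have h3 : Aq c1 c2 dx X ≠ 0 := (h.pos X).ne'
  apply mul_left_cancel₀ h3
  linear_combination h2

/-- the differential of `zc` -/
theorem Cv.fderiv_zc (h : Cv c1 c2) (ε : ℝ) (X v : Fin 2 ⊕ κ → ℝ) :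
    fderiv ℝ (zc c1 c2 ε) X v 0 =
      ((fderiv ℝ (ro c1 c2 ε) X v : ℝ) : ℂ) * c1 X + ro c1 c2 ε X * fderiv ℝ c1 X v -
        ε * (2 * Real.pi * Complex.I * v (Sum.inl 1) * ee (X (Sum.inl 1)) * conj (c2 X) +
          ee (X (Sum.inl 1)) * conj (fderiv ℝ c2 X v)) ∧
    fderiv ℝ (zc c1 c2 ε) X v 1 =
      ((fderiv ℝ (ro c1 c2 ε) X v : ℝ) : ℂ) * c2 X + ro c1 c2 ε X * fderiv ℝ c2 X v +
        ε * (2 * Real.pi * Complex.I * v (Sum.inl 1) * ee (X (Sum.inl 1)) * conj (c1 X) +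
          ee (X (Sum.inl 1)) * conj (fderiv ℝ c1 X v)) := by
  have hz : HasFDerivAt (zc c1 c2 ε) (fderiv ℝ (zc c1 c2 ε) X) X :=
    ((h.smoothz ε).differentiable (by simp)).differentiableAt.hasFDerivAt
  have hr : HasFDerivAt (ro c1 c2 ε) (fderiv ℝ (ro c1 c2 ε) X) X :=
    ((h.smoothro ε).differentiable (by simp)).differentiableAt.hasFDerivAt
  have hr' : HasFDerivAt (fun Y => ((ro c1 c2 ε Y : ℝ) : ℂ)) _ X :=
    Complex.ofRealCLM.hasFDerivAt.comp X hr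
  have h1 : HasFDerivAt c1 (fderiv ℝ c1 X) X :=
    (h.s1.differentiable (by simp)).differentiableAt.hasFDerivAt
  have h2 : HasFDerivAt c2 (fderiv ℝ c2 X) X :=
    (h.s2.differentiable (by simp)).differentiableAt.hasFDerivAt
  have k1 : HasFDerivAt (fun Y => conj (c1 Y)) _ X :=
    (Complex.conjCLE : ℂ →L[ℝ] ℂ).hasFDerivAt.comp X h1
  have k2 : HasFDerivAt (fun Y => conj (c2 Y)) _ X :=
    (Complex.conjCLE : ℂ →L[ℝ] ℂ).hasFDerivAt.comp X h2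
  have h5 : HasFDerivAt (fun y : Fin 2 ⊕ κ → ℝ => y (Sum.inl 1))
      (ContinuousLinearMap.proj (R := ℝ) (φ := fun _ : Fin 2 ⊕ κ => ℝ) (Sum.inl 1)) X :=
    (ContinuousLinearMap.proj (R := ℝ) (φ := fun _ : Fin 2 ⊕ κ => ℝ) (Sum.inl 1)).hasFDerivAt
  have he0 := (hasDerivAt_ee (X (Sum.inl 1))).hasFDerivAt.comp X h5
  have he := (he0.const_mul (ε : ℂ))
  constructor
  · have a1 := (hasFDerivAt_pi'.1 hz) 0
    have a2 : HasFDerivAt (fun Y => zc c1 c2 ε Y 0) _ X :=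
      (hr'.mul h1).sub (he.mul k2)
    have a3 := congrArg (fun T : (Fin 2 ⊕ κ → ℝ) →L[ℝ] ℂ => T v) (a1.unique a2)
    have a4 : ((ContinuousLinearMap.proj (R := ℝ) (φ := fun _ : Fin 2 => ℂ) 0).comp
      (fderiv ℝ (zc c1 c2 ε) X)) v = fderiv ℝ (zc c1 c2 ε) X v 0 := rfl
    rw [← a4, a3]
    simp
    ring
  · have a1 := (hasFDerivAt_pi'.1 hz) 1
    have a2 : HasFDerivAt (fun Y => zc c1 c2 ε Y 1) _ X :=
      (hr'.mul h2).add (he.mul k1)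
    have a3 := congrArg (fun T : (Fin 2 ⊕ κ → ℝ) →L[ℝ] ℂ => T v) (a1.unique a2)
    have a4 : ((ContinuousLinearMap.proj (R := ℝ) (φ := fun _ : Fin 2 => ℂ) 1).comp
      (fderiv ℝ (zc c1 c2 ε) X)) v = fderiv ℝ (zc c1 c2 ε) X v 1 := rfl
    rw [← a4, a3]
    simp
    ring

theorem Cv.lam_zc (h : Cv c1 c2) (ε : ℝ) (X v : Fin 2 ⊕ κ → ℝ) :
    lam (zc c1 c2 ε X) (fderiv ℝ (zc c1 c2 ε) X v) =
      1 / 2 * ((ro c1 c2 ε X ^ 2 - ε ^ 2) * Aq c1 c2 v X + 2 * ro c1 c2 ε X * ε * bq c1 c2 v X) +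
        Real.pi * ε ^ 2 * v (Sum.inl 1) := by
  obtain ⟨d0, d1⟩ := h.fderiv_zc ε X v
  unfold lam
  rw [Fin.sum_univ_two, d0, d1, ← Complex.add_im]
  have z0 : zc c1 c2 ε X 0 = (ro c1 c2 ε X : ℂ) * c1 X - ε * ee (X (Sum.inl 1)) * conj (c2 X) := rfl
  have z1 : zc c1 c2 ε X 1 = (ro c1 c2 ε X : ℂ) * c2 X + ε * ee (X (Sum.inl 1)) * conj (c1 X) := rfl
  rw [z0, z1, key_lam _ _ _ _ _ _ _ _ _ (ee_conj_mul _) (h.unit X)]
  unfold Aq bq Bq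
  ring

theorem t_LAM : S_LAM := fun κ _ _ c1 c2 h ε X v =>
  ⟨h.smoothro ε, h.smoothz ε, h.ro_pos ε X, h.quad ε X, h.roA_pos ε X, h.lam_zc ε X v⟩

end Pool.Agent.Helper57.LT4
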