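import Pool.Agent.W630.LT.MainD
import Pool.Agent.W400.LT.Int

/-!
# Lagrangian tori in `ℝ⁸` (and `ℝ^{2n}`, `n ≥ 4`) not Lagrangian isotopic to the Clifford torus:
definitions and statements of the pieces

The library file `W630/LT` has the tool: `W` (the degree of a map of `T³` to `GL(n,ℂ)`, homotopy
invariant, additive, even for real matrices) and the suspension `FS z C` of a family
`z : T^α × T^κ → ℂ^α`, which needs `3` parameters and so `n ≥ 5`.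

Here: `c = (c1, c2) : T³ → S³ ⊂ ℂ²` is a family, over `(y_j) ∈ T^κ`, of closed curves (parameter
`x = X (inl 0)`) in `S³` which are positively transverse to the contact planes (`0 < Aq c ∂_x`). The
rescaled curves give an isotropic torus in `ℂ² × ℂ^κ`, a small circle (parameter `X (inl 1)`) in the
direction `c^⊥ = (-conj c2, conj c1)` gives the Lagrangian torus `FS (zc c1 c2 ε) C`. It is embedded
for small `ε` if the crossings of the curves are separated by the moments `Aq ∂_j / Aq ∂_x` (field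
`inj` of `Cv`). Then `W` of its differential is the degree of `c`.
-/

set_option autoImplicit false

open scoped ContDiff Matrix ComplexConjugate
open Set Pool.Agent.W630.LT

namespace Pool.Agent.Helper57.LT4

section defs

variable {κ : Type} [Fintype κ] [DecidableEq κ]

/-- the direction `∂_x` -/
noncomputable def dx : Fin 2 ⊕ κ → ℝ := Pi.single (Sum.inl 0) 1

/-- the direction `∂_j` -/
noncomputable def dy (j : κ) : Fin 2 ⊕ κ → ℝ := Pi.single (Sum.inr j) 1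

/-- `Im ⟨c, D_v c⟩` -/
noncomputable def Aq (c1 c2 : (Fin 2 ⊕ κ → ℝ) → ℂ) (v X : Fin 2 ⊕ κ → ℝ) : ℝ :=
  (conj (c1 X) * fderiv ℝ c1 X v + conj (c2 X) * fderiv ℝ c2 X v).im

/-- `⟨c^⊥, D_v c⟩`, `c^⊥ = (-conj c2, conj c1)` -/
noncomputable def Bq (c1 c2 : (Fin 2 ⊕ κ → ℝ) → ℂ) (v X : Fin 2 ⊕ κ → ℝ) : ℂ :=
  c1 X * fderiv ℝ c2 X v - c2 X * fderiv ℝ c1 X v

/-- `Im (e(-x₂) ⟨c^⊥, D_v c⟩)` -/
noncomputable def bq (c1 c2 : (Fin 2 ⊕ κ → ℝ) → ℂ) (v X : Fin 2 ⊕ κ → ℝ) : ℝ :=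
  (conj (ee (X (Sum.inl 1))) * Bq c1 c2 v X).im

/-- the conditions on the family of curves -/
structure Cv (c1 c2 : (Fin 2 ⊕ κ → ℝ) → ℂ) : Prop where
  s1 : ContDiff ℝ ∞ c1
  s2 : ContDiff ℝ ∞ c2
  unit : ∀ X, conj (c1 X) * c1 X + conj (c2 X) * c2 X = 1
  indep : ∀ X X' : Fin 2 ⊕ κ → ℝ, (∀ i, i ≠ Sum.inl 1 → X i = X' i) →
    c1 X = c1 X' ∧ c2 X = c2 X'
  per : ∀ (X : Fin 2 ⊕ κ → ℝ) (m : Fin 2 ⊕ κ → ℤ),
    c1 (fun i => X i + m i) = c1 X ∧ c2 (fun i => X i + m i) = c2 X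
  pos : ∀ X, 0 < Aq c1 c2 dx X
  inj : ∀ X X' : Fin 2 ⊕ κ → ℝ, (∀ j, X (Sum.inr j) = X' (Sum.inr j)) → c1 X = c1 X' →
    c2 X = c2 X' →
    (∀ j, Aq c1 c2 (dy j) X / Aq c1 c2 dx X = Aq c1 c2 (dy j) X' / Aq c1 c2 dx X') →
    ∃ m : ℤ, X' (Sum.inl 0) = X (Sum.inl 0) + m

/-- the radius `ρ`: the positive solution of `(ρ² - ε²) A + 2 ρ ε b = 1` -/
noncomputable def ro (c1 c2 : (Fin 2 ⊕ κ → ℝ) → ℂ) (ε : ℝ) (X : Fin 2 ⊕ κ → ℝ) : ℝ :=
  (-(ε * bq c1 c2 dx X) + Real.sqrt ((ε * bq c1 c2 dx X) ^ 2 + Aq c1 c2 dx X +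
    (ε * Aq c1 c2 dx X) ^ 2)) / Aq c1 c2 dx X

/-- the family `ρ c + ε e(x₂) c^⊥` -/
noncomputable def zc (c1 c2 : (Fin 2 ⊕ κ → ℝ) → ℂ) (ε : ℝ) (X : Fin 2 ⊕ κ → ℝ) : Fin 2 → ℂ :=
  ![(ro c1 c2 ε X : ℂ) * c1 X - ε * ee (X (Sum.inl 1)) * conj (c2 X),
    (ro c1 c2 ε X : ℂ) * c2 X + ε * ee (X (Sum.inl 1)) * conj (c1 X)]

end defs

/-- LAM (helper57). The moments of the family `zc`. -/
def S_LAM : Prop := ∀ (κ : Type) [Fintype κ] [DecidableEq κ] (c1 c2 : (Fin 2 ⊕ κ → ℝ) → ℂ),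
  Cv c1 c2 → ∀ (ε : ℝ) (X v : Fin 2 ⊕ κ → ℝ),
    ContDiff ℝ ∞ (ro c1 c2 ε) ∧ ContDiff ℝ ∞ (zc c1 c2 ε) ∧ 0 < ro c1 c2 ε X ∧
    (ro c1 c2 ε X ^ 2 - ε ^ 2) * Aq c1 c2 dx X + 2 * ro c1 c2 ε X * ε * bq c1 c2 dx X = 1 ∧
    0 < ro c1 c2 ε X * Aq c1 c2 dx X + ε * bq c1 c2 dx X ∧
    lam (zc c1 c2 ε X) (fderiv ℝ (zc c1 c2 ε) X v) =
      1 / 2 * ((ro c1 c2 ε X ^ 2 - ε ^ 2) * Aq c1 c2 v X + 2 * ro c1 c2 ε X * ε * bq c1 c2 v X) +
        Real.pi * ε ^ 2 * v (Sum.inl 1)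

/-- FAM (helper57). `zc` satisfies the conditions of the suspension. -/
def S_FAM : Prop := ∀ (κ : Type) [Fintype κ] [DecidableEq κ] (c1 c2 : (Fin 2 ⊕ κ → ℝ) → ℂ),
  Cv c1 c2 → ∀ ε : ℝ, 0 < ε → ∃ C₀ : ℝ, 0 < C₀ ∧ ∀ C : ℝ, C₀ ≤ C → Fam (zc c1 c2 ε) C

/-- EMB (150 lines; takes `h : S_LAM`). For small `ε` the suspension of `zc` is an embedding.

Proof. (`eq_iff`, from right to left: `zc`, hence `qq` and `rr`, are periodic, as in
`W630/LT/EmbC.lagEmb_FS`; smooth, immersion, lagrangian: `contDiff_FS`, `immersion_FS`, `omega_FS`.)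
From left to right: let `FS X = FS X'`. As in `lagEmb_FS` the coordinates `inr j` give
`X' (inr j) = X (inr j) + m_j` and equal radii `rr`, hence equal `qq (zc ε) j`; the coordinates
`inl` give `zc ε X = zc ε X'`. By periodicity we may assume `X' (inr j) = X (inr j)`, and by `indep`
all depends on `x = X (inl 0)`, `x₂ = X (inl 1)` and `y`. By `S_LAM` (`v = dy j`)
`qq (zc ε) j X = 1/2 ((ρ² - ε²) A_j + 2 ρ ε b_j)`, a continuous function `q_j(ε, X)` of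
`(ε, X)`; also `ρ = ro ε X` and `z(ε, X) = zc ε X` are continuous in `(ε, X)` (explicit formulas).

Local step. By compactness (everything is periodic) there are `a > 0`, `K`, `η > 0` such that for
`|δ| ≤ η`, all `x, y`: the function `g(δ) = Im ⟨c(x,y), c(x+δ,y)⟩` has `g(0) = 0`,
`g'(δ) = Im ⟨c(x,y), ∂_x c(x+δ,y)⟩ ≥ a` (`= Aq dx > 0` at `δ = 0`, uniform continuity), so
`|g(δ)| ≥ a |δ|`; and `|⟨c(x,y), c^⊥(x+δ,y)⟩| ≤ K |δ|` (it vanishes at `δ = 0`, its derivative is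
bounded by `K = sup |∂_x c|`). If `z(ε,x,x₂,y) = z(ε,x',x₂',y)` with `x' = x + δ`, `|δ| ≤ η`, take
the imaginary part of the product with `c(x,y)`: `0 = ρ' g(δ) + ε Im (e(x₂') ⟨c(x), c^⊥(x')⟩)`, so
`a ρ' |δ| ≤ ε K |δ|`, and `δ = 0` if `ε K < a ρ_min`, `ρ_min > 0` the minimum of `ρ` over
`ε ∈ [0,1]` and all `X`. Then `x = x'`, `ρ c + ε e(x₂) c^⊥ = ρ' c + ε e(x₂') c^⊥`, the product with
`c^⊥` gives `e(x₂) = e(x₂')`, `x₂' - x₂ ∈ ℤ`.

Global step. The set of `(ε, x, x₂, x', x₂', y)`, `ε ∈ [0,1]`, the others in `[0,1]`, with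
`|x' - x - m| ≥ η` for `m = -1, 0, 1`, `z(ε,x,x₂,y) = z(ε,x',x₂',y)` and `q_j` equal for all `j`, is
compact and contains no point with `ε = 0`: for `ε = 0` one has `z = ρ c`, `ρ² A = 1`, `ρ > 0`, so
`ρ = ρ'` (norms), `c = c'`, and `q_j = A_j / (2 A)` are equal: contradiction to `Cv.inj`. So it
contains no point with `ε < ε₁` for some `ε₁ > 0`. -/
def S_EMB : Prop := ∀ (κ : Type) [Fintype κ] [DecidableEq κ] (c1 c2 : (Fin 2 ⊕ κ → ℝ) → ℂ),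
  Cv c1 c2 → ∃ ε₀ : ℝ, 0 < ε₀ ∧ ∀ ε : ℝ, 0 < ε → ε < ε₀ → ∀ C : ℝ, Fam (zc c1 c2 ε) C →
    LagEmb (FS (zc c1 c2 ε) C)

/-- GEN (120 lines, no hypotheses). `W` of the differential of a suspension is `W` of the
differential of `z` in the directions `inl`.

Proof. Let `q_j = qq z j`, `R_j = rr z C₀ j`, `e_j = ee (X (inr j))`. By `fderiv_FS_inr` and
`rr_sq` the row `inr j` of `mat (fderiv (FS z C) X)`, multiplied by `R_j / C` (`R_j = rr z C j X`),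
is, in the column of the basis vector `v`,
`(-(D_v q_j) / (2π C) + 2πi v(inr j) (1 - q_j / (π C))) e_j` (`D_v R_j = -D_v q_j / (2π R_j)`).
For `u ∈ [0,1]` let `D u s` (at the point `X = ρ s`) have the rows `inl i`:
`fderiv z X v i` and the rows `inr j`:
`(-u (D_v q_j) / (2π C₀) + 2πi v(inr j) (1 - u q_j / (π C₀))) e_j`. For `u ∈ (0,1]` this is a
diagonal matrix (entries `1` and `R_j u / C₀ ≠ 0`) times `mat (fderiv (FS z (C₀/u)) X)`, invertible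
by `mat_FS_det` (`Fam z (C₀/u)` holds); for `u = 0` it is `fromBlocks N K 0 (diagonal (2πi e_j))`,
where `N` is invertible: the restriction of `z` to `y = const` is a Lagrangian immersion
(`Fam.lamc`, `Fam.inj`; `mat_det_ne_zero`), or: apply `mat_FS_det` for `C = C₀` and look at real
combinations. `hom` gives `W (D 1) = W (D 0)`; `W (D 1) = W (diagonal ..) + W (mat (fderiv (FS ..)))`
by `mul`, `diag`; `W (D 0) = W N + 0` by `blk`, `diag`. All the maps are `Lp` because `z`, hence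
`q_j`, is periodic (`fderiv_comp_add_right`, see `fderiv_zz_per`, `qq_per` in `EmbC`). The theorems
`hom`, `mul`, `blk`, `diag`, `idx` are in `W630/LT/Alg.lean`, `Hom.lean`. -/
def S_GEN : Prop := ∀ (α κ : Type) [Fintype α] [DecidableEq α] [Fintype κ] [DecidableEq κ]
  (z : (α ⊕ κ → ℝ) → (α → ℂ)) (C₀ : ℝ), 0 < C₀ → (∀ C : ℝ, C₀ ≤ C → Fam z C) →
  (∀ (X : α ⊕ κ → ℝ) (m : α ⊕ κ → ℤ), z (fun i => X i + m i) = z X) →
  ∀ ρ : R3 → α ⊕ κ → ℝ, ContDiff ℝ ∞ ρ →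
    (∀ (k : Fin 3) (s : R3), ∃ m : α ⊕ κ → ℤ, ∀ i, ρ (s + Pi.single k 1) i = ρ s i + m i) →
    W (fun s => mat (fderiv ℝ (FS z C₀) (ρ s))) =
      W (fun s => Matrix.of fun i l : α => fderiv ℝ z (ρ s) (Pi.single (Sum.inl l) 1) i)

/-- WN (100 lines; takes `h : S_LAM`). The `2 × 2` block has the same `W` as the matrix with the
columns `c`, `c^⊥`.

Proof. Let `U = [c, c^⊥]` (unitary, determinant `1`), `N = [∂_x z, ∂_{x₂} z]`, `T = U⁻¹ N = Uᴴ N`.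
With `z = ρ c + ε e c^⊥`, `e = ee x₂`, `⟨c, D c^⊥⟩ = -conj ⟨c^⊥, D c⟩`,
`⟨c^⊥, D c^⊥⟩ = conj ⟨c, D c⟩ = -i A` (as `|c| = 1`, `⟨c, D c⟩ = i A`), one has (`c` does not depend on `x₂`)
`T₁₁ = ∂_x ρ + i ρ A - ε e conj B`, `T₂₁ = ρ B - i ε e A`, `T₁₂ = ∂_{x₂} ρ` (real),
`T₂₂ = 2πi ε e`. So `Im T₁₁ = ρ A + ε b =: D > 0` (`S_LAM`). Since `λ(∂_x)`, `λ(∂_{x₂})` are constant
on `z` (`S_LAM`), `0 = Im ⟨∂_x z, ∂_{x₂} z⟩ = -D T₁₂ + 2π ε Re (conj e T₂₁)` (use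
`omega_eq_zero_of_lam` for the map of the two variables `x, x₂`, or differentiate
`(ρ² - ε²) A + 2 ρ ε b = 1` in `x₂`). For `t ∈ [0,1]` let `T_t` be `T` with the two off-diagonal
entries multiplied by `t`: `det T_t / (2πi ε e) = T₁₁ - t² T₁₂ T₂₁ / (2πi ε e)` has the imaginary
part `D + t² (Re (conj e T₂₁))² / D > 0`. By `hom`, `diag`: `W T = W T_0 = 0`, and
`W N = W U + W T` by `mul`. -/
def S_WN : Prop := ∀ (κ : Type) [Fintype κ] [DecidableEq κ] (c1 c2 : (Fin 2 ⊕ κ → ℝ) → ℂ),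
  Cv c1 c2 → ∀ ε : ℝ, 0 < ε → ∀ ρ : R3 → Fin 2 ⊕ κ → ℝ, ContDiff ℝ ∞ ρ →
    (∀ (k : Fin 3) (s : R3), ∃ m : Fin 2 ⊕ κ → ℤ, ∀ i, ρ (s + Pi.single k 1) i = ρ s i + m i) →
    W (fun s => Matrix.of fun i l : Fin 2 =>
        fderiv ℝ (zc c1 c2 ε) (ρ s) (Pi.single (Sum.inl l) 1) i) =
      W (fun s => !![c1 (ρ s), -conj (c2 (ρ s)); c2 (ρ s), conj (c1 (ρ s))])

/-- the counting formula of `S_CNT` for the constant `c` -/
def CntFor (c : ℂ) : Prop := ∀ u : R3 → Fin 4 → ℝ, Vp u →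
    (∀ s, 0 < u s 0 → (∀ j : Fin 3, u s j.succ = 0) → (Jac u s).det ≠ 0) →
    ∃ Z : Finset R3, (∀ s, s ∈ Z ↔ (∀ k, 0 ≤ s k ∧ s k < 1) ∧ 0 < u s 0 ∧
      ∀ j : Fin 3, u s j.succ = 0) ∧
      W (QQ u) = c * ∑ s ∈ Z, ((SignType.sign (Jac u s).det : ℤ) : ℂ)

/-- EVC (60 lines, no hypotheses). The constant of the counting formula is the constant of the
evenness theorem. Proof: take `c` from `Pool.Agent.W400.LT.cnt hom : S_CNT` (so that `CntFor c`),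
copy the second half of the proof of `Pool.Agent.W400.LT.int` (integrality with this `c`), then the
proof of `Pool.Agent.W630.LT.even` with this `c` (inputs `W366.LT.col`, `W366.LT.quat`,
`W308.LTGS.gs`, `W366.LT.ad`, see `W630/LT/Fin.lean`). -/
def S_EVC : Prop := ∃ c : ℂ, c ≠ 0 ∧ CntFor c ∧
  ∀ (n : ℕ) (R : R3 → Matrix (Fin n) (Fin n) ℝ), LpR R → ∃ k : ℤ, W (toC R) = 2 * k * c

/-! ## The family of curves -/

/-- `sin 2πs` -/
noncomputable def m1 (s : R3) : ℝ := Real.sin (2 * Real.pi * s 1)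
/-- `sin 2πt` -/
noncomputable def m2 (s : R3) : ℝ := Real.sin (2 * Real.pi * s 2)
/-- `cos 2πs + cos 2πt - 1` -/
noncomputable def m3 (s : R3) : ℝ :=
  Real.cos (2 * Real.pi * s 1) + Real.cos (2 * Real.pi * s 2) - 1
/-- the length -/
noncomputable def mm (s : R3) : ℝ := Real.sqrt (m1 s ^ 2 + m2 s ^ 2 + m3 s ^ 2)
/-- the phase -/
noncomputable def th (s : R3) : ℝ :=
  1 / 20 * (m1 s * Real.cos (2 * Real.pi * s 0) + m2 s * Real.sin (2 * Real.pi * s 0))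
/-- the first coordinate of the curves in `S³`; `x = s 0`, `y = (s 1, s 2)` -/
noncomputable def g1 (s : R3) : ℂ :=
  ee (s 0 + th s) * (((mm s - m3 s : ℝ) : ℂ) + ((mm s + m3 s : ℝ) : ℂ) * ee (s 0)) /
    (2 * (mm s : ℂ))
/-- the second coordinate of the curves in `S³` -/
noncomputable def g2 (s : R3) : ℂ :=
  ee (s 0 + th s) * (Complex.I * ((m1 s : ℂ) + m2 s * Complex.I) * (1 - ee (s 0))) /
    (2 * (mm s : ℂ))

/-- the projection to the coordinates `x`, `y_{k₀}`, `y_{k₁}` -/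
def p3 {κ : Type} (k0 k1 : κ) (X : Fin 2 ⊕ κ → ℝ) : R3 :=
  ![X (Sum.inl 0), X (Sum.inr k0), X (Sum.inr k1)]

/-- CV (150 lines, no hypotheses). The family satisfies the conditions `Cv`.

Proof. `m1 = m2 = 0` implies `m3 ∈ {1, -1, -3}`, so `M = mm > 0`, smooth (`ContDiff.sqrt`) and
`M² = m1² + m2² + m3²`. With `a = m3/M`, `ζ = (m1 + i m2)/M`: `a² + |ζ|² = 1`,
`g = (e(x+θ)/2) (1 - a + (1+a) e(x), iζ (1 - e(x)))`, `e = ee`. Unit: `|1 - a + (1+a)e|² +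
|ζ|² |1-e|² = 2 + 2a² + 2(1-a²) cos + 2(1-a²)(1 - cos) = 4`. Period: clear. `pos`: `∂_x` of the
phase `e(x+θ)` gives `2π (1 + ∂_x θ)`, `|∂_x θ| = (2π/20) |-m1 sin + m2 cos| < 1`, and the rest
gives `2π (1+a)/2 ≥ 0` (`Im conj(u1) u1' + conj(u2) u2'` for `u = (1 - a + (1+a) e, iζ(1-e))/2`:
`= (2π/4) ((1+a)² + (1-a²) cos + |ζ|² (1 - cos)) = (2π/4) (2 + 2a)`).
`inj`: let `p = e(x+θ)`, `q = e(2x+θ)`; `2 c1 = p + q - a (p - q)`, `2 c2 = iζ (p - q)`. If `ζ ≠ 0`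
then `c` determines `p - q` and `p + q`, so `p`, `q` and `e(x) = q/p`. If `ζ = 0`: `m1 = m2 = 0`, so
`θ = 0` (for all `x`), `a = ±1`. If `a = -1`: `c1 = p = e(x)`. If `a = 1` (`m3 = 1`,
`cos 2πs = cos 2πt = 1`): `c1 = q = e(2x)`, so `x' - x ∈ ½ℤ`, and the moments decide: at these
points `∂_j a = 0` (from `a² + |ζ|² = 1`, `ζ = 0`; or compute), the second coordinate is `0`, so
`Aq (dy j) = 2π ∂_jθ`, `Aq dx = 2π·2` (`∂_x θ = 0`), `∂_{k₀} θ = (2π/20) cos 2πx`,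
`∂_{k₁} θ = (2π/20) sin 2πx` (here `k₀ ≠ k₁` is used): equality for `x` and `x'` gives
`e(x) = e(x')`. -/
def S_CV : Prop := ∀ (κ : Type) [Fintype κ] [DecidableEq κ] (k0 k1 : κ), k0 ≠ k1 →
  Cv (fun X : Fin 2 ⊕ κ → ℝ => g1 (p3 k0 k1 X)) (fun X => g2 (p3 k0 k1 X))

/-- DEG (120 lines, no hypotheses). The degree of the family is `1` or `-1`.

Proof. `!![g1, -conj g2; g2, conj g1] = !![u1, -conj u2; u2, conj u1] * diagonal (p, conj p)`,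
`p = ee (x + θ)`, `u1 = ((M - m3) + (M + m3) e(x))/(2M)`, `u2 = i (m1 + i m2)(1 - e(x))/(2M)`; by
`mul`, `diag` the factor `diagonal` may be omitted, and also the positive factor `1/(2M)`. The
matrix `!![u1, -conj u2; u2, conj u1]` is `Q a` with `a = (Re u1, Im u1, -Re u2, Im u2)`, and
`Q (-a) = diagonal (-1,-1) * Q a`. Apply `CntFor` to `u = -2M a`, that is
`u = (-Re v1, -Im v1, Re v2, -Im v2)`, `v1 = (M - m3) + (M + m3) e(x)`,
`v2 = i (m1 + i m2)(1 - e(x))`. Zeros of `v2` with `v1` real and negative: `e(x) = 1` gives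
`v1 = 2M > 0`, no; `m1 = m2 = 0`, `M = |m3|`: if `m3 < 0`, `v1 = 2M > 0`, no; if `m3 > 0` then
`y ∈ ℤ²`, `v1 = 2M e(x)`, so `e(x) = -1`, `x ∈ ½ + ℤ`. So `Z = {(1/2, 0, 0)}`. The Jacobian there is
up to the order of the rows diagonal with nonzero entries: `∂_x (Im v1) = (M + m3)·(-2π)`,
`∂_s (Im v1) = ∂_t (Im v1) = 0` (factor `Im e(x) = 0`), `∂ v2 = i (∂ m1 + i ∂ m2)·2` with
`∂_s m1 = 2π = ∂_t m2`, and `∂_x v2 = 0` (factor `m1 + i m2 = 0`). -/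
def S_DEG : Prop := ∀ c : ℂ, CntFor c →
  W (fun s => !![g1 s, -conj (g2 s); g2 s, conj (g1 s)]) = c ∨
  W (fun s => !![g1 s, -conj (g2 s); g2 s, conj (g1 s)]) = -c

/-- ASM (helper57). -/
def S_ASM : Prop := ∀ n : ℕ, 4 ≤ n → IsLagrangianTorus (cliffordTorus n) ∧
      ∃ L : Set (Fin n → ℂ), IsLagrangianTorus L ∧
        ¬ LagrangianIsotopic (cliffordTorus n) L ∧ ¬ LagrangianIsotopic L (cliffordTorus n)

end Pool.Agent.Helper57.LT4
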