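import Pool.Agent.Helper57.LT4.Stm

/-!
# Piece WN: the `2 × 2` block has the same `W` as the matrix with the columns `c`, `c^⊥`
-/

set_option autoImplicit false

open scoped ContDiff Matrix ComplexConjugate
open Set Pool.Agent.W630.LT

namespace Pool.Agent.Helper57.LT4

namespace WN

variable {κ : Type} [Fintype κ] [DecidableEq κ]

theorem fderiv_shift {E V : Type} [NormedAddCommGroup E] [NormedSpace ℝ E]
    [NormedAddCommGroup V] [NormedSpace ℝ V] (f : E → V) (w : E) (h : ∀ X, f (X + w) = f X)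
    (X : E) : fderiv ℝ f (X + w) = fderiv ℝ f X := by
  have h1 : (fun y => f (y + w)) = f := funext h
  have h2 := fderiv_comp_add_right (𝕜 := ℝ) (f := f) (x := X) w
  rw [h1] at h2
  exact h2.symm

/-- the direction `∂_{x₂}` -/
noncomputable def d2 : Fin 2 ⊕ κ → ℝ := Pi.single (Sum.inl 1) 1

variable {c1 c2 : (Fin 2 ⊕ κ → ℝ) → ℂ}

theorem c_shift (h : Cv c1 c2) (X : Fin 2 ⊕ κ → ℝ) (t : ℝ) :
    c1 (X + t • d2) = c1 X ∧ c2 (X + t • d2) = c2 X := by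
  refine h.indep _ _ fun i hi => ?_
  simp [d2, hi]

theorem fderiv_c_d2 (h : Cv c1 c2) (X : Fin 2 ⊕ κ → ℝ) :
    fderiv ℝ c1 X d2 = 0 ∧ fderiv ℝ c2 X d2 = 0 := by
  have key : ∀ f : (Fin 2 ⊕ κ → ℝ) → ℂ, ContDiff ℝ ∞ f → (∀ t : ℝ, f (X + t • d2) = f X) →
      fderiv ℝ f X d2 = 0 := by
    intro f hf hc
    have h1 : HasFDerivAt f (fderiv ℝ f X) X :=
      (hf.differentiable (by simp)).differentiableAt.hasFDerivAt
    have h2 : HasLineDerivAt ℝ f (fderiv ℝ f X d2) X d2 := h1.hasLineDerivAt d2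
    have h3 : HasDerivAt (fun t : ℝ => f (X + t • d2)) (fderiv ℝ f X d2) 0 := h2
    have h4 : (fun t : ℝ => f (X + t • d2)) = fun _ => f X := funext hc
    rw [h4] at h3
    exact h3.unique (hasDerivAt_const 0 _)
  exact ⟨key c1 h.s1 fun t => (c_shift h X t).1, key c2 h.s2 fun t => (c_shift h X t).2⟩

/-- `⟨c, D_v c⟩ = i A_v` -/
theorem inner_c (h : Cv c1 c2) (X v : Fin 2 ⊕ κ → ℝ) :
    conj (c1 X) * fderiv ℝ c1 X v + conj (c2 X) * fderiv ℝ c2 X v =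
      Complex.I * (Aq c1 c2 v X : ℂ) := by
  have h1 : HasFDerivAt c1 (fderiv ℝ c1 X) X :=
    (h.s1.differentiable (by simp)).differentiableAt.hasFDerivAt
  have h2 : HasFDerivAt c2 (fderiv ℝ c2 X) X :=
    (h.s2.differentiable (by simp)).differentiableAt.hasFDerivAt
  have h3 : HasFDerivAt (fun y => conj (c1 y))
      ((Complex.conjCLE : ℂ →L[ℝ] ℂ).comp (fderiv ℝ c1 X)) X :=
    (Complex.conjCLE : ℂ →L[ℝ] ℂ).hasFDerivAt.comp X h1
  have h4 : HasFDerivAt (fun y => conj (c2 y))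
      ((Complex.conjCLE : ℂ →L[ℝ] ℂ).comp (fderiv ℝ c2 X)) X :=
    (Complex.conjCLE : ℂ →L[ℝ] ℂ).hasFDerivAt.comp X h2
  have h5 := (h3.mul h1).add (h4.mul h2)
  have h6 : (fun y => conj (c1 y)) * c1 + (fun y => conj (c2 y)) * c2 = fun _ => (1 : ℂ) := by
    funext y
    simpa using h.unit y
  rw [h6] at h5
  have h7 := congrArg (fun L => L v) (h5.unique (hasFDerivAt_const 1 X))
  simp at h7
  apply Complex.ext
  · have := congrArg Complex.re h7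
    simp at this ⊢
    linarith
  · simp [Aq]

theorem fderiv_zc_zero (hL : S_LAM) (h : Cv c1 c2) (ε : ℝ) (X v : Fin 2 ⊕ κ → ℝ) :
    fderiv ℝ (zc c1 c2 ε) X v 0 = (fderiv ℝ (ro c1 c2 ε) X v : ℂ) * c1 X +
      (ro c1 c2 ε X : ℂ) * fderiv ℝ c1 X v -
      (ε * (v (Sum.inl 1) * (2 * Real.pi * Complex.I * ee (X (Sum.inl 1)))) * conj (c2 X) +
      ε * ee (X (Sum.inl 1)) * conj (fderiv ℝ c2 X v)) := by
  obtain ⟨hr, hz, -⟩ := hL κ c1 c2 h ε X v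
  have h1 : HasFDerivAt c1 (fderiv ℝ c1 X) X :=
    (h.s1.differentiable (by simp)).differentiableAt.hasFDerivAt
  have h2 : HasFDerivAt c2 (fderiv ℝ c2 X) X :=
    (h.s2.differentiable (by simp)).differentiableAt.hasFDerivAt
  have h4 : HasFDerivAt (fun y => conj (c2 y))
      ((Complex.conjCLE : ℂ →L[ℝ] ℂ).comp (fderiv ℝ c2 X)) X :=
    (Complex.conjCLE : ℂ →L[ℝ] ℂ).hasFDerivAt.comp X h2
  have hr1 : HasFDerivAt (ro c1 c2 ε) (fderiv ℝ (ro c1 c2 ε) X) X :=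
    (hr.differentiable (by simp)).differentiableAt.hasFDerivAt
  have hr2 : HasFDerivAt (fun y => (ro c1 c2 ε y : ℂ))
      (Complex.ofRealCLM.comp (fderiv ℝ (ro c1 c2 ε) X)) X :=
    Complex.ofRealCLM.hasFDerivAt.comp X hr1
  have hp : HasFDerivAt (fun y : Fin 2 ⊕ κ → ℝ => y (Sum.inl 1))
      (ContinuousLinearMap.proj (R := ℝ) (φ := fun _ : Fin 2 ⊕ κ => ℝ) (Sum.inl 1)) X :=
    hasFDerivAt_apply _ _
  have he := HasFDerivAt.comp (g := ee) X (hasDerivAt_ee (X (Sum.inl 1))).hasFDerivAt hp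
  have h5 := (hr2.mul h1).sub ((he.const_mul (ε : ℂ)).mul h4)
  have hz1 : HasFDerivAt (zc c1 c2 ε) (fderiv ℝ (zc c1 c2 ε) X) X :=
    (hz.differentiable (by simp)).differentiableAt.hasFDerivAt
  have h6 := (hasFDerivAt_pi'.1 hz1) 0
  have h7 := congrArg (fun L => L v) (h6.unique h5)
  simpa [mul_comm, mul_left_comm, mul_assoc, add_comm, sub_eq_add_neg] using h7

theorem fderiv_zc_one (hL : S_LAM) (h : Cv c1 c2) (ε : ℝ) (X v : Fin 2 ⊕ κ → ℝ) :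
    fderiv ℝ (zc c1 c2 ε) X v 1 = (fderiv ℝ (ro c1 c2 ε) X v : ℂ) * c2 X +
      (ro c1 c2 ε X : ℂ) * fderiv ℝ c2 X v +
      (ε * (v (Sum.inl 1) * (2 * Real.pi * Complex.I * ee (X (Sum.inl 1)))) * conj (c1 X) +
      ε * ee (X (Sum.inl 1)) * conj (fderiv ℝ c1 X v)) := by
  obtain ⟨hr, hz, -⟩ := hL κ c1 c2 h ε X v
  have h1 : HasFDerivAt c1 (fderiv ℝ c1 X) X :=
    (h.s1.differentiable (by simp)).differentiableAt.hasFDerivAt
  have h2 : HasFDerivAt c2 (fderiv ℝ c2 X) X :=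
    (h.s2.differentiable (by simp)).differentiableAt.hasFDerivAt
  have h4 : HasFDerivAt (fun y => conj (c1 y))
      ((Complex.conjCLE : ℂ →L[ℝ] ℂ).comp (fderiv ℝ c1 X)) X :=
    (Complex.conjCLE : ℂ →L[ℝ] ℂ).hasFDerivAt.comp X h1
  have hr1 : HasFDerivAt (ro c1 c2 ε) (fderiv ℝ (ro c1 c2 ε) X) X :=
    (hr.differentiable (by simp)).differentiableAt.hasFDerivAt
  have hr2 : HasFDerivAt (fun y => (ro c1 c2 ε y : ℂ))
      (Complex.ofRealCLM.comp (fderiv ℝ (ro c1 c2 ε) X)) X :=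
    Complex.ofRealCLM.hasFDerivAt.comp X hr1
  have hp : HasFDerivAt (fun y : Fin 2 ⊕ κ → ℝ => y (Sum.inl 1))
      (ContinuousLinearMap.proj (R := ℝ) (φ := fun _ : Fin 2 ⊕ κ => ℝ) (Sum.inl 1)) X :=
    hasFDerivAt_apply _ _
  have he := HasFDerivAt.comp (g := ee) X (hasDerivAt_ee (X (Sum.inl 1))).hasFDerivAt hp
  have h5 := (hr2.mul h2).add ((he.const_mul (ε : ℂ)).mul h4)
  have hz1 : HasFDerivAt (zc c1 c2 ε) (fderiv ℝ (zc c1 c2 ε) X) X :=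
    (hz.differentiable (by simp)).differentiableAt.hasFDerivAt
  have h6 := (hasFDerivAt_pi'.1 hz1) 1
  have h7 := congrArg (fun L => L v) (h6.unique h5)
  simpa [mul_comm, mul_left_comm, mul_assoc, add_comm, sub_eq_add_neg] using h7

/-- `T₁ᵥ` -/
theorem T_one (hL : S_LAM) (h : Cv c1 c2) (ε : ℝ) (X v : Fin 2 ⊕ κ → ℝ) :
    conj (c1 X) * fderiv ℝ (zc c1 c2 ε) X v 0 + conj (c2 X) * fderiv ℝ (zc c1 c2 ε) X v 1 =
      (fderiv ℝ (ro c1 c2 ε) X v : ℂ) + Complex.I * (ro c1 c2 ε X * Aq c1 c2 v X) -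
        ε * (ee (X (Sum.inl 1)) * conj (Bq c1 c2 v X)) := by
  rw [fderiv_zc_zero hL h, fderiv_zc_one hL h]
  have h1 := h.unit X
  have h2 := inner_c h X v
  simp only [Bq, map_sub, map_mul]
  linear_combination (fderiv ℝ (ro c1 c2 ε) X v : ℂ) * h1 + (ro c1 c2 ε X : ℂ) * h2

/-- `T₂ᵥ` -/
theorem T_two (hL : S_LAM) (h : Cv c1 c2) (ε : ℝ) (X v : Fin 2 ⊕ κ → ℝ) :
    -c2 X * fderiv ℝ (zc c1 c2 ε) X v 0 + c1 X * fderiv ℝ (zc c1 c2 ε) X v 1 =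
      (ro c1 c2 ε X : ℂ) * Bq c1 c2 v X +
        ε * ee (X (Sum.inl 1)) * (2 * Real.pi * Complex.I * v (Sum.inl 1) -
          Complex.I * Aq c1 c2 v X) := by
  rw [fderiv_zc_zero hL h, fderiv_zc_one hL h]
  have h1 := h.unit X
  have h2 := congrArg conj (inner_c h X v)
  simp only [map_add, map_mul, Complex.conj_conj, Complex.conj_I, Complex.conj_ofReal] at h2
  simp only [Bq]
  linear_combination (ε * (v (Sum.inl 1) * (2 * Real.pi * Complex.I * ee (X (Sum.inl 1)))) : ℂ) * h1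
    + (ε * ee (X (Sum.inl 1)) : ℂ) * h2

theorem ABd2 (h : Cv c1 c2) (X : Fin 2 ⊕ κ → ℝ) :
    Aq c1 c2 d2 X = 0 ∧ Bq c1 c2 d2 X = 0 := by
  obtain ⟨h1, h2⟩ := fderiv_c_d2 h X
  simp [Aq, Bq, h1, h2]

theorem AB_shift (h : Cv c1 c2) (X v : Fin 2 ⊕ κ → ℝ) (t : ℝ) :
    Aq c1 c2 v (X + t • d2) = Aq c1 c2 v X ∧ Bq c1 c2 v (X + t • d2) = Bq c1 c2 v X := by
  have h1 := fderiv_shift c1 (t • d2) (fun Y => (c_shift h Y t).1) X
  have h2 := fderiv_shift c2 (t • d2) (fun Y => (c_shift h Y t).2) X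
  simp [Aq, Bq, h1, h2, (c_shift h X t).1, (c_shift h X t).2]

/-- the derivative of the constraint -/
theorem constr (hL : S_LAM) (h : Cv c1 c2) (ε : ℝ) (X : Fin 2 ⊕ κ → ℝ) :
    (ro c1 c2 ε X * Aq c1 c2 dx X + ε * bq c1 c2 dx X) * fderiv ℝ (ro c1 c2 ε) X d2 =
      2 * Real.pi * ε * (ro c1 c2 ε X * (conj (ee (X (Sum.inl 1))) * Bq c1 c2 dx X).re) := by
  have hr := (hL κ c1 c2 h ε X 0).1
  have hr1 : HasFDerivAt (ro c1 c2 ε) (fderiv ℝ (ro c1 c2 ε) X) X :=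
    (hr.differentiable (by simp)).differentiableAt.hasFDerivAt
  have h1 : HasDerivAt (fun t : ℝ => ro c1 c2 ε (X + t • d2)) (fderiv ℝ (ro c1 c2 ε) X d2) 0 :=
    hr1.hasLineDerivAt d2
  have h2 : HasDerivAt (fun t : ℝ => ee (X (Sum.inl 1) + t))
      (2 * Real.pi * Complex.I * ee (X (Sum.inl 1))) 0 := by
    have := (hasDerivAt_ee (X (Sum.inl 1) + 0)).comp_const_add (X (Sum.inl 1)) 0
    simpa using this
  have h3 : HasDerivAt (fun t : ℝ => (conj (ee (X (Sum.inl 1) + t)) * Bq c1 c2 dx X).im)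
      ((conj (2 * Real.pi * Complex.I * ee (X (Sum.inl 1))) * Bq c1 c2 dx X).im) 0 := by
    have e1 := ((Complex.conjCLE : ℂ →L[ℝ] ℂ).hasFDerivAt.comp_hasDerivAt (0 : ℝ) h2)
    have e2 := e1.mul_const (Bq c1 c2 dx X)
    exact (Complex.imCLM.hasFDerivAt.comp_hasDerivAt (0 : ℝ) e2)
  have h4 : ∀ t : ℝ, (ro c1 c2 ε (X + t • d2) ^ 2 - ε ^ 2) * Aq c1 c2 dx X +
      2 * ro c1 c2 ε (X + t • d2) * ε * (conj (ee (X (Sum.inl 1) + t)) * Bq c1 c2 dx X).im = 1 := by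
    intro t
    have := (hL κ c1 c2 h ε (X + t • d2) 0).2.2.2.1
    rw [bq, (AB_shift h X dx t).1, (AB_shift h X dx t).2] at this
    simpa [d2] using this
  have h5 := (((h1.pow 2).sub_const (ε ^ 2)).mul_const (Aq c1 c2 dx X)).add
    (((h1.const_mul 2).mul_const ε).mul h3)
  have h6 := h5.congr_of_eventuallyEq (Filter.Eventually.of_forall fun t => (h4 t).symm)
  have h7 := h6.unique (hasDerivAt_const 0 (1 : ℝ))
  have e3 : (conj (2 * Real.pi * Complex.I * ee (X (Sum.inl 1))) * Bq c1 c2 dx X).im =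
      -(2 * Real.pi) * (conj (ee (X (Sum.inl 1))) * Bq c1 c2 dx X).re := by
    have : conj (2 * Real.pi * Complex.I * ee (X (Sum.inl 1))) * Bq c1 c2 dx X =
        ((-(2 * Real.pi) : ℝ) : ℂ) * (Complex.I * (conj (ee (X (Sum.inl 1))) * Bq c1 c2 dx X)) := by
      simp only [map_mul, Complex.conj_I, Complex.conj_ofReal, Complex.conj_ofNat]
      push_cast
      ring
    rw [this, Complex.im_ofReal_mul, Complex.I_mul_im]
  rw [e3] at h7
  simp only [zero_smul, add_zero, Nat.cast_ofNat, Nat.add_one_sub_one, pow_one] at h7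
  simp only [bq]
  linear_combination h7 / 2

theorem per_all (h : Cv c1 c2) (ε : ℝ) (m : Fin 2 ⊕ κ → ℤ) (X : Fin 2 ⊕ κ → ℝ) :
    zc c1 c2 ε (X + fun i => (m i : ℝ)) = zc c1 c2 ε X := by
  have p1 : ∀ Y, c1 (Y + fun i => (m i : ℝ)) = c1 Y := fun Y => (h.per Y m).1
  have p2 : ∀ Y, c2 (Y + fun i => (m i : ℝ)) = c2 Y := fun Y => (h.per Y m).2
  have f1 := fderiv_shift c1 _ p1 X
  have f2 := fderiv_shift c2 _ p2 X
  have he : ee ((X + fun i => (m i : ℝ)) (Sum.inl 1)) = ee (X (Sum.inl 1)) := by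
    rw [Pi.add_apply, ee_add_int]
  have hA : ∀ v, Aq c1 c2 v (X + fun i => (m i : ℝ)) = Aq c1 c2 v X := fun v => by
    simp only [Aq, f1, f2, p1, p2]
  have hb : ∀ v, bq c1 c2 v (X + fun i => (m i : ℝ)) = bq c1 c2 v X := fun v => by
    simp only [bq, Bq, f1, f2, p1, p2, he]
  simp only [zc, ro, hA, hb, he, p1, p2]

/-- the first row of `T` -/
noncomputable def T1 (c1 c2 : (Fin 2 ⊕ κ → ℝ) → ℂ) (ε : ℝ) (v X : Fin 2 ⊕ κ → ℝ) : ℂ :=
  conj (c1 X) * fderiv ℝ (zc c1 c2 ε) X v 0 + conj (c2 X) * fderiv ℝ (zc c1 c2 ε) X v 1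

/-- the second row of `T` -/
noncomputable def T2 (c1 c2 : (Fin 2 ⊕ κ → ℝ) → ℂ) (ε : ℝ) (v X : Fin 2 ⊕ κ → ℝ) : ℂ :=
  -c2 X * fderiv ℝ (zc c1 c2 ε) X v 0 + c1 X * fderiv ℝ (zc c1 c2 ε) X v 1

/-- the homotopy -/
noncomputable def TT (c1 c2 : (Fin 2 ⊕ κ → ℝ) → ℂ) (ε τ : ℝ) (X : Fin 2 ⊕ κ → ℝ) :
    Matrix (Fin 2) (Fin 2) ℂ :=
  !![T1 c1 c2 ε dx X, τ * T1 c1 c2 ε d2 X; τ * T2 c1 c2 ε dx X, T2 c1 c2 ε d2 X]

theorem TT_det (hL : S_LAM) (h : Cv c1 c2) {ε : ℝ} (hε : 0 < ε) (τ : ℝ) (X : Fin 2 ⊕ κ → ℝ) :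
    (TT c1 c2 ε τ X).det ≠ 0 := by
  intro h0
  have e1 := T_one hL h ε X dx
  have e2 := T_two hL h ε X dx
  have e3 := T_one hL h ε X d2
  have e4 := T_two hL h ε X d2
  have hD := (hL κ c1 c2 h ε X 0).2.2.2.2.1
  have hc := constr hL h ε X
  rw [(ABd2 h X).1, (ABd2 h X).2] at e3 e4
  have v1 : (dx : Fin 2 ⊕ κ → ℝ) (Sum.inl 1) = 0 := by simp [dx]
  have v2 : (d2 : Fin 2 ⊕ κ → ℝ) (Sum.inl 1) = 1 := by simp [d2]
  rw [v1] at e2
  rw [v2] at e4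
  unfold TT at h0
  rw [Matrix.det_fin_two_of] at h0
  unfold T1 T2 at h0
  rw [e1, e2, e3, e4] at h0
  have hee := ee_conj_mul (X (Sum.inl 1))
  set e := ee (X (Sum.inl 1)) with hedef
  set A := Aq c1 c2 dx X
  set B := Bq c1 c2 dx X
  set r := ro c1 c2 ε X
  set r' := fderiv ℝ (ro c1 c2 ε) X d2
  set r0 := fderiv ℝ (ro c1 c2 ε) X dx
  have hb : bq c1 c2 dx X = (conj e * B).im := rfl
  rw [hb] at hD hc
  have k1 : ((r0 : ℂ) + Complex.I * (r * A) - ε * conj (conj e * B)) *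
      (2 * Real.pi * ε * Complex.I) =
      ((τ ^ 2 * r' : ℝ) : ℂ) * (r * (conj e * B) - ((ε * A : ℝ) : ℂ) * Complex.I) := by
    simp only [map_mul, Complex.conj_conj]
    push_cast
    simp only [Complex.ofReal_zero, Complex.ofReal_one, map_zero, mul_zero, mul_one, sub_zero,
      zero_add, add_zero] at h0
    linear_combination conj e * h0 - ((r0 + Complex.I * (r * A) - ε * (e * conj B)) *
      (2 * Real.pi * ε * Complex.I) + τ ^ 2 * r' * ε * A * Complex.I) * hee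
  have k2 := congrArg Complex.re k1
  rw [Complex.re_ofReal_mul] at k2
  have k3 : (r * (conj e * B) - ((ε * A : ℝ) : ℂ) * Complex.I).re = r * (conj e * B).re := by
    rw [Complex.sub_re, Complex.re_ofReal_mul, Complex.re_ofReal_mul, Complex.I_re]
    ring
  rw [k3] at k2
  have k4 : (((r0 : ℂ) + Complex.I * (r * A) - ε * conj (conj e * B)) *
      (2 * Real.pi * ε * Complex.I)).re = -(2 * Real.pi * ε) * (r * A + ε * (conj e * B).im) := by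
    have : (2 * Real.pi * ε * Complex.I : ℂ) = ((2 * Real.pi * ε : ℝ) : ℂ) * Complex.I := by
      push_cast; ring
    rw [this, mul_left_comm, Complex.re_ofReal_mul, Complex.mul_I_re, Complex.sub_im,
      Complex.add_im, Complex.ofReal_im, Complex.I_mul_im, Complex.im_ofReal_mul,
      Complex.conj_im, Complex.re_ofReal_mul, Complex.ofReal_re]
    ring
  rw [k4] at k2
  have hp : 0 < 2 * Real.pi * ε := by positivity
  have k5 : (2 * Real.pi * ε) ^ 2 * (r * A + ε * (conj e * B).im) +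
      τ ^ 2 * r' ^ 2 * (r * A + ε * (conj e * B).im) = 0 := by
    linear_combination -(2 * Real.pi * ε) * k2 + τ ^ 2 * r' * hc
  have k6 : 0 < (2 * Real.pi * ε) ^ 2 * (r * A + ε * (conj e * B).im) := by positivity
  have k7 : 0 ≤ τ ^ 2 * r' ^ 2 * (r * A + ε * (conj e * B).im) := by positivity
  linarith

theorem smooth_dz (hL : S_LAM) (h : Cv c1 c2) (ε : ℝ) (v : Fin 2 ⊕ κ → ℝ) (i : Fin 2) :
    ContDiff ℝ ∞ fun X => fderiv ℝ (zc c1 c2 ε) X v i := by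
  have hz := (hL κ c1 c2 h ε 0 0).2.1
  exact (contDiff_pi.1 ((hz.fderiv_right (m := ∞) (by simp)).clm_apply contDiff_const)) i

omit [DecidableEq κ] in
theorem smooth_conj {f : (Fin 2 ⊕ κ → ℝ) → ℂ} (hf : ContDiff ℝ ∞ f) :
    ContDiff ℝ ∞ fun X => conj (f X) := (Complex.conjCLE : ℂ →L[ℝ] ℂ).contDiff.comp hf

theorem smooth_T1 (hL : S_LAM) (h : Cv c1 c2) (ε : ℝ) (v : Fin 2 ⊕ κ → ℝ) :
    ContDiff ℝ ∞ (T1 c1 c2 ε v) :=
  ((smooth_conj h.s1).mul (smooth_dz hL h ε v 0)).add ((smooth_conj h.s2).mul (smooth_dz hL h ε v 1))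

theorem smooth_T2 (hL : S_LAM) (h : Cv c1 c2) (ε : ℝ) (v : Fin 2 ⊕ κ → ℝ) :
    ContDiff ℝ ∞ (T2 c1 c2 ε v) :=
  (h.s2.neg.mul (smooth_dz hL h ε v 0)).add (h.s1.mul (smooth_dz hL h ε v 1))

theorem smooth_TT (hL : S_LAM) (h : Cv c1 c2) (ε : ℝ) (i j : Fin 2) :
    ContDiff ℝ ∞ fun p : ℝ × (Fin 2 ⊕ κ → ℝ) => TT c1 c2 ε p.1 p.2 i j := by
  have a1 : ∀ v, ContDiff ℝ ∞ fun p : ℝ × (Fin 2 ⊕ κ → ℝ) => T1 c1 c2 ε v p.2 := fun v =>
    (smooth_T1 hL h ε v).comp contDiff_snd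
  have a2 : ∀ v, ContDiff ℝ ∞ fun p : ℝ × (Fin 2 ⊕ κ → ℝ) => T2 c1 c2 ε v p.2 := fun v =>
    (smooth_T2 hL h ε v).comp contDiff_snd
  have a3 : ContDiff ℝ ∞ fun p : ℝ × (Fin 2 ⊕ κ → ℝ) => (p.1 : ℂ) :=
    Complex.ofRealCLM.contDiff.comp contDiff_fst
  fin_cases i <;> fin_cases j
  · exact a1 dx
  · exact a3.mul (a1 d2)
  · exact a3.mul (a2 dx)
  · exact a2 d2

end WN

open WN in
theorem t_WN (hL : S_LAM) : S_WN := by
  intro κ _ _ c1 c2 h ε hε ρ hρ hρp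
  have fper : ∀ (m : Fin 2 ⊕ κ → ℤ) (X : Fin 2 ⊕ κ → ℝ),
      fderiv ℝ (zc c1 c2 ε) (X + fun i => (m i : ℝ)) = fderiv ℝ (zc c1 c2 ε) X :=
    fun m X => fderiv_shift _ _ (per_all h ε m) X
  have pT : ∀ (k : Fin 3) (s : R3), (∀ v, T1 c1 c2 ε v (ρ (s + Pi.single k 1)) =
      T1 c1 c2 ε v (ρ s) ∧ T2 c1 c2 ε v (ρ (s + Pi.single k 1)) = T2 c1 c2 ε v (ρ s)) ∧
      c1 (ρ (s + Pi.single k 1)) = c1 (ρ s) ∧ c2 (ρ (s + Pi.single k 1)) = c2 (ρ s) := by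
    intro k s
    obtain ⟨m, hm⟩ := hρp k s
    have e : ρ (s + Pi.single k 1) = ρ s + fun i => (m i : ℝ) := funext hm
    have q1 : c1 (ρ s + fun i => (m i : ℝ)) = c1 (ρ s) := (h.per (ρ s) m).1
    have q2 : c2 (ρ s + fun i => (m i : ℝ)) = c2 (ρ s) := (h.per (ρ s) m).2
    rw [e]
    refine ⟨fun v => ?_, q1, q2⟩
    simp only [T1, T2, fper, q1, q2, and_self]
  have lpT : ∀ τ : ℝ, Lp (fun s => TT c1 c2 ε τ (ρ s)) := by
    intro τ
    refine ⟨fun i j => ?_, fun k s => ?_, fun s => TT_det hL h hε τ _⟩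
    · exact ContDiff.comp (g := fun p : ℝ × (Fin 2 ⊕ κ → ℝ) => TT c1 c2 ε p.1 p.2 i j)
        (f := fun s : R3 => (τ, ρ s)) (smooth_TT hL h ε i j) (contDiff_const.prodMk hρ)
    · obtain ⟨h1, -, -⟩ := pT k s
      simp only [TT, (h1 dx).1, (h1 dx).2, (h1 d2).1, (h1 d2).2]
  have lpU : Lp (fun s => !![c1 (ρ s), -conj (c2 (ρ s)); c2 (ρ s), conj (c1 (ρ s))]) := by
    refine ⟨fun i j => ?_, fun k s => ?_, fun s => ?_⟩
    · have b1 : ContDiff ℝ ∞ fun s => c1 (ρ s) := h.s1.comp hρ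
      have b2 : ContDiff ℝ ∞ fun s => c2 (ρ s) := h.s2.comp hρ
      have b3 : ContDiff ℝ ∞ fun s => conj (c1 (ρ s)) := (smooth_conj h.s1).comp hρ
      have b4 : ContDiff ℝ ∞ fun s => -conj (c2 (ρ s)) := ((smooth_conj h.s2).comp hρ).neg
      fin_cases i <;> fin_cases j
      · exact b1
      · exact b4
      · exact b2
      · exact b3
    · obtain ⟨-, h1, h2⟩ := pT k s
      simp only [h1, h2]
    · rw [Matrix.det_fin_two_of]
      have := h.unit (ρ s)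
      have e : c1 (ρ s) * conj (c1 (ρ s)) - -conj (c2 (ρ s)) * c2 (ρ s) = 1 := by
        linear_combination this
      rw [e]
      exact one_ne_zero
  have eN : (fun s => Matrix.of fun i l : Fin 2 =>
        fderiv ℝ (zc c1 c2 ε) (ρ s) (Pi.single (Sum.inl l) 1) i) =
      fun s => !![c1 (ρ s), -conj (c2 (ρ s)); c2 (ρ s), conj (c1 (ρ s))] *
        TT c1 c2 ε 1 (ρ s) := by
    funext s
    have hu := h.unit (ρ s)
    ext i l
    rw [Matrix.mul_apply, Fin.sum_univ_two]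
    fin_cases i <;> fin_cases l <;> simp [TT, T1, T2, dx, d2]
    · linear_combination (-(fderiv ℝ (zc c1 c2 ε) (ρ s) (Pi.single (Sum.inl 0) 1) 0)) * hu
    · linear_combination (-(fderiv ℝ (zc c1 c2 ε) (ρ s) (Pi.single (Sum.inl 1) 1) 0)) * hu
    · linear_combination (-(fderiv ℝ (zc c1 c2 ε) (ρ s) (Pi.single (Sum.inl 0) 1) 1)) * hu
    · linear_combination (-(fderiv ℝ (zc c1 c2 ε) (ρ s) (Pi.single (Sum.inl 1) 1) 1)) * hu
  rw [eN, mul (Fin 2) _ _ lpU (lpT 1)]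
  have hcont : ∀ i j, Continuous fun p : ℝ × R3 => TT c1 c2 ε p.1 (ρ p.2) i j := fun i j =>
    Continuous.comp (g := fun p : ℝ × (Fin 2 ⊕ κ → ℝ) => TT c1 c2 ε p.1 p.2 i j)
      (f := fun p : ℝ × R3 => (p.1, ρ p.2)) (smooth_TT hL h ε i j).continuous
      (continuous_fst.prodMk (hρ.continuous.comp continuous_snd))
  have h1 := hom (Fin 2) (fun τ s => TT c1 c2 ε τ (ρ s)) (fun τ _ => lpT τ) fun i j =>
    (hcont i j).continuousOn
  have h2 : (fun s => TT c1 c2 ε 0 (ρ s)) = fun s => Matrix.diagonal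
      ![T1 c1 c2 ε dx (ρ s), T2 c1 c2 ε d2 (ρ s)] := by
    funext s
    ext i j
    fin_cases i <;> fin_cases j <;> simp [TT]
  have h3 := diag (Fin 2) (fun s => ![T1 c1 c2 ε dx (ρ s), T2 c1 c2 ε d2 (ρ s)])
  rw [← h2] at h3
  rw [← h1, h3, add_zero]

end Pool.Agent.Helper57.LT4
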